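import Mathlib

/-!
Averages over permutations: a fixed set moved by a random permutation is a random set.
-/

namespace Pool.Agent.KR3

open Finset

theorem exists_perm_map {m : ℕ} (I J : Finset (Fin m)) (h : I.card = J.card) :
    ∃ ρ : Equiv.Perm (Fin m), I.map ρ.toEmbedding = J := by
  classical
  let e : {x // x ∈ I} ≃ {x // x ∈ J} := Finset.equivOfCardEq h
  refine ⟨e.extendSubtype, ?_⟩
  apply Finset.eq_of_subset_of_card_le
  · intro y hy
    rw [Finset.mem_map] at hy
    obtain ⟨x, hx, rfl⟩ := hy
    exact e.extendSubtype_mem x hx
  · rw [Finset.card_map, h]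

theorem card_perm_map {m : ℕ} (I : Finset (Fin m)) (ρ : Equiv.Perm (Fin m))
    (P : Finset (Fin m) → Prop) [DecidablePred P] :
    ((univ : Finset (Equiv.Perm (Fin m))).filter
      (fun σ => P ((I.map ρ.toEmbedding).map σ.toEmbedding))).card =
    ((univ : Finset (Equiv.Perm (Fin m))).filter
      (fun σ => P (I.map σ.toEmbedding))).card := by
  apply Finset.card_bij (fun σ _ => ρ.trans σ)
  · intro σ hσ
    rw [mem_filter] at hσ ⊢
    refine ⟨mem_univ _, ?_⟩
    have : I.map (ρ.trans σ).toEmbedding = (I.map ρ.toEmbedding).map σ.toEmbedding := by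
      rw [Finset.map_map]; rfl
    rw [this]; exact hσ.2
  · intro σ _ τ _ h
    have h2 := congrArg (fun e : Equiv.Perm (Fin m) => ρ.symm.trans e) h
    ext x
    have := congrArg (fun e : Equiv.Perm (Fin m) => e x) h2
    simpa using congrArg Fin.val this
  · intro σ hσ
    refine ⟨ρ.symm.trans σ, ?_, ?_⟩
    · rw [mem_filter] at hσ ⊢
      refine ⟨mem_univ _, ?_⟩
      have : (I.map ρ.toEmbedding).map (ρ.symm.trans σ).toEmbedding = I.map σ.toEmbedding := by
        rw [Finset.map_map]
        congr 1
        ext x
        simp
      rw [this]; exact hσ.2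
    · ext x; simp

theorem perm_count {m : ℕ} (I : Finset (Fin m)) (P : Finset (Fin m) → Prop) [DecidablePred P] :
    ((univ : Finset (Equiv.Perm (Fin m))).filter
      (fun σ => P (I.map σ.toEmbedding))).card * m.choose I.card =
    m.factorial * ((powersetCard I.card (univ : Finset (Fin m))).filter P).card := by
  classical
  have h1 : ∑ J ∈ powersetCard I.card (univ : Finset (Fin m)),
      ((univ : Finset (Equiv.Perm (Fin m))).filter
        (fun σ => P (J.map σ.toEmbedding))).card =
      m.choose I.card * ((univ : Finset (Equiv.Perm (Fin m))).filter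
        (fun σ => P (I.map σ.toEmbedding))).card := by
    rw [Finset.sum_congr rfl (g := fun _ => ((univ : Finset (Equiv.Perm (Fin m))).filter
        (fun σ => P (I.map σ.toEmbedding))).card)]
    · rw [Finset.sum_const, Finset.card_powersetCard, Finset.card_univ, Fintype.card_fin,
        smul_eq_mul]
    · intro J hJ
      rw [mem_powersetCard] at hJ
      obtain ⟨ρ, hρ⟩ := exists_perm_map I J hJ.2.symm
      subst hρ
      exact card_perm_map I ρ P
  have h2 : ∑ J ∈ powersetCard I.card (univ : Finset (Fin m)),
      ((univ : Finset (Equiv.Perm (Fin m))).filter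
        (fun σ => P (J.map σ.toEmbedding))).card =
      ∑ σ : Equiv.Perm (Fin m), ((powersetCard I.card (univ : Finset (Fin m))).filter
        (fun J => P (J.map σ.toEmbedding))).card := by
    simp only [Finset.card_filter]
    rw [Finset.sum_comm]
  have h3 : ∀ σ : Equiv.Perm (Fin m), ((powersetCard I.card (univ : Finset (Fin m))).filter
        (fun J => P (J.map σ.toEmbedding))).card =
        ((powersetCard I.card (univ : Finset (Fin m))).filter P).card := by
    intro σ
    apply Finset.card_bij (fun J _ => J.map σ.toEmbedding)
    · intro J hJ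
      simp only [mem_filter, mem_powersetCard, subset_univ, true_and, card_map] at hJ ⊢
      exact hJ
    · intro J _ K _ h
      exact Finset.map_injective _ h
    · intro W hW
      simp only [mem_filter, mem_powersetCard, subset_univ, true_and] at hW
      refine ⟨W.map σ.symm.toEmbedding, ?_, ?_⟩
      · simp only [mem_filter, mem_powersetCard, subset_univ, true_and, card_map]
        refine ⟨hW.1, ?_⟩
        have : (W.map σ.symm.toEmbedding).map σ.toEmbedding = W := by
          ext x; simp
        rw [this]; exact hW.2
      · ext x; simp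
  rw [h2, Finset.sum_congr rfl (fun σ _ => h3 σ), Finset.sum_const, Finset.card_univ,
    Fintype.card_perm, Fintype.card_fin, smul_eq_mul] at h1
  rw [mul_comm, ← h1]

end Pool.Agent.KR3
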