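import Mathlib

/-!
Binomial coefficients: balanced products, a Vandermonde sum, comparison with `C(3 k + 1, m)`.
-/

namespace Pool.Agent.KR3

open Finset

theorem lc {k u y : ℕ} (h : y ≤ u) :
    k.choose (u + 1) * k.choose y ≤ k.choose u * k.choose (y + 1) := by
  have h1 := Nat.choose_succ_right_eq k u
  have h2 := Nat.choose_succ_right_eq k y
  have hpos : 0 < (u + 1) * (y + 1) := by positivity
  apply Nat.le_of_mul_le_mul_left _ hpos
  calc (u + 1) * (y + 1) * (k.choose (u + 1) * k.choose y)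
      = (k.choose (u + 1) * (u + 1)) * (k.choose y * (y + 1)) := by ring
    _ = (k.choose u * (k - u)) * (k.choose y * (y + 1)) := by rw [h1]
    _ = (k.choose u * k.choose y) * ((k - u) * (y + 1)) := by ring
    _ ≤ (k.choose u * k.choose y) * ((k - y) * (u + 1)) := by
        apply Nat.mul_le_mul_left
        apply Nat.mul_le_mul <;> omega
    _ = (k.choose u * (u + 1)) * (k.choose y * (k - y)) := by ring
    _ = (k.choose u * (u + 1)) * (k.choose (y + 1) * (y + 1)) := by rw [h2]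
    _ = (u + 1) * (y + 1) * (k.choose u * k.choose (y + 1)) := by ring

/-- The balanced product. -/
def mx (k m : ℕ) : ℕ := k.choose (m / 3) * k.choose ((m + 1) / 3) * k.choose ((m + 2) / 3)

theorem balanced (k : ℕ) : ∀ N a b c : ℕ, a * a + b * b + c * c ≤ N →
    k.choose a * k.choose b * k.choose c ≤ mx k (a + b + c) := by
  intro N
  induction N using Nat.strong_induction_on with
  | _ N ih =>
    have sorted : ∀ a b c : ℕ, a ≤ b → b ≤ c → a * a + b * b + c * c ≤ N →
        k.choose a * k.choose b * k.choose c ≤ mx k (a + b + c) := by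
      intro a b c hab hbc hN
      by_cases hc : c ≤ a + 1
      · have e1 : (a + b + c) / 3 = a := by omega
        have e2 : (a + b + c + 1) / 3 = b := by omega
        have e3 : (a + b + c + 2) / 3 = c := by omega
        rw [mx, e1, e2, e3]
      · obtain ⟨u, rfl⟩ : ∃ u, c = u + 1 := ⟨c - 1, by omega⟩
        have hau : a + 1 ≤ u := by omega
        have h1 : k.choose (u + 1) * k.choose a ≤ k.choose u * k.choose (a + 1) :=
          lc (by omega)
        have hlt : (a + 1) * (a + 1) + b * b + u * u < N := by nlinarith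
        have h2 := ih _ hlt (a + 1) b u le_rfl
        have e : a + 1 + b + u = a + b + (u + 1) := by ring
        rw [e] at h2
        calc k.choose a * k.choose b * k.choose (u + 1)
            = k.choose b * (k.choose (u + 1) * k.choose a) := by ring
          _ ≤ k.choose b * (k.choose u * k.choose (a + 1)) := Nat.mul_le_mul_left _ h1
          _ = k.choose (a + 1) * k.choose b * k.choose u := by ring
          _ ≤ _ := h2
    intro a b c hN
    rcases le_total a b with h1 | h1 <;> rcases le_total b c with h2 | h2 <;>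
      rcases le_total a c with h3 | h3
    · exact sorted a b c h1 h2 hN
    · exact sorted a b c h1 h2 hN
    · have := sorted a c b h3 h2 (by linarith)
      have e : a + c + b = a + b + c := by ring
      rw [e] at this
      calc _ = k.choose a * k.choose c * k.choose b := by ring
        _ ≤ _ := this
    · have := sorted c a b h3 h1 (by linarith)
      have e : c + a + b = a + b + c := by ring
      rw [e] at this
      calc _ = k.choose c * k.choose a * k.choose b := by ring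
        _ ≤ _ := this
    · have := sorted b a c h1 h3 (by linarith)
      have e : b + a + c = a + b + c := by ring
      rw [e] at this
      calc _ = k.choose b * k.choose a * k.choose c := by ring
        _ ≤ _ := this
    · have := sorted b c a h2 h3 (by linarith)
      have e : b + c + a = a + b + c := by ring
      rw [e] at this
      calc _ = k.choose b * k.choose c * k.choose a := by ring
        _ ≤ _ := this
    · have := sorted c b a h2 h1 (by linarith)
      have e : c + b + a = a + b + c := by ring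
      rw [e] at this
      calc _ = k.choose c * k.choose b * k.choose a := by ring
        _ ≤ _ := this
    · have := sorted c b a h2 h1 (by linarith)
      have e : c + b + a = a + b + c := by ring
      rw [e] at this
      calc _ = k.choose c * k.choose b * k.choose a := by ring
        _ ≤ _ := this

/-- `C(n + 3, j)` against `C(n, j)`. -/
theorem choose_three {n j : ℕ} (hj : j ≤ n) :
    (n.choose j : ℝ) * ((n : ℝ) + 1) * ((n : ℝ) + 2) * ((n : ℝ) + 3) =
      ((n + 3).choose j : ℝ) * ((n : ℝ) + 1 - j) * ((n : ℝ) + 2 - j) * ((n : ℝ) + 3 - j) := by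
  have h1 := Nat.choose_mul_succ_eq n j
  have h2 := Nat.choose_mul_succ_eq (n + 1) j
  have h3 := Nat.choose_mul_succ_eq (n + 2) j
  have c1 : (n.choose j : ℝ) * ((n : ℝ) + 1) = ((n + 1).choose j : ℝ) * ((n : ℝ) + 1 - j) := by
    have : ((n + 1 - j : ℕ) : ℝ) = (n : ℝ) + 1 - j := by
      rw [Nat.cast_sub (by omega)]; push_cast; ring
    rw [← this]; exact_mod_cast h1
  have c2 : ((n + 1).choose j : ℝ) * ((n : ℝ) + 2) =
      ((n + 2).choose j : ℝ) * ((n : ℝ) + 2 - j) := by
    have : ((n + 1 + 1 - j : ℕ) : ℝ) = (n : ℝ) + 2 - j := by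
      rw [Nat.cast_sub (by omega)]; push_cast; ring
    rw [← this]
    have e : ((n : ℝ) + 2) = ((n + 1 + 1 : ℕ) : ℝ) := by push_cast; ring
    rw [e]; exact_mod_cast h2
  have c3 : ((n + 2).choose j : ℝ) * ((n : ℝ) + 3) =
      ((n + 3).choose j : ℝ) * ((n : ℝ) + 3 - j) := by
    have : ((n + 2 + 1 - j : ℕ) : ℝ) = (n : ℝ) + 3 - j := by
      rw [Nat.cast_sub (by omega)]; push_cast; ring
    rw [← this]
    have e : ((n : ℝ) + 3) = ((n + 2 + 1 : ℕ) : ℝ) := by push_cast; ring
    rw [e]; exact_mod_cast h3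
  calc (n.choose j : ℝ) * ((n : ℝ) + 1) * ((n : ℝ) + 2) * ((n : ℝ) + 3)
      = ((n.choose j : ℝ) * ((n : ℝ) + 1)) * ((n : ℝ) + 2) * ((n : ℝ) + 3) := by ring
    _ = (((n + 1).choose j : ℝ) * ((n : ℝ) + 2)) * ((n : ℝ) + 1 - j) * ((n : ℝ) + 3) := by
        rw [c1]; ring
    _ = (((n + 2).choose j : ℝ) * ((n : ℝ) + 3)) * ((n : ℝ) + 2 - j) * ((n : ℝ) + 1 - j) := by
        rw [c2]; ring
    _ = _ := by rw [c3]; ring

/-- `(3 q + 1) C(k, q) ^ 3 ≤ C(3 k + 1, 3 q)`. -/
theorem cube_le (q : ℕ) : ∀ d : ℕ,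
    (3 * (q : ℝ) + 1) * ((q + d).choose q : ℝ) ^ 3 ≤ ((3 * (q + d) + 1).choose (3 * q) : ℝ) := by
  intro d
  induction d with
  | zero =>
    have : (3 * (q + 0) + 1).choose (3 * q) = 3 * q + 1 := by
      show (3 * q + 1).choose (3 * q) = 3 * q + 1
      exact Nat.choose_succ_self_right (3 * q)
    rw [this]; simp
  | succ d ih =>
    set c : ℝ := ((q + d).choose q : ℝ) with hc
    set c' : ℝ := ((q + (d + 1)).choose q : ℝ) with hc'
    set B : ℝ := ((3 * (q + d) + 1).choose (3 * q) : ℝ) with hB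
    set B' : ℝ := ((3 * (q + (d + 1)) + 1).choose (3 * q) : ℝ) with hB'
    set K : ℝ := (q : ℝ) + d + 1 with hK
    set D : ℝ := (d : ℝ) + 1 with hD
    have hc0 : 0 ≤ c := by positivity
    have hc0' : 0 ≤ c' := by positivity
    have hD1 : 1 ≤ D := by rw [hD]; have : (0 : ℝ) ≤ d := by positivity
                           linarith
    have hKD : D ≤ K := by rw [hK, hD]; have : (0 : ℝ) ≤ q := by positivity
                           linarith
    have e1 : c * K = c' * D := by
      have := Nat.choose_mul_succ_eq (q + d) q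
      have h2 : (q + d + 1 - q : ℕ) = d + 1 := by omega
      rw [h2] at this
      rw [hc, hc', hK, hD]
      exact_mod_cast this
    have e2 : B * (3 * K - 1) * (3 * K) * (3 * K + 1) =
        B' * (3 * D - 1) * (3 * D) * (3 * D + 1) := by
      have h := choose_three (n := 3 * (q + d) + 1) (j := 3 * q) (by omega)
      have h3 : 3 * (q + d) + 1 + 3 = 3 * (q + (d + 1)) + 1 := by ring
      rw [h3] at h
      push_cast at h
      rw [hB, hB', hK, hD]
      push_cast
      linear_combination h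
    have hD0 : 0 < D := by linarith
    have hK0 : 0 < K := by linarith
    -- c'^3 D^3 = c^3 K^3
    have e3 : c' ^ 3 * D ^ 3 = c ^ 3 * K ^ 3 := by
      rw [← mul_pow, ← mul_pow, e1]
    have hfac : 0 < D ^ 3 * (9 * D ^ 2 - 1) := by
      have : 0 < 9 * D ^ 2 - 1 := by nlinarith
      positivity
    have hBpos : 0 ≤ B := by positivity
    -- multiply the goal by D^3 (9 D^2 - 1)
    apply le_of_mul_le_mul_right _ hfac
    have l1 : (3 * (q : ℝ) + 1) * c' ^ 3 * (D ^ 3 * (9 * D ^ 2 - 1)) =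
        (3 * (q : ℝ) + 1) * c ^ 3 * (K ^ 3 * (9 * D ^ 2 - 1)) := by
      linear_combination (3 * (q : ℝ) + 1) * (9 * D ^ 2 - 1) * e3
    have l2 : B' * (D ^ 3 * (9 * D ^ 2 - 1)) = B * (K * (9 * K ^ 2 - 1) * D ^ 2) := by
      linear_combination (-D ^ 2 / 3) * e2
    rw [l1, l2]
    have h9 : 0 ≤ 9 * D ^ 2 - 1 := by nlinarith
    calc (3 * (q : ℝ) + 1) * c ^ 3 * (K ^ 3 * (9 * D ^ 2 - 1))
        ≤ B * (K ^ 3 * (9 * D ^ 2 - 1)) := by
          apply mul_le_mul_of_nonneg_right ih
          positivity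
      _ ≤ B * (K * (9 * K ^ 2 - 1) * D ^ 2) := by
          apply mul_le_mul_of_nonneg_left _ hBpos
          have : D ^ 2 ≤ K ^ 2 := by nlinarith
          nlinarith [mul_nonneg hK0.le (sub_nonneg.mpr this)]

theorem cube_le' {q k : ℕ} : (3 * (q : ℝ) + 1) * (k.choose q : ℝ) ^ 3 ≤
    ((3 * k + 1).choose (3 * q) : ℝ) := by
  rcases Nat.lt_or_ge k q with h | h
  · rw [Nat.choose_eq_zero_of_lt h]; simp
  · obtain ⟨d, rfl⟩ := Nat.exists_eq_add_of_le h
    exact cube_le q d

theorem mx_bound {k m : ℕ} (hm : 7 ≤ m) : 9 * (mx k m : ℝ) ≤ ((3 * k + 1).choose m : ℝ) := by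
  obtain ⟨q, hq⟩ : ∃ q, m = 3 * q ∨ m = 3 * q + 1 ∨ m = 3 * q + 2 := ⟨m / 3, by omega⟩
  have hcube := cube_le' (q := q) (k := k)
  rcases hq with rfl | rfl | rfl
  · have e1 : 3 * q / 3 = q := by omega
    have e2 : (3 * q + 1) / 3 = q := by omega
    have e3 : (3 * q + 2) / 3 = q := by omega
    rw [mx, e1, e2, e3]
    push_cast
    have hq3 : (3 : ℝ) ≤ q := by exact_mod_cast (show 3 ≤ q by omega)
    have hc : 0 ≤ (k.choose q : ℝ) ^ 3 := by positivity
    nlinarith [mul_nonneg (show (0 : ℝ) ≤ 3 * q + 1 - 9 by linarith) hc]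
  · have e1 : (3 * q + 1) / 3 = q := by omega
    have e2 : (3 * q + 1 + 1) / 3 = q := by omega
    have e3 : (3 * q + 1 + 2) / 3 = q + 1 := by omega
    rw [mx, e1, e2, e3]
    rcases Nat.lt_or_ge k (q + 1) with h | h
    · rw [Nat.choose_eq_zero_of_lt h]; simp
    · obtain ⟨d, rfl⟩ := Nat.exists_eq_add_of_le h
      have hq2 : (2 : ℝ) ≤ q := by exact_mod_cast (show 2 ≤ q by omega)
      have r1 : ((q + 1 + d).choose (q + 1) : ℝ) * ((q : ℝ) + 1) =
          ((q + 1 + d).choose q : ℝ) * ((d : ℝ) + 1) := by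
        have := Nat.choose_succ_right_eq (q + 1 + d) q
        have h2 : q + 1 + d - q = d + 1 := by omega
        rw [h2] at this
        exact_mod_cast this
      have r2 : ((3 * (q + 1 + d) + 1).choose (3 * q + 1) : ℝ) * (3 * (q : ℝ) + 1) =
          ((3 * (q + 1 + d) + 1).choose (3 * q) : ℝ) * (3 * ((d : ℝ) + 1) + 1) := by
        have := Nat.choose_succ_right_eq (3 * (q + 1 + d) + 1) (3 * q)
        have h2 : 3 * (q + 1 + d) + 1 - 3 * q = 3 * (d + 1) + 1 := by omega
        rw [h2] at this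
        exact_mod_cast this
      push_cast
      set c : ℝ := ((q + 1 + d).choose q : ℝ)
      set c1 : ℝ := ((q + 1 + d).choose (q + 1) : ℝ)
      set B : ℝ := ((3 * (q + 1 + d) + 1).choose (3 * q) : ℝ)
      set B1 : ℝ := ((3 * (q + 1 + d) + 1).choose (3 * q + 1) : ℝ)
      have hc : 0 ≤ c := by positivity
      have hd : (0 : ℝ) ≤ d := by positivity
      have hpos : 0 < (3 * (q : ℝ) + 1) * ((q : ℝ) + 1) * (3 * ((d : ℝ) + 1) + 1) := by positivity
      apply le_of_mul_le_mul_right _ hpos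
      have l1 : 9 * (c * c * c1) * ((3 * (q : ℝ) + 1) * ((q : ℝ) + 1) * (3 * ((d : ℝ) + 1) + 1)) =
          9 * ((3 * (q : ℝ) + 1) * c ^ 3) * (((d : ℝ) + 1) * (3 * ((d : ℝ) + 1) + 1)) := by
        linear_combination (9 * c * c * (3 * (q : ℝ) + 1) * (3 * ((d : ℝ) + 1) + 1)) * r1
      have l2 : B1 * ((3 * (q : ℝ) + 1) * ((q : ℝ) + 1) * (3 * ((d : ℝ) + 1) + 1)) =
          B * (((q : ℝ) + 1) * (3 * ((d : ℝ) + 1) + 1) ^ 2) := by
        linear_combination (((q : ℝ) + 1) * (3 * ((d : ℝ) + 1) + 1)) * r2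
      rw [l1, l2]
      have hB : 0 ≤ B := by positivity
      calc 9 * ((3 * (q : ℝ) + 1) * c ^ 3) * (((d : ℝ) + 1) * (3 * ((d : ℝ) + 1) + 1))
          ≤ 9 * B * (((d : ℝ) + 1) * (3 * ((d : ℝ) + 1) + 1)) := by
            apply mul_le_mul_of_nonneg_right _ (by positivity)
            linarith
        _ = B * (9 * (((d : ℝ) + 1) * (3 * ((d : ℝ) + 1) + 1))) := by ring
        _ ≤ B * (((q : ℝ) + 1) * (3 * ((d : ℝ) + 1) + 1) ^ 2) := by
            apply mul_le_mul_of_nonneg_left _ hB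
            have hz : 0 ≤ 3 * ((d : ℝ) + 1) + 1 := by positivity
            nlinarith [mul_nonneg hz hd, mul_nonneg (mul_nonneg hz hz) (sub_nonneg.mpr hq2)]
  · have e1 : (3 * q + 2) / 3 = q := by omega
    have e2 : (3 * q + 2 + 1) / 3 = q + 1 := by omega
    have e3 : (3 * q + 2 + 2) / 3 = q + 1 := by omega
    rw [mx, e1, e2, e3]
    rcases Nat.lt_or_ge k (q + 1) with h | h
    · rw [Nat.choose_eq_zero_of_lt h]; simp
    · obtain ⟨d, rfl⟩ := Nat.exists_eq_add_of_le h
      have hq2 : (2 : ℝ) ≤ q := by exact_mod_cast (show 2 ≤ q by omega)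
      have r1 : ((q + 1 + d).choose (q + 1) : ℝ) * ((q : ℝ) + 1) =
          ((q + 1 + d).choose q : ℝ) * ((d : ℝ) + 1) := by
        have := Nat.choose_succ_right_eq (q + 1 + d) q
        have h2 : q + 1 + d - q = d + 1 := by omega
        rw [h2] at this
        exact_mod_cast this
      have r2 : ((3 * (q + 1 + d) + 1).choose (3 * q + 1) : ℝ) * (3 * (q : ℝ) + 1) =
          ((3 * (q + 1 + d) + 1).choose (3 * q) : ℝ) * (3 * ((d : ℝ) + 1) + 1) := by
        have := Nat.choose_succ_right_eq (3 * (q + 1 + d) + 1) (3 * q)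
        have h2 : 3 * (q + 1 + d) + 1 - 3 * q = 3 * (d + 1) + 1 := by omega
        rw [h2] at this
        exact_mod_cast this
      have r3 : ((3 * (q + 1 + d) + 1).choose (3 * q + 2) : ℝ) * (3 * (q : ℝ) + 2) =
          ((3 * (q + 1 + d) + 1).choose (3 * q + 1) : ℝ) * (3 * ((d : ℝ) + 1)) := by
        have := Nat.choose_succ_right_eq (3 * (q + 1 + d) + 1) (3 * q + 1)
        have h2 : 3 * (q + 1 + d) + 1 - (3 * q + 1) = 3 * (d + 1) := by omega
        rw [h2] at this
        exact_mod_cast this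
      push_cast
      set c : ℝ := ((q + 1 + d).choose q : ℝ)
      set c1 : ℝ := ((q + 1 + d).choose (q + 1) : ℝ)
      set B : ℝ := ((3 * (q + 1 + d) + 1).choose (3 * q) : ℝ)
      set B1 : ℝ := ((3 * (q + 1 + d) + 1).choose (3 * q + 1) : ℝ)
      set B2 : ℝ := ((3 * (q + 1 + d) + 1).choose (3 * q + 2) : ℝ)
      have hc : 0 ≤ c := by positivity
      have hd : (0 : ℝ) ≤ d := by positivity
      have hpos : 0 < (3 * (q : ℝ) + 1) * (3 * (q : ℝ) + 2) * ((q : ℝ) + 1) ^ 2 := by positivity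
      apply le_of_mul_le_mul_right _ hpos
      have l1 : 9 * (c * c1 * c1) * ((3 * (q : ℝ) + 1) * (3 * (q : ℝ) + 2) * ((q : ℝ) + 1) ^ 2) =
          9 * ((3 * (q : ℝ) + 1) * c ^ 3) * (((d : ℝ) + 1) ^ 2 * (3 * (q : ℝ) + 2)) := by
        have : (c1 * ((q : ℝ) + 1)) ^ 2 = (c * ((d : ℝ) + 1)) ^ 2 := by rw [r1]
        linear_combination (9 * c * (3 * (q : ℝ) + 1) * (3 * (q : ℝ) + 2)) * this
      have l2 : B2 * ((3 * (q : ℝ) + 1) * (3 * (q : ℝ) + 2) * ((q : ℝ) + 1) ^ 2) =
          B * ((3 * ((d : ℝ) + 1) + 1) * (3 * ((d : ℝ) + 1)) * ((q : ℝ) + 1) ^ 2) := by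
        linear_combination ((3 * (q : ℝ) + 1) * ((q : ℝ) + 1) ^ 2) * r3 +
          (3 * ((d : ℝ) + 1)) * ((q : ℝ) + 1) ^ 2 * r2
      rw [l1, l2]
      have hB : 0 ≤ B := by positivity
      calc 9 * ((3 * (q : ℝ) + 1) * c ^ 3) * (((d : ℝ) + 1) ^ 2 * (3 * (q : ℝ) + 2))
          ≤ 9 * B * (((d : ℝ) + 1) ^ 2 * (3 * (q : ℝ) + 2)) := by
            apply mul_le_mul_of_nonneg_right _ (by positivity)
            linarith
        _ = B * (9 * (((d : ℝ) + 1) ^ 2 * (3 * (q : ℝ) + 2))) := by ring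
        _ ≤ B * ((3 * ((d : ℝ) + 1) + 1) * (3 * ((d : ℝ) + 1)) * ((q : ℝ) + 1) ^ 2) := by
            apply mul_le_mul_of_nonneg_left _ hB
            have h1 : 3 * (q : ℝ) + 2 ≤ ((q : ℝ) + 1) ^ 2 := by nlinarith
            have h2 : 0 ≤ ((q : ℝ) + 1) ^ 2 := by positivity
            have h3 : (3 * ((d : ℝ) + 1)) ^ 2 * (3 * (q : ℝ) + 2) ≤
                (3 * ((d : ℝ) + 1)) ^ 2 * ((q : ℝ) + 1) ^ 2 :=
              mul_le_mul_of_nonneg_left h1 (by positivity)
            nlinarith [mul_nonneg (show (0 : ℝ) ≤ 3 * ((d : ℝ) + 1) by positivity) h2]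

/-- `27 C(3 k - 2, k) ≤ 8 C(3 k + 1, k)` (with `k = l + 1`). -/
theorem tau_le (l : ℕ) : 27 * ((3 * l + 1).choose (l + 1) : ℝ) ≤
    8 * ((3 * l + 4).choose (l + 1) : ℝ) := by
  rcases Nat.eq_zero_or_pos l with rfl | hl
  · norm_num
  have h := choose_three (n := 3 * l + 1) (j := l + 1) (by omega)
  push_cast at h
  have e : 3 * l + 1 + 3 = 3 * l + 4 := by ring
  rw [e] at h
  set a : ℝ := ((3 * l + 1).choose (l + 1) : ℝ)
  set b : ℝ := ((3 * l + 4).choose (l + 1) : ℝ)
  have ha : 0 ≤ a := by positivity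
  have hl1 : (1 : ℝ) ≤ l := by exact_mod_cast hl
  have hpos : 0 < (2 * (l : ℝ) + 1) * (2 * (l : ℝ) + 2) * (2 * (l : ℝ) + 3) := by positivity
  apply le_of_mul_le_mul_right _ hpos
  have h2 : b * ((2 * (l : ℝ) + 1) * (2 * (l : ℝ) + 2) * (2 * (l : ℝ) + 3)) =
      a * ((3 * (l : ℝ) + 2) * (3 * (l : ℝ) + 3) * (3 * (l : ℝ) + 4)) := by
    linear_combination -h
  have h3 : 8 * b * ((2 * (l : ℝ) + 1) * (2 * (l : ℝ) + 2) * (2 * (l : ℝ) + 3)) =
      a * (8 * ((3 * (l : ℝ) + 2) * (3 * (l : ℝ) + 3) * (3 * (l : ℝ) + 4))) := by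
    linear_combination 8 * h2
  rw [h3]
  have h4 : 27 * a * ((2 * (l : ℝ) + 1) * (2 * (l : ℝ) + 2) * (2 * (l : ℝ) + 3)) =
      a * (27 * ((2 * (l : ℝ) + 1) * (2 * (l : ℝ) + 2) * (2 * (l : ℝ) + 3))) := by ring
  rw [h4]
  apply mul_le_mul_of_nonneg_left _ ha
  nlinarith

end Pool.Agent.KR3
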