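import Pool.Agent.KR3.Win
import Pool.Agent.KR3.Num

/-!
The critical estimate for at least seven positive doses.
-/

namespace Pool.Agent.KR3

open Finset

/-- `C(b, m - s)`, or 0 if `s > m`. -/
noncomputable def G (b m s : ℕ) : ℝ := if s ≤ m then (b.choose (m - s) : ℝ) else 0

theorem G_nonneg (b m s : ℕ) : 0 ≤ G b m s := by
  unfold G; split_ifs <;> positivity

theorem vand (k b m s : ℕ) :
    ∑ j ∈ range (k + 1), (k.choose j : ℝ) * G b m (s + j) = G (k + b) m s := by
  unfold G
  by_cases hs : s ≤ m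
  · rw [if_pos hs]
    obtain ⟨t, rfl⟩ := Nat.exists_eq_add_of_le hs
    have e : s + t - s = t := by omega
    rw [e]
    have h1 := Nat.add_choose_eq k b t
    rw [Finset.Nat.sum_antidiagonal_eq_sum_range_succ
      (fun i j => k.choose i * b.choose j) t] at h1
    have h2 : ((k + b).choose t : ℝ) = ∑ i ∈ range (t + 1),
        (k.choose i : ℝ) * (b.choose (t - i) : ℝ) := by
      rw [h1]; push_cast; rfl
    rw [h2]
    have h3 : ∑ i ∈ range (t + 1), (k.choose i : ℝ) * (b.choose (t - i) : ℝ) =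
        ∑ i ∈ range (k + t + 1), (k.choose i : ℝ) *
          (if s + i ≤ s + t then (b.choose (s + t - (s + i)) : ℝ) else 0) := by
      rw [← Finset.sum_subset (s₁ := range (t + 1)) (s₂ := range (k + t + 1))]
      · apply Finset.sum_congr rfl
        intro i hi
        rw [mem_range] at hi
        rw [if_pos (by omega)]
        have : s + t - (s + i) = t - i := by omega
        rw [this]
      · intro i hi; rw [mem_range] at hi ⊢; omega
      · intro i _ hi
        rw [mem_range] at hi
        rw [if_neg (by omega), mul_zero]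
    rw [h3]
    apply Finset.sum_subset
    · intro i hi; rw [mem_range] at hi ⊢; omega
    · intro i _ hi
      rw [mem_range] at hi
      rw [Nat.choose_eq_zero_of_lt (by omega : k < i)]
      simp
  · rw [if_neg hs]
    apply Finset.sum_eq_zero
    intro j _
    rw [if_neg (by omega), mul_zero]

/-- The weight of three window lengths. -/
noncomputable def H (k m a b c : ℕ) : ℝ :=
  (k.choose a : ℝ) * (k.choose b : ℝ) * (k.choose c : ℝ) * G 1 m (a + b + c)

theorem H_nonneg (k m a b c : ℕ) : 0 ≤ H k m a b c := by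
  unfold H; have := G_nonneg 1 m (a + b + c); positivity

theorem H_swap (k m a b c : ℕ) : H k m a b c = H k m b a c := by
  unfold H; rw [add_comm a b]; ring

theorem H_rot (k m a b c : ℕ) : H k m a b c = H k m c a b := by
  unfold H
  have : a + b + c = c + a + b := by ring
  rw [this]; ring

theorem sumH (k m a : ℕ) : ∑ b ∈ range (k + 1), ∑ c ∈ range (k + 1), H k m a b c =
    (k.choose a : ℝ) * G (2 * k + 1) m a := by
  have h1 : ∀ b, ∑ c ∈ range (k + 1), H k m a b c =
      (k.choose a : ℝ) * ((k.choose b : ℝ) * G (k + 1) m (a + b)) := by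
    intro b
    rw [← vand k 1 m (a + b), Finset.mul_sum, Finset.mul_sum]
    apply Finset.sum_congr rfl
    intro c _
    unfold H; ring
  simp only [h1]
  rw [← Finset.mul_sum, vand k (k + 1) m a]
  have : k + (k + 1) = 2 * k + 1 := by ring
  rw [this]

/-- The index set. -/
def R3 (k m : ℕ) : Finset (ℕ × ℕ × ℕ) :=
  (range (k + 1) ×ˢ range (k + 1) ×ˢ range (k + 1)).filter (fun j => j.1 + j.2.1 + j.2.2 ≤ m)

theorem sum_R3 (k m : ℕ) (f : ℕ × ℕ × ℕ → ℝ) :
    ∑ j ∈ R3 k m, H k m j.1 j.2.1 j.2.2 * f j =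
      ∑ a ∈ range (k + 1), ∑ b ∈ range (k + 1), ∑ c ∈ range (k + 1),
        H k m a b c * f (a, b, c) := by
  unfold R3
  rw [Finset.sum_filter_of_ne]
  · rw [Finset.sum_product]
    apply Finset.sum_congr rfl
    intro a _
    rw [Finset.sum_product]
  · intro j _ hj
    by_contra hcon
    apply hj
    unfold H G
    rw [if_neg hcon]; simp

theorem sum_one (k m : ℕ) (f : ℕ → ℝ) :
    ∑ j ∈ R3 k m, H k m j.1 j.2.1 j.2.2 * f j.1 =
      ∑ a ∈ range (k + 1), (k.choose a : ℝ) * G (2 * k + 1) m a * f a := by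
  rw [sum_R3 k m (fun j => f j.1)]
  apply Finset.sum_congr rfl
  intro a _
  rw [← sumH, Finset.sum_mul]
  apply Finset.sum_congr rfl
  intro b _
  rw [Finset.sum_mul]

theorem sum_two (k m : ℕ) (f : ℕ → ℝ) :
    ∑ j ∈ R3 k m, H k m j.1 j.2.1 j.2.2 * f j.2.1 =
      ∑ a ∈ range (k + 1), (k.choose a : ℝ) * G (2 * k + 1) m a * f a := by
  rw [sum_R3 k m (fun j => f j.2.1), Finset.sum_comm]
  apply Finset.sum_congr rfl
  intro b _
  rw [← sumH, Finset.sum_mul]
  apply Finset.sum_congr rfl
  intro a _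
  rw [Finset.sum_mul]
  apply Finset.sum_congr rfl
  intro c _
  rw [H_swap]

theorem sum_thr (k m : ℕ) (f : ℕ → ℝ) :
    ∑ j ∈ R3 k m, H k m j.1 j.2.1 j.2.2 * f j.2.2 =
      ∑ a ∈ range (k + 1), (k.choose a : ℝ) * G (2 * k + 1) m a * f a := by
  rw [sum_R3 k m (fun j => f j.2.2)]
  have h1 : ∀ a, ∑ b ∈ range (k + 1), ∑ c ∈ range (k + 1), H k m a b c * f c =
      ∑ c ∈ range (k + 1), ∑ b ∈ range (k + 1), H k m a b c * f c := fun a => Finset.sum_comm
  simp only [h1]
  rw [Finset.sum_comm]
  apply Finset.sum_congr rfl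
  intro c _
  rw [← sumH, Finset.sum_mul]
  apply Finset.sum_congr rfl
  intro a _
  rw [Finset.sum_mul]
  apply Finset.sum_congr rfl
  intro b _
  rw [H_rot]

theorem tri {N a b : ℕ} (h : a + b ≤ N) :
    N.choose a * (N - a).choose b = N.choose b * (N - b).choose a := by
  have h1 := Nat.choose_mul (n := N) (k := a + b) (s := a) (by omega)
  have h2 := Nat.choose_mul (n := N) (k := a + b) (s := b) (by omega)
  have e1 : a + b - a = b := by omega
  have e2 : a + b - b = a := by omega
  rw [e1] at h1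
  rw [e2] at h2
  rw [← h1, ← h2, Nat.choose_symm_add]

theorem hyp {n k m j : ℕ} (hjk : j ≤ k) (hjm : j ≤ m) (hkn : k ≤ n) (hmn : m ≤ n) :
    n.choose k * (k.choose j * (n - k).choose (m - j)) =
      n.choose m * (m.choose j * (n - m).choose (k - j)) := by
  have h1 := Nat.choose_mul (n := n) (k := k) (s := j) hjk
  have h2 := Nat.choose_mul (n := n) (k := m) (s := j) hjm
  rw [← mul_assoc, ← mul_assoc, h1, h2, mul_assoc, mul_assoc]
  congr 1
  rcases Nat.lt_or_ge (n - j) (k - j + (m - j)) with h | h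
  · have e1 : (n - k).choose (m - j) = 0 := Nat.choose_eq_zero_of_lt (by omega)
    have e2 : (n - m).choose (k - j) = 0 := Nat.choose_eq_zero_of_lt (by omega)
    rw [e1, e2, mul_zero, mul_zero]
  · have h3 := tri (N := n - j) (a := k - j) (b := m - j) h
    have e1 : n - j - (k - j) = n - k := by omega
    have e2 : n - j - (m - j) = n - m := by omega
    rw [e1, e2] at h3
    exact h3

theorem lth_zero {m : ℕ} (x : Fin m → ℝ) {j : ℕ} (h : m < j) : lth x j = 0 := by
  unfold lth
  rw [Finset.powersetCard_eq_empty.mpr]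
  · simp
  · simpa using h

/-- At least seven positive doses of total at most 3, with zeros up to `3 k + 1` elements. -/
theorem crit_big {m : ℕ} (hm : 7 ≤ m) (x : Fin m → ℝ) (hx : ∀ i, 0 < x i) (hs : ∑ i, x i ≤ 3)
    {k : ℕ} (hmk : m ≤ 3 * k + 1) :
    27 * ∑ j ∈ range (k + 1), (lth x j : ℝ) * ((3 * k + 1 - m).choose (k - j) : ℝ) ≤
      19 * ((3 * k + 1).choose k : ℝ) := by
  set Cm : ℝ := ((3 * k + 1).choose m : ℝ) with hCm
  set Ck : ℝ := ((3 * k + 1).choose k : ℝ) with hCk
  have hCm0 : 0 < Cm := by rw [hCm]; exact_mod_cast Nat.choose_pos hmk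
  have hCk0 : 0 < Ck := by rw [hCk]; exact_mod_cast Nat.choose_pos (by omega)
  set lam : ℕ → ℝ := fun j => (lth x j : ℝ) / (m.choose j : ℝ) with hlam
  have h3 := three x hx hs (R3 k m) (fun j hj => (mem_filter.mp hj).2)
    (fun j => H k m j.1 j.2.1 j.2.2) (fun j _ => H_nonneg _ _ _ _ _) (Cm / 9) (by positivity)
    (by
      intro j hj hsum
      have hb := balanced k _ j.1 j.2.1 j.2.2 le_rfl
      rw [hsum] at hb
      have hmx := mx_bound (k := k) hm
      have hG : G 1 m (j.1 + j.2.1 + j.2.2) = 1 := by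
        unfold G; rw [hsum, if_pos le_rfl, Nat.sub_self]; simp
      unfold H
      rw [hG, mul_one]
      have hb' : (k.choose j.1 : ℝ) * (k.choose j.2.1 : ℝ) * (k.choose j.2.2 : ℝ) ≤
          (mx k m : ℝ) := by exact_mod_cast hb
      rw [hCm]
      linarith)
  have hsplit : ∑ j ∈ R3 k m, H k m j.1 j.2.1 j.2.2 *
      (lam j.1 + lam j.2.1 + lam j.2.2) =
      3 * ∑ a ∈ range (k + 1), (k.choose a : ℝ) * G (2 * k + 1) m a * lam a := by
    simp only [mul_add, Finset.sum_add_distrib]
    rw [sum_one k m lam, sum_two k m lam, sum_thr k m lam]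
    ring
  have hW : ∑ j ∈ R3 k m, H k m j.1 j.2.1 j.2.2 = Cm := by
    have h := sum_one k m (fun _ => 1)
    simp only [mul_one] at h
    rw [h]
    have h4 := vand k (2 * k + 1) m 0
    simp only [zero_add] at h4
    rw [h4]
    unfold G
    rw [if_pos (Nat.zero_le _), Nat.sub_zero]
    have : k + (2 * k + 1) = 3 * k + 1 := by ring
    rw [this]
  have hL : Ck * ∑ a ∈ range (k + 1), (k.choose a : ℝ) * G (2 * k + 1) m a * lam a =
      Cm * ∑ j ∈ range (k + 1), (lth x j : ℝ) * ((3 * k + 1 - m).choose (k - j) : ℝ) := by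
    rw [Finset.mul_sum, Finset.mul_sum]
    apply Finset.sum_congr rfl
    intro a ha
    rw [mem_range] at ha
    by_cases ham : a ≤ m
    · have h5 := hyp (n := 3 * k + 1) (k := k) (m := m) (j := a) (by omega) ham (by omega) hmk
      have e : 3 * k + 1 - k = 2 * k + 1 := by omega
      rw [e] at h5
      have h6 : Ck * ((k.choose a : ℝ) * ((2 * k + 1).choose (m - a) : ℝ)) =
          Cm * ((m.choose a : ℝ) * ((3 * k + 1 - m).choose (k - a) : ℝ)) := by
        rw [hCk, hCm]; exact_mod_cast h5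
      have hma : (0 : ℝ) < (m.choose a : ℝ) := by exact_mod_cast Nat.choose_pos ham
      unfold G
      rw [if_pos ham, hlam]
      simp only
      rw [mul_div_assoc', mul_div_assoc', div_eq_iff hma.ne']
      linear_combination (lth x a : ℝ) * h6
    · unfold G
      rw [if_neg ham, lth_zero x (by omega)]
      simp
  have h3' : 3 * ∑ a ∈ range (k + 1), (k.choose a : ℝ) * G (2 * k + 1) m a * lam a ≤
      2 * Cm + Cm / 9 := by
    rw [← hsplit, ← hW]
    rw [hW]
    have := h3
    rw [hW] at this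
    exact this
  set A := ∑ a ∈ range (k + 1), (k.choose a : ℝ) * G (2 * k + 1) m a * lam a
  set L := ∑ j ∈ range (k + 1), (lth x j : ℝ) * ((3 * k + 1 - m).choose (k - j) : ℝ)
  have h7 : Cm * (27 * L) ≤ Cm * (19 * Ck) := by
    have : Cm * L = Ck * A := hL.symm
    nlinarith [mul_le_mul_of_nonneg_left h3' hCk0.le]
  exact le_of_mul_le_mul_left h7 hCm0

end Pool.Agent.KR3
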