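import Pool.Agent.KR3.Main

/-!
From finite sets to the form of the problem.
-/

namespace Pool.Agent.KR3

open Finset

theorem ncard_add_NL {n : ℕ} (k : ℕ) (x : Fin n → ℝ) :
    Set.ncard {V : Finset (Fin n) | V.card = k ∧ (1 : ℝ) ≤ ∑ i ∈ V, x i} + NL univ x k =
      n.choose k := by
  classical
  have h1 : {V : Finset (Fin n) | V.card = k ∧ (1 : ℝ) ≤ ∑ i ∈ V, x i} =
      (((univ : Finset (Fin n)).powersetCard k).filter (fun V => ¬ ∑ i ∈ V, x i < 1) :
        Set (Finset (Fin n))) := by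
    ext V
    simp [mem_powersetCard, not_lt]
  rw [h1, Set.ncard_coe_finset, NL, add_comm, Finset.card_filter_add_card_filter_not,
    card_powersetCard, card_univ, Fintype.card_fin]

theorem NL_unit_le {n s : ℕ} (hs : s ≤ n) (k : ℕ) :
    NL univ (fun i : Fin n => if i.val < s then (1 : ℝ) / ((1 : ℕ) : ℝ) else 0) k ≤
      (n - s).choose k := by
  classical
  have h2 : (n - s).choose k
      = (powersetCard k ((univ : Finset (Fin n)).filter (fun i => ¬ i.val < s))).card := by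
    have h3 : ((univ : Finset (Fin n)).filter (fun i => ¬ i.val < s)).card = n - s := by
      have h4 := Finset.card_filter_add_card_filter_not (s := (univ : Finset (Fin n)))
        (fun i => i.val < s)
      have h5 : ((univ : Finset (Fin n)).filter (fun i => i.val < s)).card = s := by
        rw [Fin.card_filter_val_lt, min_eq_right hs]
      rw [card_univ, Fintype.card_fin] at h4
      omega
    rw [card_powersetCard, h3]
  rw [h2]
  unfold NL
  apply card_le_card
  intro V hV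
  rw [mem_filter, mem_powersetCard] at hV
  rw [mem_powersetCard]
  refine ⟨?_, hV.1.2⟩
  intro i hi
  rw [mem_filter]
  refine ⟨mem_univ _, ?_⟩
  intro him
  have h6 := hV.2
  have h7 := single_le_sum (f := fun i : Fin n => (if i.val < s then (1 : ℝ) / ((1 : ℕ) : ℝ) else 0))
    (s := V) (fun j _ => by split_ifs <;> simp) hi
  have h8 : (if i.val < s then (1 : ℝ) / ((1 : ℕ) : ℝ) else 0) = 1 := by
    rw [if_pos him]; norm_num
  exact absurd (lt_of_le_of_lt h7 h6) (by rw [h8]; exact lt_irrefl _)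

theorem three_unit (n k : ℕ) (x : Fin n → ℝ) (hx : ∀ i, 0 ≤ x i) (hs : ∑ i, x i ≤ 3)
    (hk : 3 * k < n) :
    Set.ncard {V : Finset (Fin n) | V.card = k ∧ (1 : ℝ) ≤ ∑ i ∈ V, x i} ≤
      Set.ncard {V : Finset (Fin n) | V.card = k ∧ (1 : ℝ) ≤ ∑ i ∈ V,
        (if i.val < min n ⌊(3 : ℝ) * ((1 : ℕ) : ℝ)⌋₊ then (1 : ℝ) / ((1 : ℕ) : ℝ) else 0)} := by
  have h1 := ncard_add_NL k x
  have e : ⌊(3 : ℝ) * ((1 : ℕ) : ℝ)⌋₊ = 3 := by
    rw [Nat.cast_one, mul_one]
    exact Nat.floor_ofNat 3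
  have hmain := main univ x (fun i _ => hx i) hs k (by rw [card_univ, Fintype.card_fin]; exact hk)
  rw [card_univ, Fintype.card_fin] at hmain
  rw [e]
  rcases Nat.eq_zero_or_pos k with rfl | hkp
  · have h3 := NL_zero univ x
    rw [h3, Nat.choose_zero_right] at h1
    omega
  have e2 : min n 3 = 3 := min_eq_right (by omega)
  rw [e2]
  have h2 := ncard_add_NL k
    (fun i : Fin n => if i.val < 3 then (1 : ℝ) / ((1 : ℕ) : ℝ) else 0)
  have h3 := NL_unit_le (n := n) (s := 3) (by omega) k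
  omega

theorem three_k (n k : ℕ) (x : Fin n → ℝ) (hk : n ≤ 3 * k) (hk0 : 0 < k) :
    Set.ncard {V : Finset (Fin n) | V.card = k ∧ (1 : ℝ) ≤ ∑ i ∈ V, x i} ≤
      Set.ncard {V : Finset (Fin n) | V.card = k ∧ (1 : ℝ) ≤ ∑ i ∈ V,
        (if i.val < min n ⌊(3 : ℝ) * (k : ℝ)⌋₊ then (1 : ℝ) / (k : ℝ) else 0)} := by
  apply Set.ncard_le_ncard _ (Set.toFinite _)
  rintro V ⟨hV, _⟩
  refine ⟨hV, ?_⟩
  have e : ⌊(3 : ℝ) * (k : ℝ)⌋₊ = 3 * k := by
    have : (3 : ℝ) * (k : ℝ) = ((3 * k : ℕ) : ℝ) := by push_cast; ring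
    rw [this, Nat.floor_natCast]
  rw [e, min_eq_left hk]
  have h1 : ∀ i ∈ V, (if i.val < n then (1 : ℝ) / (k : ℝ) else 0) = 1 / (k : ℝ) := by
    intro i _
    rw [if_pos i.isLt]
  rw [Finset.sum_congr rfl h1, Finset.sum_const, hV, nsmul_eq_mul]
  have : (0 : ℝ) < k := by exact_mod_cast hk0
  rw [mul_one_div, div_self this.ne']

end Pool.Agent.KR3
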