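import Pool.Agent.KR3.TopFin

/-!
# Total dose `3 ≤ h < 3 + 1 / k` in the Kikuta-Ruckle problem: all `n` and all `k`
-/

namespace Pool.Agent.KR3.HThree

/-- Total dose `3 ≤ h < 3 + 1 / k`: for all `n` and `k`, the `1`-distribution is optimal if
`3 k < n`, and the `1 / k`-distribution is optimal if `n ≤ 3 k`. -/
theorem result (n k : ℕ) (h : ℝ) (h3 : 3 ≤ h) (hk : h * k < 3 * k + 1) (x : Fin n → ℝ)
    (hx : ∀ i, 0 ≤ x i) (hs : ∑ i, x i = h) :
    ∃ j : ℕ, 0 < j ∧ (3 * k < n → j = 1) ∧ (n ≤ 3 * k → j = k) ∧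
      Set.ncard {V : Finset (Fin n) | V.card = k ∧ (1 : ℝ) ≤ ∑ i ∈ V, x i} ≤
      Set.ncard {V : Finset (Fin n) | V.card = k ∧ (1 : ℝ) ≤ ∑ i ∈ V,
        (if i.val < min n ⌊h * (j : ℝ)⌋₊ then (1 : ℝ) / (j : ℝ) else 0)} := by
  rcases Nat.lt_or_ge (3 * k) n with hn | hn
  · exact ⟨1, one_pos, fun _ => rfl, fun h' => by omega,
      Pool.Agent.KR3.top_unit n k h h3 hk x hx hs hn⟩
  · have hk0 : 0 < k := by
      rcases Nat.eq_zero_or_pos k with rfl | hk0
      · have hn0 : n = 0 := by omega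
        subst hn0
        simp at hs
        linarith
      · exact hk0
    exact ⟨k, hk0, fun h' => by omega, fun _ => rfl,
      Pool.Agent.KR3.top_k n k h h3 x hn hk0⟩

end Pool.Agent.KR3.HThree
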