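import Pool.Agent.KR3.Small

/-!
Total dose 3: at least `C(n - 3, k)` of the `k`-subsets have dose less than 1 when `3 k < n`.
-/

namespace Pool.Agent.KR3

open Finset

theorem DD_add {m : ℕ} (x : Fin m → ℝ) (z k : ℕ) :
    DD x z k + ∑ j ∈ range (k + 1), lth x j * z.choose (k - j) = (m + z).choose k := by
  unfold DD
  rw [← Finset.sum_add_distrib, Nat.add_choose_eq,
    Finset.Nat.sum_antidiagonal_eq_sum_range_succ (fun i j => m.choose i * z.choose j) k]
  apply Finset.sum_congr rfl
  intro j _
  rw [← add_mul, dd_add_lth]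

/-- The critical number of elements `3 k + 1`. -/
theorem critical {m : ℕ} (x : Fin m → ℝ) (hx : ∀ i, 0 < x i) (hs : ∑ i, x i ≤ 3) (l : ℕ)
    (hm : m ≤ 3 * l + 4) : (3 * l + 1).choose (l + 1) ≤ DD x (3 * l + 4 - m) (l + 1) := by
  rcases Nat.lt_or_ge m 7 with h7 | h7
  · rcases Nat.lt_or_ge m 4 with h4 | h4
    · exact small_three (by omega) x l
    · obtain rfl | rfl | rfl : m = 4 ∨ m = 5 ∨ m = 6 := by omega
      · exact small_four x hx hs l
      · obtain ⟨p, rfl⟩ : ∃ p, l = p + 1 := ⟨l - 1, by omega⟩
        exact small_five x hx hs p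
      · obtain ⟨p, rfl⟩ : ∃ p, l = p + 1 := ⟨l - 1, by omega⟩
        exact small_six x hx hs p
  · have h1 := crit_big h7 x hx hs (k := l + 1) (by omega)
    have h2 := DD_add x (3 * l + 4 - m) (l + 1)
    have e : 3 * (l + 1) + 1 = 3 * l + 4 := by ring
    rw [e] at h1
    have e2 : m + (3 * l + 4 - m) = 3 * l + 4 := by omega
    rw [e2] at h2
    have h3 := tau_le l
    have h4 : (DD x (3 * l + 4 - m) (l + 1) : ℝ) +
        ∑ j ∈ range (l + 1 + 1), (lth x j : ℝ) * ((3 * l + 4 - m).choose (l + 1 - j) : ℝ) =
        ((3 * l + 4).choose (l + 1) : ℝ) := by exact_mod_cast h2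
    have h5 : ((3 * l + 1).choose (l + 1) : ℝ) ≤ (DD x (3 * l + 4 - m) (l + 1) : ℝ) := by
      linarith
    exact_mod_cast h5

variable {ι : Type*} [DecidableEq ι]

/-- Number of `k`-subsets of `s` of dose less than 1. -/
noncomputable def NL (s : Finset ι) (h : ι → ℝ) (k : ℕ) : ℕ :=
  ((s.powersetCard k).filter (fun V => ∑ i ∈ V, h i < 1)).card

theorem split_count (S Z : Finset ι) (hd : Disjoint S Z) (P : Finset ι → Prop)
    [DecidablePred P] (k : ℕ) :
    (((S ∪ Z).powersetCard k).filter (fun V => P (V ∩ S))).card =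
      ∑ j ∈ range (k + 1), ((S.powersetCard j).filter P).card * Z.card.choose (k - j) := by
  rw [Finset.card_eq_sum_card_fiberwise (f := fun V => (V ∩ S).card) (t := range (k + 1))]
  · apply Finset.sum_congr rfl
    intro j hj
    rw [mem_range] at hj
    rw [← Finset.card_powersetCard, ← Finset.card_product]
    apply Finset.card_bij (fun V _ => (V ∩ S, V ∩ Z))
    · intro V hV
      simp only [mem_filter, mem_powersetCard] at hV
      obtain ⟨⟨⟨hVs, hVc⟩, hP⟩, hj2⟩ := hV
      have hVe : V = (V ∩ S) ∪ (V ∩ Z) := by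
        rw [← Finset.inter_union_distrib_left]
        exact (Finset.inter_eq_left.mpr hVs).symm
      have hdis : Disjoint (V ∩ S) (V ∩ Z) :=
        Disjoint.mono inter_subset_right inter_subset_right hd
      have hc : V.card = (V ∩ S).card + (V ∩ Z).card := by
        conv_lhs => rw [hVe]
        exact Finset.card_union_of_disjoint hdis
      simp only [mem_product, mem_filter, mem_powersetCard]
      exact ⟨⟨⟨inter_subset_right, hj2⟩, hP⟩, inter_subset_right, by omega⟩
    · intro V hV W hW heq
      simp only [mem_filter, mem_powersetCard] at hV hW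
      simp only [Prod.mk.injEq] at heq
      have hVe : V = (V ∩ S) ∪ (V ∩ Z) := by
        rw [← Finset.inter_union_distrib_left]
        exact (Finset.inter_eq_left.mpr hV.1.1.1).symm
      have hWe : W = (W ∩ S) ∪ (W ∩ Z) := by
        rw [← Finset.inter_union_distrib_left]
        exact (Finset.inter_eq_left.mpr hW.1.1.1).symm
      rw [hVe, hWe, heq.1, heq.2]
    · rintro ⟨W, U⟩ hWU
      simp only [mem_product, mem_filter, mem_powersetCard] at hWU
      obtain ⟨⟨⟨hW1, hW2⟩, hP⟩, hU1, hU2⟩ := hWU
      have hdis : Disjoint W U := Disjoint.mono hW1 hU1 hd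
      have i1 : (W ∪ U) ∩ S = W := by
        rw [Finset.union_inter_distrib_right, Finset.inter_eq_left.mpr hW1]
        have : U ∩ S = ∅ := by
          rw [← Finset.disjoint_iff_inter_eq_empty]
          exact Disjoint.mono_left hU1 hd.symm
        rw [this, Finset.union_empty]
      have i2 : (W ∪ U) ∩ Z = U := by
        rw [Finset.union_inter_distrib_right, Finset.inter_eq_left.mpr hU1]
        have : W ∩ Z = ∅ := by
          rw [← Finset.disjoint_iff_inter_eq_empty]
          exact Disjoint.mono_left hW1 hd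
        rw [this, Finset.empty_union]
      refine ⟨W ∪ U, ?_, ?_⟩
      · simp only [mem_filter, mem_powersetCard]
        refine ⟨⟨⟨union_subset_union hW1 hU1, ?_⟩, ?_⟩, ?_⟩
        · rw [Finset.card_union_of_disjoint hdis]; omega
        · rw [i1]; exact hP
        · rw [i1]; exact hW2
      · simp only [i1, i2]
  · intro V hV
    have hV' : V ∈ ((S ∪ Z).powersetCard k).filter (fun V => P (V ∩ S)) := hV
    simp only [mem_filter, mem_powersetCard] at hV'
    have := Finset.card_le_card (Finset.inter_subset_left : V ∩ S ⊆ V)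
    simp only [coe_range, Set.mem_Iio]
    omega

theorem NL_eq_DD (s : Finset ι) (h : ι → ℝ) (hn : ∀ i ∈ s, 0 ≤ h i) :
    ∃ (m : ℕ) (x : Fin m → ℝ), (∀ i, 0 < x i) ∧ ∑ i, x i = ∑ i ∈ s, h i ∧ m ≤ s.card ∧
      ∀ k, NL s h k = DD x (s.card - m) k := by
  classical
  set S := s.filter (fun i => 0 < h i) with hS
  set Z := s.filter (fun i => ¬ 0 < h i) with hZ
  have hsu : S ∪ Z = s := Finset.filter_union_filter_not_eq _ _
  have hd : Disjoint S Z := Finset.disjoint_filter_filter_not _ _ _
  have hcard : S.card + Z.card = s.card := Finset.card_filter_add_card_filter_not _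
  have hZ0 : ∀ i ∈ Z, h i = 0 := by
    intro i hi
    rw [hZ, mem_filter] at hi
    have := hn i hi.1
    linarith [not_lt.mp hi.2]
  let e : Fin S.card ≃ {i // i ∈ S} := S.equivFin.symm
  let φ : Fin S.card ↪ ι := e.toEmbedding.trans (Function.Embedding.subtype _)
  have hφ : univ.map φ = S := by
    ext i
    simp only [mem_map, mem_univ, true_and]
    constructor
    · rintro ⟨t, rfl⟩
      exact (e t).2
    · intro hi
      refine ⟨e.symm ⟨i, hi⟩, ?_⟩
      show ((e (e.symm ⟨i, hi⟩)) : ι) = i
      rw [e.apply_symm_apply]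
  refine ⟨S.card, fun t => h (φ t), ?_, ?_, by omega, ?_⟩
  · intro t
    have : φ t ∈ S := (e t).2
    exact (Finset.mem_filter.mp this).2
  · have h1 : ∑ i ∈ S, h i = ∑ t, h (φ t) := by
      have h2 := Finset.sum_map univ φ h
      rw [hφ] at h2
      exact h2
    have h3 : ∑ i ∈ s, h i = ∑ i ∈ S, h i := by
      rw [← hsu, Finset.sum_union hd, Finset.sum_eq_zero hZ0, add_zero]
    rw [h3, h1]
  · intro k
    have h1 : NL s h k =
        (((S ∪ Z).powersetCard k).filter (fun V => ∑ i ∈ V ∩ S, h i < 1)).card := by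
      unfold NL
      rw [hsu]
      congr 1
      apply Finset.filter_congr
      intro V hV
      rw [mem_powersetCard] at hV
      have hVe : V = (V ∩ S) ∪ (V ∩ Z) := by
        rw [← Finset.inter_union_distrib_left, hsu]
        exact (Finset.inter_eq_left.mpr hV.1).symm
      have hdis : Disjoint (V ∩ S) (V ∩ Z) :=
        Disjoint.mono inter_subset_right inter_subset_right hd
      have : ∑ i ∈ V, h i = ∑ i ∈ V ∩ S, h i := by
        conv_lhs => rw [hVe]
        rw [Finset.sum_union hdis,
          Finset.sum_eq_zero (s := V ∩ Z) (fun i hi => hZ0 i (Finset.mem_inter.mp hi).2),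
          add_zero]
      rw [this]
    rw [h1, split_count S Z hd (fun W => ∑ i ∈ W, h i < 1) k]
    unfold DD
    apply Finset.sum_congr rfl
    intro j _
    have hz : Z.card = s.card - S.card := by omega
    rw [hz]
    congr 1
    unfold dd
    have h2 : ((S.powersetCard j).filter (fun W => ∑ i ∈ W, h i < 1)).card =
        (((univ.map φ).powersetCard j).filter (fun W => ∑ i ∈ W, h i < 1)).card := by
      rw [hφ]
    rw [h2, Finset.powersetCard_map, Finset.filter_map, Finset.card_map]
    congr 1
    apply Finset.filter_congr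
    intro W _
    show ∑ i ∈ W.map φ, h i < 1 ↔ _
    rw [Finset.sum_map]

theorem NL_zero (s : Finset ι) (h : ι → ℝ) : NL s h 0 = 1 := by
  unfold NL
  rw [Finset.powersetCard_zero, Finset.filter_singleton]
  simp

theorem NL_insert (s : Finset ι) (h : ι → ℝ) {e : ι} (he : e ∉ s) (h0 : h e = 0) (k : ℕ) :
    NL (insert e s) h (k + 1) = NL s h (k + 1) + NL s h k := by
  unfold NL
  rw [Finset.powersetCard_succ_insert he, Finset.filter_union, Finset.card_union_of_disjoint]
  · congr 1
    rw [Finset.filter_image, Finset.card_image_of_injOn]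
    · congr 1
      apply Finset.filter_congr
      intro V hV
      rw [mem_powersetCard] at hV
      rw [Finset.sum_insert (fun h => he (hV.1 h)), h0, zero_add]
    · intro V hV W hW heq
      simp only [coe_filter, mem_powersetCard, Set.mem_setOf_eq] at hV hW
      have hV2 : e ∉ V := fun h => he (hV.1.1 h)
      have hW2 : e ∉ W := fun h => he (hW.1.1 h)
      have := congrArg (fun A => A.erase e) heq
      simpa [Finset.erase_insert hV2, Finset.erase_insert hW2] using this
  · apply Finset.disjoint_filter_filter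
    rw [Finset.disjoint_left]
    intro V hV hV2
    rw [mem_powersetCard] at hV
    rw [mem_image] at hV2
    obtain ⟨W, _, rfl⟩ := hV2
    exact he (hV.1 (mem_insert_self _ _))

theorem critical_set (s : Finset ι) (h : ι → ℝ) (hn : ∀ i ∈ s, 0 ≤ h i)
    (hs : ∑ i ∈ s, h i ≤ 3) (l : ℕ) (hc : s.card = 3 * l + 4) :
    (3 * l + 1).choose (l + 1) ≤ NL s h (l + 1) := by
  obtain ⟨m, x, hx, hsum, hm, hNL⟩ := NL_eq_DD s h hn
  rw [hNL, hc]
  exact critical x hx (by rw [hsum]; exact hs) l (by omega)

theorem main_aux : ∀ (n : ℕ) (s : Finset ι) (h : ι → ℝ) (k : ℕ), s.card = n →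
    (∀ i ∈ s, 0 ≤ h i) → ∑ i ∈ s, h i ≤ 3 → 3 * k < n → (n - 3).choose k ≤ NL s h k := by
  intro n
  induction n with
  | zero => intro s h k _ _ _ hk; omega
  | succ n ih =>
    intro s h k hcard hn hs hk
    rcases Nat.eq_zero_or_pos k with rfl | hkpos
    · rw [NL_zero, Nat.choose_zero_right]
    obtain ⟨l, rfl⟩ : ∃ l, k = l + 1 := ⟨k - 1, by omega⟩
    by_cases hcrit : n + 1 = 3 * l + 4
    · have h1 := critical_set s h hn hs l (by omega)
      have e : n + 1 - 3 = 3 * l + 1 := by omega
      rw [e]; exact h1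
    · -- there is room: subtract the minimum and remove a zero
      have hne : s.Nonempty := by rw [← Finset.card_pos]; omega
      obtain ⟨e, hes, hmin⟩ := Finset.exists_min_image s h hne
      set c := h e with hc
      have hc0 : 0 ≤ c := hn e hes
      have hnc : (s.card : ℝ) * c ≤ ∑ i ∈ s, h i := by
        have := Finset.card_nsmul_le_sum s h c (fun i hi => hmin i hi)
        simpa using this
      have hkn : 3 * ((l : ℝ) + 1) < (s.card : ℝ) := by
        rw [hcard]; push_cast; exact_mod_cast hk
      have hkc : 0 < 1 - ((l : ℝ) + 1) * c := by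
        rcases hc0.lt_or_eq with hpos | hz
        · nlinarith
        · rw [← hz]; norm_num
      set D := 1 - ((l : ℝ) + 1) * c with hD
      set h' : ι → ℝ := fun i => (h i - c) / D with hh'
      have hn' : ∀ i ∈ s, 0 ≤ h' i := by
        intro i hi
        exact div_nonneg (by linarith [hmin i hi]) hkc.le
      have hs' : ∑ i ∈ s, h' i ≤ 3 := by
        rw [hh', ← Finset.sum_div, Finset.sum_sub_distrib, Finset.sum_const, nsmul_eq_mul,
          div_le_iff₀ hkc, hD]
        nlinarith
      have he0 : h' e = 0 := by simp [hh', hc]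
      have hNL : NL s h (l + 1) = NL s h' (l + 1) := by
        unfold NL
        congr 1
        apply Finset.filter_congr
        intro V hV
        rw [mem_powersetCard] at hV
        have : ∑ i ∈ V, h' i = (∑ i ∈ V, h i - ((l : ℝ) + 1) * c) / D := by
          rw [hh', ← Finset.sum_div, Finset.sum_sub_distrib, Finset.sum_const, nsmul_eq_mul,
            hV.2]
          push_cast; ring
        rw [this, div_lt_one hkc, hD]
        constructor
        · intro h1; linarith
        · intro h1; linarith
      rw [hNL]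
      have hse : s = insert e (s.erase e) := (Finset.insert_erase hes).symm
      have hce : (s.erase e).card = n := by rw [Finset.card_erase_of_mem hes, hcard]; omega
      have hsum' : ∑ i ∈ s.erase e, h' i ≤ 3 := by
        refine le_trans (Finset.sum_le_sum_of_subset_of_nonneg (Finset.erase_subset e s) ?_) hs'
        intro i hi _; exact hn' i hi
      have hn'' : ∀ i ∈ s.erase e, 0 ≤ h' i := fun i hi => hn' i (Finset.mem_of_mem_erase hi)
      rw [hse, NL_insert (s.erase e) h' (Finset.notMem_erase e s) he0 l]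
      have i1 := ih (s.erase e) h' (l + 1) hce hn'' hsum' (by omega)
      have i2 := ih (s.erase e) h' l hce hn'' hsum' (by omega)
      have e1 : n + 1 - 3 = (n - 3) + 1 := by omega
      rw [e1, Nat.choose_succ_succ' (n - 3) l]
      omega

/-- Total dose at most 3 and `3 k < |s|`: at least `C(|s| - 3, k)` of the `k`-subsets have dose
less than 1. -/
theorem main (s : Finset ι) (h : ι → ℝ) (hn : ∀ i ∈ s, 0 ≤ h i) (hs : ∑ i ∈ s, h i ≤ 3)
    (k : ℕ) (hk : 3 * k < s.card) : (s.card - 3).choose k ≤ NL s h k :=
  main_aux s.card s h k rfl hn hs hk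

end Pool.Agent.KR3
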