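import Mathlib

/-!
Inequalities between binomial coefficients for the critical number `3 k + 1` of elements.
-/

namespace Pool.Agent.KR3

open Finset

theorem crel (p m : ℕ) :
    ((p.choose (m + 1) : ℕ) : ℝ) * ((m : ℝ) + 1) = ((p.choose m : ℕ) : ℝ) * ((p : ℝ) - m) := by
  rcases Nat.lt_or_ge p m with h | h
  · rw [Nat.choose_eq_zero_of_lt h, Nat.choose_eq_zero_of_lt (by omega)]
    simp
  · have h1 := Nat.choose_succ_right_eq p m
    have h2 : ((p.choose (m + 1) * (m + 1) : ℕ) : ℝ) = ((p.choose m * (p - m) : ℕ) : ℝ) := by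
      exact_mod_cast h1
    rw [Nat.cast_mul, Nat.cast_mul, Nat.cast_sub h] at h2
    push_cast at h2
    exact h2

theorem trel (p q k : ℕ) (hq : q = p + 1) :
    ((q.choose k : ℕ) : ℝ) * ((q : ℝ) - k) = ((p.choose k : ℕ) : ℝ) * (q : ℝ) := by
  subst hq
  rcases Nat.lt_or_ge (p + 1) k with h | h
  · rw [Nat.choose_eq_zero_of_lt h, Nat.choose_eq_zero_of_lt (by omega)]
    simp
  · have h2 := Nat.choose_mul_succ_eq p k
    have h3 : ((p.choose k * (p + 1) : ℕ) : ℝ) =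
        (((p + 1).choose k * (p + 1 - k) : ℕ) : ℝ) := by exact_mod_cast h2
    rw [Nat.cast_mul, Nat.cast_mul, Nat.cast_sub h] at h3
    linear_combination -h3

theorem poly4 (x c0 c1  T : ℝ) (hx : 0 ≤ x) (hc0 : 0 ≤ c0)
    (f0 : c0 * (x + 2) = c1 * (2 * x + 2))
    (d1 : T * (2 * x + 2) = c0 * (3 * x + 4)) :
    ∃ G : ℝ, 0 ≤ G ∧
      c0 = G * ((2 * x + 2)) ∧
      c1 = G * ((x + 2)) ∧
      T = G * ((3 * x + 4)) := by
  have hQ : (0 : ℝ) < (2 * x + 2) := by positivity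
  obtain ⟨G, hG⟩ : ∃ G : ℝ, G = c0 / ((2 * x + 2)) := ⟨_, rfl⟩
  have hG0 : 0 ≤ G := by rw [hG]; exact div_nonneg hc0 hQ.le
  have g0 : c0 = G * ((2 * x + 2)) := by rw [hG, div_mul_cancel₀ _ hQ.ne']
  have g1 : c1 = G * ((x + 2)) := by
    apply mul_right_cancel₀ (show (2 * x + 2) ≠ 0 by positivity)
    rw [← f0, g0]; ring
  have k1 : T = G * ((3 * x + 4)) := by
    apply mul_right_cancel₀ (show (2 * x + 2) ≠ 0 by positivity)
    rw [d1, g0]; ring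
  exact ⟨G, hG0, g0, g1, k1⟩

theorem cond4 (x c0 c1 T G : ℝ) (hx : 0 ≤ x) (hG : 0 ≤ G)
    (g0 : c0 = G * ((2 * x + 2)))
    (g1 : c1 = G * ((x + 2)))
    (gT : T = G * ((3 * x + 4))) :
    0 ≤ (4 / 3) * c1 ∧
    0 ≤ (1) * c0 + (4 / 3) * c1 - T := by
  refine ⟨?_, ?_⟩
  · have e : (4 / 3) * c1 = G * ((8 / 3) + (4 / 3) * x) := by
      rw [g1]; ring
    rw [e]; positivity
  · have e : (1) * c0 + (4 / 3) * c1 - T = G * ((2 / 3) + (1 / 3) * x) := by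
      rw [g0, g1, gT]; ring
    rw [e]; positivity

theorem num4 (x : ℕ) (r1 : ℝ)
    (h1 : 0 ≤ r1)
    (t111 : 1 ≤ r1 + r1 + r1) :
    (((3 * x + 4).choose (x + 2) : ℕ) : ℝ) ≤ (((3 * x + 3).choose (x + 2) : ℕ) : ℝ) +
      4 * (((3 * x + 3).choose (x + 1) : ℕ) : ℝ) * r1 := by
  have e0 := crel (3 * x + 3) (x + 1)
  push_cast at e0
  have d1 := trel (3 * x + 3) (3 * x + 4) (x + 2) rfl
  push_cast at d1
  generalize (((3 * x + 4).choose (x + 2) : ℕ) : ℝ) = T at *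
  have hc0 : (0 : ℝ) ≤ (((3 * x + 3).choose (x + 2) : ℕ) : ℝ) := Nat.cast_nonneg _
  generalize (((3 * x + 3).choose (x + 2) : ℕ) : ℝ) = c0 at *
  generalize (((3 * x + 3).choose (x + 1) : ℕ) : ℝ) = c1 at *
  have hx : (0 : ℝ) ≤ (x : ℝ) := Nat.cast_nonneg x
  generalize (x : ℝ) = y at *
  obtain ⟨G, hG, g0, g1, gT⟩ := poly4 y c0 c1  T hx hc0
    (by linear_combination e0)
    (by linear_combination d1)
  obtain ⟨y111, htot⟩ := cond4 y c0 c1 T G hx hG g0 g1 gT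
  clear g0 g1 gT
  have z111 := mul_nonneg y111 (sub_nonneg.mpr t111)
  linarith only [z111, htot]

theorem poly5 (x c0 c1 c2 q1 T : ℝ) (hx : 0 ≤ x) (hc0 : 0 ≤ c0)
    (f0 : c0 * (x + 2) = c1 * (2 * x + 1))
    (f1 : c1 * (x + 1) = c2 * (2 * x + 2))
    (d1 : q1 * (2 * x + 1) = c0 * (3 * x + 3))
    (d2 : T * (2 * x + 2) = q1 * (3 * x + 4)) :
    ∃ G : ℝ, 0 ≤ G ∧
      c0 = G * ((2 * x + 1) * (2 * x + 2)) ∧
      c1 = G * ((x + 2) * (2 * x + 2)) ∧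
      c2 = G * ((x + 2) * (x + 1)) ∧
      T = G * ((3 * x + 3) * (3 * x + 4)) := by
  have hQ : (0 : ℝ) < (2 * x + 1) * (2 * x + 2) := by positivity
  obtain ⟨G, hG⟩ : ∃ G : ℝ, G = c0 / ((2 * x + 1) * (2 * x + 2)) := ⟨_, rfl⟩
  have hG0 : 0 ≤ G := by rw [hG]; exact div_nonneg hc0 hQ.le
  have g0 : c0 = G * ((2 * x + 1) * (2 * x + 2)) := by rw [hG, div_mul_cancel₀ _ hQ.ne']
  have g1 : c1 = G * ((x + 2) * (2 * x + 2)) := by
    apply mul_right_cancel₀ (show (2 * x + 1) ≠ 0 by positivity)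
    rw [← f0, g0]; ring
  have g2 : c2 = G * ((x + 2) * (x + 1)) := by
    apply mul_right_cancel₀ (show (2 * x + 2) ≠ 0 by positivity)
    rw [← f1, g1]; ring
  have k1 : q1 = G * ((3 * x + 3) * (2 * x + 2)) := by
    apply mul_right_cancel₀ (show (2 * x + 1) ≠ 0 by positivity)
    rw [d1, g0]; ring
  have k2 : T = G * ((3 * x + 3) * (3 * x + 4)) := by
    apply mul_right_cancel₀ (show (2 * x + 2) ≠ 0 by positivity)
    rw [d2, k1]; ring
  exact ⟨G, hG0, g0, g1, g2, k2⟩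

theorem cond5 (x c0 c1 c2 T G : ℝ) (hx : 0 ≤ x) (hG : 0 ≤ G)
    (g0 : c0 = G * ((2 * x + 1) * (2 * x + 2)))
    (g1 : c1 = G * ((x + 2) * (2 * x + 2)))
    (g2 : c2 = G * ((x + 2) * (x + 1)))
    (gT : T = G * ((3 * x + 3) * (3 * x + 4))) :
    0 ≤ (5 / 2) * c1 ∧
    0 ≤ (-5 / 2) * c1 + (10) * c2 ∧
    0 ≤ (1) * c0 + (5 / 2) * c1 - T := by
  refine ⟨?_, ?_, ?_⟩
  · have e : (5 / 2) * c1 = G * (10 + 15 * x + 5 * x ^ 2) := by
      rw [g1]; ring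
    rw [e]; positivity
  · have e : (-5 / 2) * c1 + (10) * c2 = G * (10 + 15 * x + 5 * x ^ 2) := by
      rw [g1, g2]; ring
    rw [e]; positivity
  · have e : (1) * c0 + (5 / 2) * c1 - T = G * (0) := by
      rw [g0, g1, gT]; ring
    rw [e]; positivity

theorem num5 (x : ℕ) (r1 r2 : ℝ)
    (h1 : 0 ≤ r1)
    (h2 : 0 ≤ r2)
    (t112 : 1 ≤ r1 + r1 + r2) :
    (((3 * x + 4).choose (x + 2) : ℕ) : ℝ) ≤ (((3 * x + 2).choose (x + 2) : ℕ) : ℝ) +
      5 * (((3 * x + 2).choose (x + 1) : ℕ) : ℝ) * r1 +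
      10 * (((3 * x + 2).choose x : ℕ) : ℝ) * r2 := by
  have e0 := crel (3 * x + 2) (x + 1)
  push_cast at e0
  have e1 := crel (3 * x + 2) x
  push_cast at e1
  have d1 := trel (3 * x + 2) (3 * x + 3) (x + 2) rfl
  push_cast at d1
  have d2 := trel (3 * x + 3) (3 * x + 4) (x + 2) rfl
  push_cast at d2
  generalize (((3 * x + 3).choose (x + 2) : ℕ) : ℝ) = q1 at *
  generalize (((3 * x + 4).choose (x + 2) : ℕ) : ℝ) = T at *
  have hc0 : (0 : ℝ) ≤ (((3 * x + 2).choose (x + 2) : ℕ) : ℝ) := Nat.cast_nonneg _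
  generalize (((3 * x + 2).choose (x + 2) : ℕ) : ℝ) = c0 at *
  generalize (((3 * x + 2).choose (x + 1) : ℕ) : ℝ) = c1 at *
  generalize (((3 * x + 2).choose x : ℕ) : ℝ) = c2 at *
  have hx : (0 : ℝ) ≤ (x : ℝ) := Nat.cast_nonneg x
  generalize (x : ℝ) = y at *
  obtain ⟨G, hG, g0, g1, g2, gT⟩ := poly5 y c0 c1 c2 q1 T hx hc0
    (by linear_combination e0)
    (by linear_combination e1)
    (by linear_combination d1)
    (by linear_combination d2)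
  obtain ⟨y112, s2, htot⟩ := cond5 y c0 c1 c2 T G hx hG g0 g1 g2 gT
  clear g0 g1 g2 gT
  have z112 := mul_nonneg y112 (sub_nonneg.mpr t112)
  have v2 := mul_nonneg s2 h2
  linarith only [z112, v2, htot]

theorem poly6 (x c0 c1 c2 c3 q1 q2 T : ℝ) (hx : 0 ≤ x) (hc0 : 0 ≤ c0)
    (f0 : c0 * (x + 3) = c1 * (2 * x + 2))
    (f1 : c1 * (x + 2) = c2 * (2 * x + 3))
    (f2 : c2 * (x + 1) = c3 * (2 * x + 4))
    (d1 : q1 * (2 * x + 2) = c0 * (3 * x + 5))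
    (d2 : q2 * (2 * x + 3) = q1 * (3 * x + 6))
    (d3 : T * (2 * x + 4) = q2 * (3 * x + 7)) :
    ∃ G : ℝ, 0 ≤ G ∧
      c0 = G * ((2 * x + 2) * (2 * x + 3) * (2 * x + 4)) ∧
      c1 = G * ((x + 3) * (2 * x + 3) * (2 * x + 4)) ∧
      c2 = G * ((x + 3) * (x + 2) * (2 * x + 4)) ∧
      c3 = G * ((x + 3) * (x + 2) * (x + 1)) ∧
      T = G * ((3 * x + 5) * (3 * x + 6) * (3 * x + 7)) := by
  have hQ : (0 : ℝ) < (2 * x + 2) * (2 * x + 3) * (2 * x + 4) := by positivity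
  obtain ⟨G, hG⟩ : ∃ G : ℝ, G = c0 / ((2 * x + 2) * (2 * x + 3) * (2 * x + 4)) := ⟨_, rfl⟩
  have hG0 : 0 ≤ G := by rw [hG]; exact div_nonneg hc0 hQ.le
  have g0 : c0 = G * ((2 * x + 2) * (2 * x + 3) * (2 * x + 4)) := by rw [hG, div_mul_cancel₀ _ hQ.ne']
  have g1 : c1 = G * ((x + 3) * (2 * x + 3) * (2 * x + 4)) := by
    apply mul_right_cancel₀ (show (2 * x + 2) ≠ 0 by positivity)
    rw [← f0, g0]; ring
  have g2 : c2 = G * ((x + 3) * (x + 2) * (2 * x + 4)) := by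
    apply mul_right_cancel₀ (show (2 * x + 3) ≠ 0 by positivity)
    rw [← f1, g1]; ring
  have g3 : c3 = G * ((x + 3) * (x + 2) * (x + 1)) := by
    apply mul_right_cancel₀ (show (2 * x + 4) ≠ 0 by positivity)
    rw [← f2, g2]; ring
  have k1 : q1 = G * ((3 * x + 5) * (2 * x + 3) * (2 * x + 4)) := by
    apply mul_right_cancel₀ (show (2 * x + 2) ≠ 0 by positivity)
    rw [d1, g0]; ring
  have k2 : q2 = G * ((3 * x + 5) * (3 * x + 6) * (2 * x + 4)) := by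
    apply mul_right_cancel₀ (show (2 * x + 3) ≠ 0 by positivity)
    rw [d2, k1]; ring
  have k3 : T = G * ((3 * x + 5) * (3 * x + 6) * (3 * x + 7)) := by
    apply mul_right_cancel₀ (show (2 * x + 4) ≠ 0 by positivity)
    rw [d3, k2]; ring
  exact ⟨G, hG0, g0, g1, g2, g3, k3⟩

theorem cond6 (x c0 c1 c2 c3 T G : ℝ) (hx : 0 ≤ x) (hG : 0 ≤ G)
    (g0 : c0 = G * ((2 * x + 2) * (2 * x + 3) * (2 * x + 4)))
    (g1 : c1 = G * ((x + 3) * (2 * x + 3) * (2 * x + 4)))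
    (g2 : c2 = G * ((x + 3) * (x + 2) * (2 * x + 4)))
    (g3 : c3 = G * ((x + 3) * (x + 2) * (x + 1)))
    (gT : T = G * ((3 * x + 5) * (3 * x + 6) * (3 * x + 7))) :
    0 ≤ (3) * c1 + (-15 / 4) * c2 ∧
    0 ≤ (15 / 2) * c2 ∧
    0 ≤ (-3) * c1 + (15 / 4) * c2 + (20) * c3 ∧
    0 ≤ (1) * c0 + (3) * c1 + (15 / 4) * c2 - T := by
  refine ⟨?_, ?_, ?_, ?_⟩
  · have e : (3) * c1 + (-15 / 4) * c2 = G * (18 + 42 * x + (51 / 2) * x ^ 2 + (9 / 2) * x ^ 3) := by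
      rw [g1, g2]; ring
    rw [e]; positivity
  · have e : (15 / 2) * c2 = G * (180 + 240 * x + 105 * x ^ 2 + 15 * x ^ 3) := by
      rw [g2]; ring
    rw [e]; positivity
  · have e : (-3) * c1 + (15 / 4) * c2 + (20) * c3 = G * (102 + 178 * x + (189 / 2) * x ^ 2 + (31 / 2) * x ^ 3) := by
      rw [g1, g2, g3]; ring
    rw [e]; positivity
  · have e : (1) * c0 + (3) * c1 + (15 / 4) * c2 - T = G * (12 + 13 * x + (9 / 2) * x ^ 2 + (1 / 2) * x ^ 3) := by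
      rw [g0, g1, g2, gT]; ring
    rw [e]; positivity

theorem num6 (x : ℕ) (r1 r2 r3 : ℝ)
    (h1 : 0 ≤ r1)
    (h2 : 0 ≤ r2)
    (h3 : 0 ≤ r3)
    (t113 : 1 ≤ r1 + r1 + r3)
    (t122 : 1 ≤ r1 + r2 + r2) :
    (((3 * x + 7).choose (x + 3) : ℕ) : ℝ) ≤ (((3 * x + 4).choose (x + 3) : ℕ) : ℝ) +
      6 * (((3 * x + 4).choose (x + 2) : ℕ) : ℝ) * r1 +
      15 * (((3 * x + 4).choose (x + 1) : ℕ) : ℝ) * r2 +
      20 * (((3 * x + 4).choose x : ℕ) : ℝ) * r3 := by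
  have e0 := crel (3 * x + 4) (x + 2)
  push_cast at e0
  have e1 := crel (3 * x + 4) (x + 1)
  push_cast at e1
  have e2 := crel (3 * x + 4) x
  push_cast at e2
  have d1 := trel (3 * x + 4) (3 * x + 5) (x + 3) rfl
  push_cast at d1
  have d2 := trel (3 * x + 5) (3 * x + 6) (x + 3) rfl
  push_cast at d2
  have d3 := trel (3 * x + 6) (3 * x + 7) (x + 3) rfl
  push_cast at d3
  generalize (((3 * x + 5).choose (x + 3) : ℕ) : ℝ) = q1 at *
  generalize (((3 * x + 6).choose (x + 3) : ℕ) : ℝ) = q2 at *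
  generalize (((3 * x + 7).choose (x + 3) : ℕ) : ℝ) = T at *
  have hc0 : (0 : ℝ) ≤ (((3 * x + 4).choose (x + 3) : ℕ) : ℝ) := Nat.cast_nonneg _
  generalize (((3 * x + 4).choose (x + 3) : ℕ) : ℝ) = c0 at *
  generalize (((3 * x + 4).choose (x + 2) : ℕ) : ℝ) = c1 at *
  generalize (((3 * x + 4).choose (x + 1) : ℕ) : ℝ) = c2 at *
  generalize (((3 * x + 4).choose x : ℕ) : ℝ) = c3 at *
  have hx : (0 : ℝ) ≤ (x : ℝ) := Nat.cast_nonneg x
  generalize (x : ℝ) = y at *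
  obtain ⟨G, hG, g0, g1, g2, g3, gT⟩ := poly6 y c0 c1 c2 c3 q1 q2 T hx hc0
    (by linear_combination e0)
    (by linear_combination e1)
    (by linear_combination e2)
    (by linear_combination d1)
    (by linear_combination d2)
    (by linear_combination d3)
  obtain ⟨y113, y122, s3, htot⟩ := cond6 y c0 c1 c2 c3 T G hx hG g0 g1 g2 g3 gT
  clear g0 g1 g2 g3 gT
  have z113 := mul_nonneg y113 (sub_nonneg.mpr t113)
  have z122 := mul_nonneg y122 (sub_nonneg.mpr t122)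
  have v3 := mul_nonneg s3 h3
  linarith only [z113, z122, v3, htot]

theorem poly7 (x c0 c1 c2 c3 q1 q2 q3 T : ℝ) (hx : 0 ≤ x) (hc0 : 0 ≤ c0)
    (f0 : c0 * (x + 4) = c1 * (2 * x + 3))
    (f1 : c1 * (x + 3) = c2 * (2 * x + 4))
    (f2 : c2 * (x + 2) = c3 * (2 * x + 5))
    (d1 : q1 * (2 * x + 3) = c0 * (3 * x + 7))
    (d2 : q2 * (2 * x + 4) = q1 * (3 * x + 8))
    (d3 : q3 * (2 * x + 5) = q2 * (3 * x + 9))
    (d4 : T * (2 * x + 6) = q3 * (3 * x + 10)) :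
    ∃ G : ℝ, 0 ≤ G ∧
      c0 = G * ((2 * x + 3) * (2 * x + 4) * (2 * x + 5) * (2 * x + 6)) ∧
      c1 = G * ((x + 4) * (2 * x + 4) * (2 * x + 5) * (2 * x + 6)) ∧
      c2 = G * ((x + 4) * (x + 3) * (2 * x + 5) * (2 * x + 6)) ∧
      c3 = G * ((x + 4) * (x + 3) * (x + 2) * (2 * x + 6)) ∧
      T = G * ((3 * x + 7) * (3 * x + 8) * (3 * x + 9) * (3 * x + 10)) := by
  have hQ : (0 : ℝ) < (2 * x + 3) * (2 * x + 4) * (2 * x + 5) * (2 * x + 6) := by positivity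
  obtain ⟨G, hG⟩ : ∃ G : ℝ, G = c0 / ((2 * x + 3) * (2 * x + 4) * (2 * x + 5) * (2 * x + 6)) := ⟨_, rfl⟩
  have hG0 : 0 ≤ G := by rw [hG]; exact div_nonneg hc0 hQ.le
  have g0 : c0 = G * ((2 * x + 3) * (2 * x + 4) * (2 * x + 5) * (2 * x + 6)) := by rw [hG, div_mul_cancel₀ _ hQ.ne']
  have g1 : c1 = G * ((x + 4) * (2 * x + 4) * (2 * x + 5) * (2 * x + 6)) := by
    apply mul_right_cancel₀ (show (2 * x + 3) ≠ 0 by positivity)
    rw [← f0, g0]; ring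
  have g2 : c2 = G * ((x + 4) * (x + 3) * (2 * x + 5) * (2 * x + 6)) := by
    apply mul_right_cancel₀ (show (2 * x + 4) ≠ 0 by positivity)
    rw [← f1, g1]; ring
  have g3 : c3 = G * ((x + 4) * (x + 3) * (x + 2) * (2 * x + 6)) := by
    apply mul_right_cancel₀ (show (2 * x + 5) ≠ 0 by positivity)
    rw [← f2, g2]; ring
  have k1 : q1 = G * ((3 * x + 7) * (2 * x + 4) * (2 * x + 5) * (2 * x + 6)) := by
    apply mul_right_cancel₀ (show (2 * x + 3) ≠ 0 by positivity)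
    rw [d1, g0]; ring
  have k2 : q2 = G * ((3 * x + 7) * (3 * x + 8) * (2 * x + 5) * (2 * x + 6)) := by
    apply mul_right_cancel₀ (show (2 * x + 4) ≠ 0 by positivity)
    rw [d2, k1]; ring
  have k3 : q3 = G * ((3 * x + 7) * (3 * x + 8) * (3 * x + 9) * (2 * x + 6)) := by
    apply mul_right_cancel₀ (show (2 * x + 5) ≠ 0 by positivity)
    rw [d3, k2]; ring
  have k4 : T = G * ((3 * x + 7) * (3 * x + 8) * (3 * x + 9) * (3 * x + 10)) := by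
    apply mul_right_cancel₀ (show (2 * x + 6) ≠ 0 by positivity)
    rw [d4, k3]; ring
  exact ⟨G, hG0, g0, g1, g2, g3, k4⟩

theorem cond7 (x c0 c1 c2 c3 T G : ℝ) (hx : 0 ≤ x) (hG : 0 ≤ G)
    (g0 : c0 = G * ((2 * x + 3) * (2 * x + 4) * (2 * x + 5) * (2 * x + 6)))
    (g1 : c1 = G * ((x + 4) * (2 * x + 4) * (2 * x + 5) * (2 * x + 6)))
    (g2 : c2 = G * ((x + 4) * (x + 3) * (2 * x + 5) * (2 * x + 6)))
    (g3 : c3 = G * ((x + 4) * (x + 3) * (x + 2) * (2 * x + 6)))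
    (gT : T = G * ((3 * x + 7) * (3 * x + 8) * (3 * x + 9) * (3 * x + 10))) :
    0 ≤ (7) * c1 ∧
    0 ≤ (-7 / 3) * c1 + (7) * c2 ∧
    0 ≤ (-7) * c1 + (35) * c3 ∧
    0 ≤ (1) * c0 + (14 / 3) * c1 + (7) * c2 - T := by
  refine ⟨?_, ?_, ?_, ?_⟩
  · have e : (7) * c1 = G * (3360 + 4984 * x + 2716 * x ^ 2 + 644 * x ^ 3 + 56 * x ^ 4) := by
      rw [g1]; ring
    rw [e]; positivity
  · have e : (-7 / 3) * c1 + (7) * c2 = G * (1400 + (4970 / 3) * x + (2156 / 3) * x ^ 2 + (406 / 3) * x ^ 3 + (28 / 3) * x ^ 4) := by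
      rw [g1, g2]; ring
    rw [e]; positivity
  · have e : (-7) * c1 + (35) * c3 = G * (1680 + 2156 * x + 994 * x ^ 2 + 196 * x ^ 3 + 14 * x ^ 4) := by
      rw [g1, g3]; ring
    rw [e]; positivity
  · have e : (1) * c0 + (14 / 3) * c1 + (7) * c2 - T = G * (80 + (248 / 3) * x + (95 / 3) * x ^ 2 + (16 / 3) * x ^ 3 + (1 / 3) * x ^ 4) := by
      rw [g0, g1, g2, gT]; ring
    rw [e]; positivity

theorem num7 (x : ℕ) (r1 r2 r3 : ℝ)
    (h1 : 0 ≤ r1)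
    (h2 : 0 ≤ r2)
    (h3 : 0 ≤ r3)
    (t123 : 1 ≤ r1 + r2 + r3)
    (t222 : 1 ≤ r2 + r2 + r2) :
    (((3 * x + 10).choose (x + 4) : ℕ) : ℝ) ≤ (((3 * x + 6).choose (x + 4) : ℕ) : ℝ) +
      7 * (((3 * x + 6).choose (x + 3) : ℕ) : ℝ) * r1 +
      21 * (((3 * x + 6).choose (x + 2) : ℕ) : ℝ) * r2 +
      35 * (((3 * x + 6).choose (x + 1) : ℕ) : ℝ) * r3 := by
  have e0 := crel (3 * x + 6) (x + 3)
  push_cast at e0
  have e1 := crel (3 * x + 6) (x + 2)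
  push_cast at e1
  have e2 := crel (3 * x + 6) (x + 1)
  push_cast at e2
  have d1 := trel (3 * x + 6) (3 * x + 7) (x + 4) rfl
  push_cast at d1
  have d2 := trel (3 * x + 7) (3 * x + 8) (x + 4) rfl
  push_cast at d2
  have d3 := trel (3 * x + 8) (3 * x + 9) (x + 4) rfl
  push_cast at d3
  have d4 := trel (3 * x + 9) (3 * x + 10) (x + 4) rfl
  push_cast at d4
  generalize (((3 * x + 7).choose (x + 4) : ℕ) : ℝ) = q1 at *
  generalize (((3 * x + 8).choose (x + 4) : ℕ) : ℝ) = q2 at *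
  generalize (((3 * x + 9).choose (x + 4) : ℕ) : ℝ) = q3 at *
  generalize (((3 * x + 10).choose (x + 4) : ℕ) : ℝ) = T at *
  have hc0 : (0 : ℝ) ≤ (((3 * x + 6).choose (x + 4) : ℕ) : ℝ) := Nat.cast_nonneg _
  generalize (((3 * x + 6).choose (x + 4) : ℕ) : ℝ) = c0 at *
  generalize (((3 * x + 6).choose (x + 3) : ℕ) : ℝ) = c1 at *
  generalize (((3 * x + 6).choose (x + 2) : ℕ) : ℝ) = c2 at *
  generalize (((3 * x + 6).choose (x + 1) : ℕ) : ℝ) = c3 at *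
  have hx : (0 : ℝ) ≤ (x : ℝ) := Nat.cast_nonneg x
  generalize (x : ℝ) = y at *
  obtain ⟨G, hG, g0, g1, g2, g3, gT⟩ := poly7 y c0 c1 c2 c3 q1 q2 q3 T hx hc0
    (by linear_combination e0)
    (by linear_combination e1)
    (by linear_combination e2)
    (by linear_combination d1)
    (by linear_combination d2)
    (by linear_combination d3)
    (by linear_combination d4)
  obtain ⟨y123, y222, s3, htot⟩ := cond7 y c0 c1 c2 c3 T G hx hG g0 g1 g2 g3 gT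
  clear g0 g1 g2 g3 gT
  have z123 := mul_nonneg y123 (sub_nonneg.mpr t123)
  have z222 := mul_nonneg y222 (sub_nonneg.mpr t222)
  have v3 := mul_nonneg s3 h3
  linarith only [z123, z222, v3, htot]

end Pool.Agent.KR3
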