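import Pool.Agent.KR3.NumB

/-!
Inequalities between binomial coefficients, continued.
-/

namespace Pool.Agent.KR3

open Finset

theorem poly9 (x c0 c1 c2 c3 c4 q1 q2 q3 q4 q5 T : ℝ) (hx : 0 ≤ x) (hc0 : 0 ≤ c0)
    (f0 : c0 * (x + 5) = c1 * (2 * x + 3))
    (f1 : c1 * (x + 4) = c2 * (2 * x + 4))
    (f2 : c2 * (x + 3) = c3 * (2 * x + 5))
    (f3 : c3 * (x + 2) = c4 * (2 * x + 6))
    (d1 : q1 * (2 * x + 3) = c0 * (3 * x + 8))
    (d2 : q2 * (2 * x + 4) = q1 * (3 * x + 9))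
    (d3 : q3 * (2 * x + 5) = q2 * (3 * x + 10))
    (d4 : q4 * (2 * x + 6) = q3 * (3 * x + 11))
    (d5 : q5 * (2 * x + 7) = q4 * (3 * x + 12))
    (d6 : T * (2 * x + 8) = q5 * (3 * x + 13)) :
    ∃ G : ℝ, 0 ≤ G ∧
      c0 = G * ((2 * x + 3) * (2 * x + 4) * (2 * x + 5) * (2 * x + 6) * (2 * x + 7) * (2 * x + 8)) ∧
      c1 = G * ((x + 5) * (2 * x + 4) * (2 * x + 5) * (2 * x + 6) * (2 * x + 7) * (2 * x + 8)) ∧
      c2 = G * ((x + 5) * (x + 4) * (2 * x + 5) * (2 * x + 6) * (2 * x + 7) * (2 * x + 8)) ∧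
      c3 = G * ((x + 5) * (x + 4) * (x + 3) * (2 * x + 6) * (2 * x + 7) * (2 * x + 8)) ∧
      c4 = G * ((x + 5) * (x + 4) * (x + 3) * (x + 2) * (2 * x + 7) * (2 * x + 8)) ∧
      T = G * ((3 * x + 8) * (3 * x + 9) * (3 * x + 10) * (3 * x + 11) * (3 * x + 12) * (3 * x + 13)) := by
  have hQ : (0 : ℝ) < (2 * x + 3) * (2 * x + 4) * (2 * x + 5) * (2 * x + 6) * (2 * x + 7) * (2 * x + 8) := by positivity
  obtain ⟨G, hG⟩ : ∃ G : ℝ, G = c0 / ((2 * x + 3) * (2 * x + 4) * (2 * x + 5) * (2 * x + 6) * (2 * x + 7) * (2 * x + 8)) := ⟨_, rfl⟩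
  have hG0 : 0 ≤ G := by rw [hG]; exact div_nonneg hc0 hQ.le
  have g0 : c0 = G * ((2 * x + 3) * (2 * x + 4) * (2 * x + 5) * (2 * x + 6) * (2 * x + 7) * (2 * x + 8)) := by rw [hG, div_mul_cancel₀ _ hQ.ne']
  have g1 : c1 = G * ((x + 5) * (2 * x + 4) * (2 * x + 5) * (2 * x + 6) * (2 * x + 7) * (2 * x + 8)) := by
    apply mul_right_cancel₀ (show (2 * x + 3) ≠ 0 by positivity)
    rw [← f0, g0]; ring
  have g2 : c2 = G * ((x + 5) * (x + 4) * (2 * x + 5) * (2 * x + 6) * (2 * x + 7) * (2 * x + 8)) := by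
    apply mul_right_cancel₀ (show (2 * x + 4) ≠ 0 by positivity)
    rw [← f1, g1]; ring
  have g3 : c3 = G * ((x + 5) * (x + 4) * (x + 3) * (2 * x + 6) * (2 * x + 7) * (2 * x + 8)) := by
    apply mul_right_cancel₀ (show (2 * x + 5) ≠ 0 by positivity)
    rw [← f2, g2]; ring
  have g4 : c4 = G * ((x + 5) * (x + 4) * (x + 3) * (x + 2) * (2 * x + 7) * (2 * x + 8)) := by
    apply mul_right_cancel₀ (show (2 * x + 6) ≠ 0 by positivity)
    rw [← f3, g3]; ring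
  have k1 : q1 = G * ((3 * x + 8) * (2 * x + 4) * (2 * x + 5) * (2 * x + 6) * (2 * x + 7) * (2 * x + 8)) := by
    apply mul_right_cancel₀ (show (2 * x + 3) ≠ 0 by positivity)
    rw [d1, g0]; ring
  have k2 : q2 = G * ((3 * x + 8) * (3 * x + 9) * (2 * x + 5) * (2 * x + 6) * (2 * x + 7) * (2 * x + 8)) := by
    apply mul_right_cancel₀ (show (2 * x + 4) ≠ 0 by positivity)
    rw [d2, k1]; ring
  have k3 : q3 = G * ((3 * x + 8) * (3 * x + 9) * (3 * x + 10) * (2 * x + 6) * (2 * x + 7) * (2 * x + 8)) := by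
    apply mul_right_cancel₀ (show (2 * x + 5) ≠ 0 by positivity)
    rw [d3, k2]; ring
  have k4 : q4 = G * ((3 * x + 8) * (3 * x + 9) * (3 * x + 10) * (3 * x + 11) * (2 * x + 7) * (2 * x + 8)) := by
    apply mul_right_cancel₀ (show (2 * x + 6) ≠ 0 by positivity)
    rw [d4, k3]; ring
  have k5 : q5 = G * ((3 * x + 8) * (3 * x + 9) * (3 * x + 10) * (3 * x + 11) * (3 * x + 12) * (2 * x + 8)) := by
    apply mul_right_cancel₀ (show (2 * x + 7) ≠ 0 by positivity)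
    rw [d5, k4]; ring
  have k6 : T = G * ((3 * x + 8) * (3 * x + 9) * (3 * x + 10) * (3 * x + 11) * (3 * x + 12) * (3 * x + 13)) := by
    apply mul_right_cancel₀ (show (2 * x + 8) ≠ 0 by positivity)
    rw [d6, k5]; ring
  exact ⟨G, hG0, g0, g1, g2, g3, g4, k6⟩

theorem cond9 (x c0 c1 c2 c3 c4 T G : ℝ) (hx : 0 ≤ x) (hG : 0 ≤ G)
    (g0 : c0 = G * ((2 * x + 3) * (2 * x + 4) * (2 * x + 5) * (2 * x + 6) * (2 * x + 7) * (2 * x + 8)))
    (g1 : c1 = G * ((x + 5) * (2 * x + 4) * (2 * x + 5) * (2 * x + 6) * (2 * x + 7) * (2 * x + 8)))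
    (g2 : c2 = G * ((x + 5) * (x + 4) * (2 * x + 5) * (2 * x + 6) * (2 * x + 7) * (2 * x + 8)))
    (g3 : c3 = G * ((x + 5) * (x + 4) * (x + 3) * (2 * x + 6) * (2 * x + 7) * (2 * x + 8)))
    (g4 : c4 = G * ((x + 5) * (x + 4) * (x + 3) * (x + 2) * (2 * x + 7) * (2 * x + 8)))
    (gT : T = G * ((3 * x + 8) * (3 * x + 9) * (3 * x + 10) * (3 * x + 11) * (3 * x + 12) * (3 * x + 13))) :
    0 ≤ (9) * c1 ∧
    0 ≤ (-9 / 2) * c1 + (42) * c3 ∧
    0 ≤ (9 / 4) * c1 + (18) * c2 + (-21) * c3 ∧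
    0 ≤ (-45 / 4) * c1 + (-18) * c2 + (21) * c3 + (126) * c4 ∧
    0 ≤ (1) * c0 + (27 / 4) * c1 + (18) * c2 + (21) * c3 - T := by
  refine ⟨?_, ?_, ?_, ?_, ?_⟩
  · have e : (9) * c1 = G * (302400 + 595440 * x + 479592 * x ^ 2 + 202320 * x ^ 3 + 47160 * x ^ 4 + 5760 * x ^ 5 + 288 * x ^ 6) := by
      rw [g1]; ring
    rw [e]; positivity
  · have e : (-9 / 2) * c1 + (42) * c3 = G * (695520 + 1101384 * x + 717636 * x ^ 2 + 246096 * x ^ 3 + 46812 * x ^ 4 + 4680 * x ^ 5 + 192 * x ^ 6) := by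
      rw [g1, g3]; ring
    rw [e]; positivity
  · have e : (9 / 4) * c1 + (18) * c2 + (-21) * c3 = G * (257040 + 488988 * x + 378246 * x ^ 2 + 152856 * x ^ 3 + 34122 * x ^ 4 + 3996 * x ^ 5 + 192 * x ^ 6) := by
      rw [g1, g2, g3]; ring
    rw [e]; positivity
  · have e : (-45 / 4) * c1 + (-18) * c2 + (21) * c3 + (126) * c4 = G * (287280 + 455796 * x + 285738 * x ^ 2 + 89604 * x ^ 3 + 14478 * x ^ 4 + 1080 * x ^ 5 + 24 * x ^ 6) := by
      rw [g1, g2, g3, g4]; ring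
    rw [e]; positivity
  · have e : (1) * c0 + (27 / 4) * c1 + (18) * c2 + (21) * c3 - T = G * (39600 + 58140 * x + 35104 * x ^ 2 + 11157 * x ^ 3 + 1969 * x ^ 4 + 183 * x ^ 5 + 7 * x ^ 6) := by
      rw [g0, g1, g2, g3, gT]; ring
    rw [e]; positivity

theorem num9 (x : ℕ) (r1 r2 r3 r4 : ℝ)
    (h1 : 0 ≤ r1)
    (h2 : 0 ≤ r2)
    (h3 : 0 ≤ r3)
    (h4 : 0 ≤ r4)
    (t134 : 1 ≤ r1 + r3 + r4)
    (t233 : 1 ≤ r2 + r3 + r3)
    (t224 : 1 ≤ r2 + r2 + r4) :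
    (((3 * x + 13).choose (x + 5) : ℕ) : ℝ) ≤ (((3 * x + 7).choose (x + 5) : ℕ) : ℝ) +
      9 * (((3 * x + 7).choose (x + 4) : ℕ) : ℝ) * r1 +
      36 * (((3 * x + 7).choose (x + 3) : ℕ) : ℝ) * r2 +
      84 * (((3 * x + 7).choose (x + 2) : ℕ) : ℝ) * r3 +
      126 * (((3 * x + 7).choose (x + 1) : ℕ) : ℝ) * r4 := by
  have e0 := crel (3 * x + 7) (x + 4)
  push_cast at e0
  have e1 := crel (3 * x + 7) (x + 3)
  push_cast at e1
  have e2 := crel (3 * x + 7) (x + 2)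
  push_cast at e2
  have e3 := crel (3 * x + 7) (x + 1)
  push_cast at e3
  have d1 := trel (3 * x + 7) (3 * x + 8) (x + 5) rfl
  push_cast at d1
  have d2 := trel (3 * x + 8) (3 * x + 9) (x + 5) rfl
  push_cast at d2
  have d3 := trel (3 * x + 9) (3 * x + 10) (x + 5) rfl
  push_cast at d3
  have d4 := trel (3 * x + 10) (3 * x + 11) (x + 5) rfl
  push_cast at d4
  have d5 := trel (3 * x + 11) (3 * x + 12) (x + 5) rfl
  push_cast at d5
  have d6 := trel (3 * x + 12) (3 * x + 13) (x + 5) rfl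
  push_cast at d6
  generalize (((3 * x + 8).choose (x + 5) : ℕ) : ℝ) = q1 at *
  generalize (((3 * x + 9).choose (x + 5) : ℕ) : ℝ) = q2 at *
  generalize (((3 * x + 10).choose (x + 5) : ℕ) : ℝ) = q3 at *
  generalize (((3 * x + 11).choose (x + 5) : ℕ) : ℝ) = q4 at *
  generalize (((3 * x + 12).choose (x + 5) : ℕ) : ℝ) = q5 at *
  generalize (((3 * x + 13).choose (x + 5) : ℕ) : ℝ) = T at *
  have hc0 : (0 : ℝ) ≤ (((3 * x + 7).choose (x + 5) : ℕ) : ℝ) := Nat.cast_nonneg _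
  generalize (((3 * x + 7).choose (x + 5) : ℕ) : ℝ) = c0 at *
  generalize (((3 * x + 7).choose (x + 4) : ℕ) : ℝ) = c1 at *
  generalize (((3 * x + 7).choose (x + 3) : ℕ) : ℝ) = c2 at *
  generalize (((3 * x + 7).choose (x + 2) : ℕ) : ℝ) = c3 at *
  generalize (((3 * x + 7).choose (x + 1) : ℕ) : ℝ) = c4 at *
  have hx : (0 : ℝ) ≤ (x : ℝ) := Nat.cast_nonneg x
  generalize (x : ℝ) = y at *
  obtain ⟨G, hG, g0, g1, g2, g3, g4, gT⟩ := poly9 y c0 c1 c2 c3 c4 q1 q2 q3 q4 q5 T hx hc0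
    (by linear_combination e0)
    (by linear_combination e1)
    (by linear_combination e2)
    (by linear_combination e3)
    (by linear_combination d1)
    (by linear_combination d2)
    (by linear_combination d3)
    (by linear_combination d4)
    (by linear_combination d5)
    (by linear_combination d6)
  obtain ⟨y134, y233, y224, s4, htot⟩ := cond9 y c0 c1 c2 c3 c4 T G hx hG g0 g1 g2 g3 g4 gT
  clear g0 g1 g2 g3 g4 gT
  have z134 := mul_nonneg y134 (sub_nonneg.mpr t134)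
  have z233 := mul_nonneg y233 (sub_nonneg.mpr t233)
  have z224 := mul_nonneg y224 (sub_nonneg.mpr t224)
  have v4 := mul_nonneg s4 h4
  linarith only [z134, z233, z224, v4, htot]

end Pool.Agent.KR3
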