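import Pool.Agent.KR3.NumB

/-!
Inequalities between binomial coefficients, continued.
-/

namespace Pool.Agent.KR3

open Finset

theorem poly10 (x c0 c1 c2 c3 c4 c5 q1 q2 q3 q4 q5 q6 T : ℝ) (hx : 0 ≤ x) (hc0 : 0 ≤ c0)
    (f0 : c0 * (x + 6) = c1 * (2 * x + 4))
    (f1 : c1 * (x + 5) = c2 * (2 * x + 5))
    (f2 : c2 * (x + 4) = c3 * (2 * x + 6))
    (f3 : c3 * (x + 3) = c4 * (2 * x + 7))
    (f4 : c4 * (x + 2) = c5 * (2 * x + 8))
    (d1 : q1 * (2 * x + 4) = c0 * (3 * x + 10))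
    (d2 : q2 * (2 * x + 5) = q1 * (3 * x + 11))
    (d3 : q3 * (2 * x + 6) = q2 * (3 * x + 12))
    (d4 : q4 * (2 * x + 7) = q3 * (3 * x + 13))
    (d5 : q5 * (2 * x + 8) = q4 * (3 * x + 14))
    (d6 : q6 * (2 * x + 9) = q5 * (3 * x + 15))
    (d7 : T * (2 * x + 10) = q6 * (3 * x + 16)) :
    ∃ G : ℝ, 0 ≤ G ∧
      c0 = G * ((2 * x + 4) * (2 * x + 5) * (2 * x + 6) * (2 * x + 7) * (2 * x + 8) * (2 * x + 9) * (2 * x + 10)) ∧
      c1 = G * ((x + 6) * (2 * x + 5) * (2 * x + 6) * (2 * x + 7) * (2 * x + 8) * (2 * x + 9) * (2 * x + 10)) ∧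
      c2 = G * ((x + 6) * (x + 5) * (2 * x + 6) * (2 * x + 7) * (2 * x + 8) * (2 * x + 9) * (2 * x + 10)) ∧
      c3 = G * ((x + 6) * (x + 5) * (x + 4) * (2 * x + 7) * (2 * x + 8) * (2 * x + 9) * (2 * x + 10)) ∧
      c4 = G * ((x + 6) * (x + 5) * (x + 4) * (x + 3) * (2 * x + 8) * (2 * x + 9) * (2 * x + 10)) ∧
      c5 = G * ((x + 6) * (x + 5) * (x + 4) * (x + 3) * (x + 2) * (2 * x + 9) * (2 * x + 10)) ∧
      T = G * ((3 * x + 10) * (3 * x + 11) * (3 * x + 12) * (3 * x + 13) * (3 * x + 14) * (3 * x + 15) * (3 * x + 16)) := by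
  have hQ : (0 : ℝ) < (2 * x + 4) * (2 * x + 5) * (2 * x + 6) * (2 * x + 7) * (2 * x + 8) * (2 * x + 9) * (2 * x + 10) := by positivity
  obtain ⟨G, hG⟩ : ∃ G : ℝ, G = c0 / ((2 * x + 4) * (2 * x + 5) * (2 * x + 6) * (2 * x + 7) * (2 * x + 8) * (2 * x + 9) * (2 * x + 10)) := ⟨_, rfl⟩
  have hG0 : 0 ≤ G := by rw [hG]; exact div_nonneg hc0 hQ.le
  have g0 : c0 = G * ((2 * x + 4) * (2 * x + 5) * (2 * x + 6) * (2 * x + 7) * (2 * x + 8) * (2 * x + 9) * (2 * x + 10)) := by rw [hG, div_mul_cancel₀ _ hQ.ne']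
  have g1 : c1 = G * ((x + 6) * (2 * x + 5) * (2 * x + 6) * (2 * x + 7) * (2 * x + 8) * (2 * x + 9) * (2 * x + 10)) := by
    apply mul_right_cancel₀ (show (2 * x + 4) ≠ 0 by positivity)
    rw [← f0, g0]; ring
  have g2 : c2 = G * ((x + 6) * (x + 5) * (2 * x + 6) * (2 * x + 7) * (2 * x + 8) * (2 * x + 9) * (2 * x + 10)) := by
    apply mul_right_cancel₀ (show (2 * x + 5) ≠ 0 by positivity)
    rw [← f1, g1]; ring
  have g3 : c3 = G * ((x + 6) * (x + 5) * (x + 4) * (2 * x + 7) * (2 * x + 8) * (2 * x + 9) * (2 * x + 10)) := by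
    apply mul_right_cancel₀ (show (2 * x + 6) ≠ 0 by positivity)
    rw [← f2, g2]; ring
  have g4 : c4 = G * ((x + 6) * (x + 5) * (x + 4) * (x + 3) * (2 * x + 8) * (2 * x + 9) * (2 * x + 10)) := by
    apply mul_right_cancel₀ (show (2 * x + 7) ≠ 0 by positivity)
    rw [← f3, g3]; ring
  have g5 : c5 = G * ((x + 6) * (x + 5) * (x + 4) * (x + 3) * (x + 2) * (2 * x + 9) * (2 * x + 10)) := by
    apply mul_right_cancel₀ (show (2 * x + 8) ≠ 0 by positivity)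
    rw [← f4, g4]; ring
  have k1 : q1 = G * ((3 * x + 10) * (2 * x + 5) * (2 * x + 6) * (2 * x + 7) * (2 * x + 8) * (2 * x + 9) * (2 * x + 10)) := by
    apply mul_right_cancel₀ (show (2 * x + 4) ≠ 0 by positivity)
    rw [d1, g0]; ring
  have k2 : q2 = G * ((3 * x + 10) * (3 * x + 11) * (2 * x + 6) * (2 * x + 7) * (2 * x + 8) * (2 * x + 9) * (2 * x + 10)) := by
    apply mul_right_cancel₀ (show (2 * x + 5) ≠ 0 by positivity)
    rw [d2, k1]; ring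
  have k3 : q3 = G * ((3 * x + 10) * (3 * x + 11) * (3 * x + 12) * (2 * x + 7) * (2 * x + 8) * (2 * x + 9) * (2 * x + 10)) := by
    apply mul_right_cancel₀ (show (2 * x + 6) ≠ 0 by positivity)
    rw [d3, k2]; ring
  have k4 : q4 = G * ((3 * x + 10) * (3 * x + 11) * (3 * x + 12) * (3 * x + 13) * (2 * x + 8) * (2 * x + 9) * (2 * x + 10)) := by
    apply mul_right_cancel₀ (show (2 * x + 7) ≠ 0 by positivity)
    rw [d4, k3]; ring
  have k5 : q5 = G * ((3 * x + 10) * (3 * x + 11) * (3 * x + 12) * (3 * x + 13) * (3 * x + 14) * (2 * x + 9) * (2 * x + 10)) := by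
    apply mul_right_cancel₀ (show (2 * x + 8) ≠ 0 by positivity)
    rw [d5, k4]; ring
  have k6 : q6 = G * ((3 * x + 10) * (3 * x + 11) * (3 * x + 12) * (3 * x + 13) * (3 * x + 14) * (3 * x + 15) * (2 * x + 10)) := by
    apply mul_right_cancel₀ (show (2 * x + 9) ≠ 0 by positivity)
    rw [d6, k5]; ring
  have k7 : T = G * ((3 * x + 10) * (3 * x + 11) * (3 * x + 12) * (3 * x + 13) * (3 * x + 14) * (3 * x + 15) * (3 * x + 16)) := by
    apply mul_right_cancel₀ (show (2 * x + 10) ≠ 0 by positivity)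
    rw [d7, k6]; ring
  exact ⟨G, hG0, g0, g1, g2, g3, g4, g5, k7⟩

theorem cond10 (x c0 c1 c2 c3 c4 c5 T G : ℝ) (hx : 0 ≤ x) (hG : 0 ≤ G)
    (g0 : c0 = G * ((2 * x + 4) * (2 * x + 5) * (2 * x + 6) * (2 * x + 7) * (2 * x + 8) * (2 * x + 9) * (2 * x + 10)))
    (g1 : c1 = G * ((x + 6) * (2 * x + 5) * (2 * x + 6) * (2 * x + 7) * (2 * x + 8) * (2 * x + 9) * (2 * x + 10)))
    (g2 : c2 = G * ((x + 6) * (x + 5) * (2 * x + 6) * (2 * x + 7) * (2 * x + 8) * (2 * x + 9) * (2 * x + 10)))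
    (g3 : c3 = G * ((x + 6) * (x + 5) * (x + 4) * (2 * x + 7) * (2 * x + 8) * (2 * x + 9) * (2 * x + 10)))
    (g4 : c4 = G * ((x + 6) * (x + 5) * (x + 4) * (x + 3) * (2 * x + 8) * (2 * x + 9) * (2 * x + 10)))
    (g5 : c5 = G * ((x + 6) * (x + 5) * (x + 4) * (x + 3) * (x + 2) * (2 * x + 9) * (2 * x + 10)))
    (gT : T = G * ((3 * x + 10) * (3 * x + 11) * (3 * x + 12) * (3 * x + 13) * (3 * x + 14) * (3 * x + 15) * (3 * x + 16))) :
    0 ≤ (10) * c1 + (108 / 5) * c2 + (-105) * c4 ∧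
    0 ≤ (-108 / 5) * c2 + (105) * c4 ∧
    0 ≤ (9 / 10) * c2 ∧
    0 ≤ (216 / 5) * c2 ∧
    0 ≤ (-10 / 3) * c1 + (-108 / 5) * c2 + (40) * c3 + (35) * c4 ∧
    0 ≤ (-10) * c1 + (-45 / 2) * c2 + (105) * c4 + (252) * c5 ∧
    0 ≤ (1) * c0 + (20 / 3) * c1 + (45 / 2) * c2 + (40) * c3 + (35) * c4 - T := by
  refine ⟨?_, ?_, ?_, ?_, ?_, ?_, ?_⟩
  · have e : (10) * c1 + (108 / 5) * c2 + (-105) * c4 = G * (1451520 + 5192928 * x + (28373544 / 5) * x ^ 2 + (15015884 / 5) * x ^ 3 + 882228 * x ^ 4 + 147628 * x ^ 5 + (66036 / 5) * x ^ 6 + (2456 / 5) * x ^ 7) := by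
      rw [g1, g2, g4]; ring
    rw [e]; positivity
  · have e : (-108 / 5) * c2 + (105) * c4 = G * (7620480 + 11662272 * x + (37841256 / 5) * x ^ 2 + (13508916 / 5) * x ^ 3 + 573372 * x ^ 4 + 72372 * x ^ 5 + (25164 / 5) * x ^ 6 + (744 / 5) * x ^ 7) := by
      rw [g2, g4]; ring
    rw [e]; positivity
  · have e : (9 / 10) * c2 = G * (816480 + 1353672 * x + (4768956 / 5) * x ^ 2 + (1851516 / 5) * x ^ 3 + 85572 * x ^ 4 + 11772 * x ^ 5 + (4464 / 5) * x ^ 6 + (144 / 5) * x ^ 7) := by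
      rw [g2]; ring
    rw [e]; positivity
  · have e : (216 / 5) * c2 = G * (39191040 + 64976256 * x + (228909888 / 5) * x ^ 2 + (88872768 / 5) * x ^ 3 + 4107456 * x ^ 4 + 565056 * x ^ 5 + (214272 / 5) * x ^ 6 + (6912 / 5) * x ^ 7) := by
      rw [g2]; ring
    rw [e]; positivity
  · have e : (-10 / 3) * c1 + (-108 / 5) * c2 + (40) * c3 + (35) * c4 = G * (10644480 + 14703072 * x + (42189256 / 5) * x ^ 2 + (38716948 / 15) * x ^ 3 + 446212 * x ^ 4 + (125876 / 3) * x ^ 5 + (8964 / 5) * x ^ 6 + (232 / 15) * x ^ 7) := by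
      rw [g1, g2, g3, g4]; ring
    rw [e]; positivity
  · have e : (-10) * c1 + (-45 / 2) * c2 + (105) * c4 + (252) * c5 = G * (14061600 + 24026040 * x + 17249004 * x ^ 2 + 6748352 * x ^ 3 + 1554720 * x ^ 4 + 211040 * x ^ 5 + 15636 * x ^ 6 + 488 * x ^ 7) := by
      rw [g1, g2, g4, g5]; ring
    rw [e]; positivity
  · have e : (1) * c0 + (20 / 3) * c1 + (45 / 2) * c2 + (40) * c3 + (35) * c4 - T = G * (2671200 + 3773880 * x + 2217048 * x ^ 2 + (2088272 / 3) * x ^ 3 + 124295 * x ^ 4 + (36785 / 3) * x ^ 5 + 577 * x ^ 6 + (23 / 3) * x ^ 7) := by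
      rw [g0, g1, g2, g3, g4, gT]; ring
    rw [e]; positivity

theorem num10 (x : ℕ) (r1 r2 r3 r4 r5 : ℝ)
    (h1 : 0 ≤ r1)
    (h2 : 0 ≤ r2)
    (h3 : 0 ≤ r3)
    (h4 : 0 ≤ r4)
    (h5 : 0 ≤ r5)
    (t135 : 1 ≤ r1 + r3 + r5)
    (t144 : 1 ≤ r1 + r4 + r4)
    (t225 : 1 ≤ r2 + r2 + r5)
    (t234 : 1 ≤ r2 + r3 + r4)
    (t333 : 1 ≤ r3 + r3 + r3) :
    (((3 * x + 16).choose (x + 6) : ℕ) : ℝ) ≤ (((3 * x + 9).choose (x + 6) : ℕ) : ℝ) +
      10 * (((3 * x + 9).choose (x + 5) : ℕ) : ℝ) * r1 +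
      45 * (((3 * x + 9).choose (x + 4) : ℕ) : ℝ) * r2 +
      120 * (((3 * x + 9).choose (x + 3) : ℕ) : ℝ) * r3 +
      210 * (((3 * x + 9).choose (x + 2) : ℕ) : ℝ) * r4 +
      252 * (((3 * x + 9).choose (x + 1) : ℕ) : ℝ) * r5 := by
  have e0 := crel (3 * x + 9) (x + 5)
  push_cast at e0
  have e1 := crel (3 * x + 9) (x + 4)
  push_cast at e1
  have e2 := crel (3 * x + 9) (x + 3)
  push_cast at e2
  have e3 := crel (3 * x + 9) (x + 2)
  push_cast at e3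
  have e4 := crel (3 * x + 9) (x + 1)
  push_cast at e4
  have d1 := trel (3 * x + 9) (3 * x + 10) (x + 6) rfl
  push_cast at d1
  have d2 := trel (3 * x + 10) (3 * x + 11) (x + 6) rfl
  push_cast at d2
  have d3 := trel (3 * x + 11) (3 * x + 12) (x + 6) rfl
  push_cast at d3
  have d4 := trel (3 * x + 12) (3 * x + 13) (x + 6) rfl
  push_cast at d4
  have d5 := trel (3 * x + 13) (3 * x + 14) (x + 6) rfl
  push_cast at d5
  have d6 := trel (3 * x + 14) (3 * x + 15) (x + 6) rfl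
  push_cast at d6
  have d7 := trel (3 * x + 15) (3 * x + 16) (x + 6) rfl
  push_cast at d7
  generalize (((3 * x + 10).choose (x + 6) : ℕ) : ℝ) = q1 at *
  generalize (((3 * x + 11).choose (x + 6) : ℕ) : ℝ) = q2 at *
  generalize (((3 * x + 12).choose (x + 6) : ℕ) : ℝ) = q3 at *
  generalize (((3 * x + 13).choose (x + 6) : ℕ) : ℝ) = q4 at *
  generalize (((3 * x + 14).choose (x + 6) : ℕ) : ℝ) = q5 at *
  generalize (((3 * x + 15).choose (x + 6) : ℕ) : ℝ) = q6 at *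
  generalize (((3 * x + 16).choose (x + 6) : ℕ) : ℝ) = T at *
  have hc0 : (0 : ℝ) ≤ (((3 * x + 9).choose (x + 6) : ℕ) : ℝ) := Nat.cast_nonneg _
  generalize (((3 * x + 9).choose (x + 6) : ℕ) : ℝ) = c0 at *
  generalize (((3 * x + 9).choose (x + 5) : ℕ) : ℝ) = c1 at *
  generalize (((3 * x + 9).choose (x + 4) : ℕ) : ℝ) = c2 at *
  generalize (((3 * x + 9).choose (x + 3) : ℕ) : ℝ) = c3 at *
  generalize (((3 * x + 9).choose (x + 2) : ℕ) : ℝ) = c4 at *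
  generalize (((3 * x + 9).choose (x + 1) : ℕ) : ℝ) = c5 at *
  have hx : (0 : ℝ) ≤ (x : ℝ) := Nat.cast_nonneg x
  generalize (x : ℝ) = y at *
  obtain ⟨G, hG, g0, g1, g2, g3, g4, g5, gT⟩ := poly10 y c0 c1 c2 c3 c4 c5 q1 q2 q3 q4 q5 q6 T hx hc0
    (by linear_combination e0)
    (by linear_combination e1)
    (by linear_combination e2)
    (by linear_combination e3)
    (by linear_combination e4)
    (by linear_combination d1)
    (by linear_combination d2)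
    (by linear_combination d3)
    (by linear_combination d4)
    (by linear_combination d5)
    (by linear_combination d6)
    (by linear_combination d7)
  obtain ⟨y135, y144, y225, y234, y333, s5, htot⟩ := cond10 y c0 c1 c2 c3 c4 c5 T G hx hG g0 g1 g2 g3 g4 g5 gT
  clear g0 g1 g2 g3 g4 g5 gT
  have z135 := mul_nonneg y135 (sub_nonneg.mpr t135)
  have z144 := mul_nonneg y144 (sub_nonneg.mpr t144)
  have z225 := mul_nonneg y225 (sub_nonneg.mpr t225)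
  have z234 := mul_nonneg y234 (sub_nonneg.mpr t234)
  have z333 := mul_nonneg y333 (sub_nonneg.mpr t333)
  have v5 := mul_nonneg s5 h5
  linarith only [z135, z144, z225, z234, z333, v5, htot]

end Pool.Agent.KR3
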