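import Pool.Agent.KR3.NumB

/-!
Inequalities between binomial coefficients, continued.
-/

namespace Pool.Agent.KR3

open Finset

theorem poly11 (x c0 c1 c2 c3 c4 c5 c6 q1 q2 q3 q4 q5 q6 q7 T : ℝ) (hx : 0 ≤ x) (hc0 : 0 ≤ c0)
    (f0 : c0 * (x + 6) = c1 * (2 * x + 3))
    (f1 : c1 * (x + 5) = c2 * (2 * x + 4))
    (f2 : c2 * (x + 4) = c3 * (2 * x + 5))
    (f3 : c3 * (x + 3) = c4 * (2 * x + 6))
    (f4 : c4 * (x + 2) = c5 * (2 * x + 7))
    (f5 : c5 * (x + 1) = c6 * (2 * x + 8))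
    (d1 : q1 * (2 * x + 3) = c0 * (3 * x + 9))
    (d2 : q2 * (2 * x + 4) = q1 * (3 * x + 10))
    (d3 : q3 * (2 * x + 5) = q2 * (3 * x + 11))
    (d4 : q4 * (2 * x + 6) = q3 * (3 * x + 12))
    (d5 : q5 * (2 * x + 7) = q4 * (3 * x + 13))
    (d6 : q6 * (2 * x + 8) = q5 * (3 * x + 14))
    (d7 : q7 * (2 * x + 9) = q6 * (3 * x + 15))
    (d8 : T * (2 * x + 10) = q7 * (3 * x + 16)) :
    ∃ G : ℝ, 0 ≤ G ∧
      c0 = G * ((2 * x + 3) * (2 * x + 4) * (2 * x + 5) * (2 * x + 6) * (2 * x + 7) * (2 * x + 8) * (2 * x + 9) * (2 * x + 10)) ∧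
      c1 = G * ((x + 6) * (2 * x + 4) * (2 * x + 5) * (2 * x + 6) * (2 * x + 7) * (2 * x + 8) * (2 * x + 9) * (2 * x + 10)) ∧
      c2 = G * ((x + 6) * (x + 5) * (2 * x + 5) * (2 * x + 6) * (2 * x + 7) * (2 * x + 8) * (2 * x + 9) * (2 * x + 10)) ∧
      c3 = G * ((x + 6) * (x + 5) * (x + 4) * (2 * x + 6) * (2 * x + 7) * (2 * x + 8) * (2 * x + 9) * (2 * x + 10)) ∧
      c4 = G * ((x + 6) * (x + 5) * (x + 4) * (x + 3) * (2 * x + 7) * (2 * x + 8) * (2 * x + 9) * (2 * x + 10)) ∧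
      c5 = G * ((x + 6) * (x + 5) * (x + 4) * (x + 3) * (x + 2) * (2 * x + 8) * (2 * x + 9) * (2 * x + 10)) ∧
      c6 = G * ((x + 6) * (x + 5) * (x + 4) * (x + 3) * (x + 2) * (x + 1) * (2 * x + 9) * (2 * x + 10)) ∧
      T = G * ((3 * x + 9) * (3 * x + 10) * (3 * x + 11) * (3 * x + 12) * (3 * x + 13) * (3 * x + 14) * (3 * x + 15) * (3 * x + 16)) := by
  have hQ : (0 : ℝ) < (2 * x + 3) * (2 * x + 4) * (2 * x + 5) * (2 * x + 6) * (2 * x + 7) * (2 * x + 8) * (2 * x + 9) * (2 * x + 10) := by positivity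
  obtain ⟨G, hG⟩ : ∃ G : ℝ, G = c0 / ((2 * x + 3) * (2 * x + 4) * (2 * x + 5) * (2 * x + 6) * (2 * x + 7) * (2 * x + 8) * (2 * x + 9) * (2 * x + 10)) := ⟨_, rfl⟩
  have hG0 : 0 ≤ G := by rw [hG]; exact div_nonneg hc0 hQ.le
  have g0 : c0 = G * ((2 * x + 3) * (2 * x + 4) * (2 * x + 5) * (2 * x + 6) * (2 * x + 7) * (2 * x + 8) * (2 * x + 9) * (2 * x + 10)) := by rw [hG, div_mul_cancel₀ _ hQ.ne']
  have g1 : c1 = G * ((x + 6) * (2 * x + 4) * (2 * x + 5) * (2 * x + 6) * (2 * x + 7) * (2 * x + 8) * (2 * x + 9) * (2 * x + 10)) := by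
    apply mul_right_cancel₀ (show (2 * x + 3) ≠ 0 by positivity)
    rw [← f0, g0]; ring
  have g2 : c2 = G * ((x + 6) * (x + 5) * (2 * x + 5) * (2 * x + 6) * (2 * x + 7) * (2 * x + 8) * (2 * x + 9) * (2 * x + 10)) := by
    apply mul_right_cancel₀ (show (2 * x + 4) ≠ 0 by positivity)
    rw [← f1, g1]; ring
  have g3 : c3 = G * ((x + 6) * (x + 5) * (x + 4) * (2 * x + 6) * (2 * x + 7) * (2 * x + 8) * (2 * x + 9) * (2 * x + 10)) := by
    apply mul_right_cancel₀ (show (2 * x + 5) ≠ 0 by positivity)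
    rw [← f2, g2]; ring
  have g4 : c4 = G * ((x + 6) * (x + 5) * (x + 4) * (x + 3) * (2 * x + 7) * (2 * x + 8) * (2 * x + 9) * (2 * x + 10)) := by
    apply mul_right_cancel₀ (show (2 * x + 6) ≠ 0 by positivity)
    rw [← f3, g3]; ring
  have g5 : c5 = G * ((x + 6) * (x + 5) * (x + 4) * (x + 3) * (x + 2) * (2 * x + 8) * (2 * x + 9) * (2 * x + 10)) := by
    apply mul_right_cancel₀ (show (2 * x + 7) ≠ 0 by positivity)
    rw [← f4, g4]; ring
  have g6 : c6 = G * ((x + 6) * (x + 5) * (x + 4) * (x + 3) * (x + 2) * (x + 1) * (2 * x + 9) * (2 * x + 10)) := by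
    apply mul_right_cancel₀ (show (2 * x + 8) ≠ 0 by positivity)
    rw [← f5, g5]; ring
  have k1 : q1 = G * ((3 * x + 9) * (2 * x + 4) * (2 * x + 5) * (2 * x + 6) * (2 * x + 7) * (2 * x + 8) * (2 * x + 9) * (2 * x + 10)) := by
    apply mul_right_cancel₀ (show (2 * x + 3) ≠ 0 by positivity)
    rw [d1, g0]; ring
  have k2 : q2 = G * ((3 * x + 9) * (3 * x + 10) * (2 * x + 5) * (2 * x + 6) * (2 * x + 7) * (2 * x + 8) * (2 * x + 9) * (2 * x + 10)) := by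
    apply mul_right_cancel₀ (show (2 * x + 4) ≠ 0 by positivity)
    rw [d2, k1]; ring
  have k3 : q3 = G * ((3 * x + 9) * (3 * x + 10) * (3 * x + 11) * (2 * x + 6) * (2 * x + 7) * (2 * x + 8) * (2 * x + 9) * (2 * x + 10)) := by
    apply mul_right_cancel₀ (show (2 * x + 5) ≠ 0 by positivity)
    rw [d3, k2]; ring
  have k4 : q4 = G * ((3 * x + 9) * (3 * x + 10) * (3 * x + 11) * (3 * x + 12) * (2 * x + 7) * (2 * x + 8) * (2 * x + 9) * (2 * x + 10)) := by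
    apply mul_right_cancel₀ (show (2 * x + 6) ≠ 0 by positivity)
    rw [d4, k3]; ring
  have k5 : q5 = G * ((3 * x + 9) * (3 * x + 10) * (3 * x + 11) * (3 * x + 12) * (3 * x + 13) * (2 * x + 8) * (2 * x + 9) * (2 * x + 10)) := by
    apply mul_right_cancel₀ (show (2 * x + 7) ≠ 0 by positivity)
    rw [d5, k4]; ring
  have k6 : q6 = G * ((3 * x + 9) * (3 * x + 10) * (3 * x + 11) * (3 * x + 12) * (3 * x + 13) * (3 * x + 14) * (2 * x + 9) * (2 * x + 10)) := by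
    apply mul_right_cancel₀ (show (2 * x + 8) ≠ 0 by positivity)
    rw [d6, k5]; ring
  have k7 : q7 = G * ((3 * x + 9) * (3 * x + 10) * (3 * x + 11) * (3 * x + 12) * (3 * x + 13) * (3 * x + 14) * (3 * x + 15) * (2 * x + 10)) := by
    apply mul_right_cancel₀ (show (2 * x + 9) ≠ 0 by positivity)
    rw [d7, k6]; ring
  have k8 : T = G * ((3 * x + 9) * (3 * x + 10) * (3 * x + 11) * (3 * x + 12) * (3 * x + 13) * (3 * x + 14) * (3 * x + 15) * (3 * x + 16)) := by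
    apply mul_right_cancel₀ (show (2 * x + 10) ≠ 0 by positivity)
    rw [d8, k7]; ring
  exact ⟨G, hG0, g0, g1, g2, g3, g4, g5, g6, k8⟩

theorem cond11 (x c0 c1 c2 c3 c4 c5 c6 T G : ℝ) (hx : 0 ≤ x) (hG : 0 ≤ G)
    (g0 : c0 = G * ((2 * x + 3) * (2 * x + 4) * (2 * x + 5) * (2 * x + 6) * (2 * x + 7) * (2 * x + 8) * (2 * x + 9) * (2 * x + 10)))
    (g1 : c1 = G * ((x + 6) * (2 * x + 4) * (2 * x + 5) * (2 * x + 6) * (2 * x + 7) * (2 * x + 8) * (2 * x + 9) * (2 * x + 10)))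
    (g2 : c2 = G * ((x + 6) * (x + 5) * (2 * x + 5) * (2 * x + 6) * (2 * x + 7) * (2 * x + 8) * (2 * x + 9) * (2 * x + 10)))
    (g3 : c3 = G * ((x + 6) * (x + 5) * (x + 4) * (2 * x + 6) * (2 * x + 7) * (2 * x + 8) * (2 * x + 9) * (2 * x + 10)))
    (g4 : c4 = G * ((x + 6) * (x + 5) * (x + 4) * (x + 3) * (2 * x + 7) * (2 * x + 8) * (2 * x + 9) * (2 * x + 10)))
    (g5 : c5 = G * ((x + 6) * (x + 5) * (x + 4) * (x + 3) * (x + 2) * (2 * x + 8) * (2 * x + 9) * (2 * x + 10)))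
    (g6 : c6 = G * ((x + 6) * (x + 5) * (x + 4) * (x + 3) * (x + 2) * (x + 1) * (2 * x + 9) * (2 * x + 10)))
    (gT : T = G * ((3 * x + 9) * (3 * x + 10) * (3 * x + 11) * (3 * x + 12) * (3 * x + 13) * (3 * x + 14) * (3 * x + 15) * (3 * x + 16))) :
    0 ≤ (1) * c0 ∧
    0 ≤ (1 / 2) * c0 ∧
    0 ≤ (11) * c1 ∧
    0 ≤ (-2 / 5) * c0 + (22 / 5) * c1 + (44) * c2 + (33) * c3 + (-132) * c4 ∧
    0 ≤ (-3 / 5) * c0 + (-22 / 5) * c1 + (11) * c2 + (-33) * c3 + (132) * c4 ∧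
    0 ≤ (1 / 5) * c0 + (-11 / 5) * c1 + (-22) * c2 + (66) * c3 + (66) * c4 ∧
    0 ≤ (2 / 5) * c0 + (-77 / 5) * c1 + (-44) * c2 + (-33) * c3 + (132) * c4 + (462) * c5 ∧
    0 ≤ (-3 / 2) * c0 + (462) * c6 ∧
    0 ≤ (7 / 10) * c0 + (44 / 5) * c1 + (33) * c2 + (66) * c3 + (66) * c4 - T := by
  refine ⟨?_, ?_, ?_, ?_, ?_, ?_, ?_, ?_, ?_⟩
  · have e : (1) * c0 = G * (1814400 + 5185440 * x + 6322032 * x ^ 2 + 4301024 * x ^ 3 + 1788304 * x ^ 4 + 465920 * x ^ 5 + 74368 * x ^ 6 + 6656 * x ^ 7 + 256 * x ^ 8) := by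
      rw [g0]; ring
    rw [e]; positivity
  · have e : (1 / 2) * c0 = G * (907200 + 2592720 * x + 3161016 * x ^ 2 + 2150512 * x ^ 3 + 894152 * x ^ 4 + 232960 * x ^ 5 + 37184 * x ^ 6 + 3328 * x ^ 7 + 128 * x ^ 8) := by
      rw [g0]; ring
    rw [e]; positivity
  · have e : (11) * c1 = G * (39916800 + 94121280 * x + 95350464 * x ^ 2 + 54236336 * x ^ 3 + 18955552 * x ^ 4 + 4170320 * x ^ 5 + 564256 * x ^ 6 + 42944 * x ^ 7 + 1408 * x ^ 8) := by
      rw [g1]; ring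
    rw [e]; positivity
  · have e : (-2 / 5) * c0 + (22 / 5) * c1 + (44) * c2 + (33) * c3 + (-132) * c4 = G * (95074560 + 217829376 * x + (1057976784 / 5) * x ^ 2 + (572343944 / 5) * x ^ 3 + (189317896 / 5) * x ^ 4 + 7862200 * x ^ 5 + (5013256 / 5) * x ^ 6 + (359456 / 5) * x ^ 7 + (11104 / 5) * x ^ 8) := by
      rw [g0, g1, g2, g3, g4]; ring
    rw [e]; positivity
  · have e : (-3 / 5) * c0 + (-22 / 5) * c1 + (11) * c2 + (-33) * c3 + (132) * c4 = G * (152591040 + 290399184 * x + (1194838056 / 5) * x ^ 2 + (554764336 / 5) * x ^ 3 + (158771984 / 5) * x ^ 4 + 5727680 * x ^ 5 + (3172904 / 5) * x ^ 6 + (196864 / 5) * x ^ 7 + (5216 / 5) * x ^ 8) := by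
      rw [g0, g1, g2, g3, g4]; ring
    rw [e]; positivity
  · have e : (1 / 5) * c0 + (-11 / 5) * c1 + (-22) * c2 + (66) * c3 + (66) * c4 = G * (251838720 + 462275712 * x + (1840061808 / 5) * x ^ 2 + (829871528 / 5) * x ^ 3 + (231945352 / 5) * x ^ 4 + 8229400 * x ^ 5 + (4525672 / 5) * x ^ 6 + (282272 / 5) * x ^ 7 + (7648 / 5) * x ^ 8) := by
      rw [g0, g1, g2, g3, g4]; ring
    rw [e]; positivity
  · have e : (2 / 5) * c0 + (-77 / 5) * c1 + (-44) * c2 + (-33) * c3 + (132) * c4 + (462) * c5 = G * (104509440 + 196323264 * x + (776786256 / 5) * x ^ 2 + (336496296 / 5) * x ^ 3 + (86456064 / 5) * x ^ 4 + 2649840 * x ^ 5 + (1137504 / 5) * x ^ 6 + (44904 / 5) * x ^ 7 + (336 / 5) * x ^ 8) := by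
      rw [g0, g1, g2, g3, g4, g5]; ring
    rw [e]; positivity
  · have e : (-3 / 2) * c0 + (462) * c6 = G * (27216000 + 78209280 * x + 90342216 * x ^ 2 + 55880580 * x ^ 3 + 20498856 * x ^ 4 + 4604880 * x ^ 5 + 622104 * x ^ 6 + 46380 * x ^ 7 + 1464 * x ^ 8) := by
      rw [g0, g6]; ring
    rw [e]; positivity
  · have e : (7 / 10) * c0 + (44 / 5) * c1 + (33) * c2 + (66) * c3 + (66) * c4 - T = G * (23224320 + 40474512 * x + (151399188 / 5) * x ^ 2 + (63199668 / 5) * x ^ 3 + (15970227 / 5) * x ^ 4 + 493080 * x ^ 5 + (220542 / 5) * x ^ 6 + (9732 / 5) * x ^ 7 + (123 / 5) * x ^ 8) := by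
      rw [g0, g1, g2, g3, g4, gT]; ring
    rw [e]; positivity

theorem num11 (x : ℕ) (r0 r1 r2 r3 r4 r5 r6 : ℝ)
    (h0 : 0 ≤ r0)
    (h1 : 0 ≤ r1)
    (h2 : 0 ≤ r2)
    (h3 : 0 ≤ r3)
    (h4 : 0 ≤ r4)
    (h5 : 0 ≤ r5)
    (h6 : 0 ≤ r6)
    (t046 : 1 ≤ r0 + r4 + r6)
    (t226 : 1 ≤ r2 + r2 + r6)
    (t145 : 1 ≤ r1 + r4 + r5)
    (t235 : 1 ≤ r2 + r3 + r5)
    (t244 : 1 ≤ r2 + r4 + r4)
    (t334 : 1 ≤ r3 + r3 + r4) :
    (((3 * x + 16).choose (x + 6) : ℕ) : ℝ) ≤ 1 * (((3 * x + 8).choose (x + 6) : ℕ) : ℝ) * r0 +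
      11 * (((3 * x + 8).choose (x + 5) : ℕ) : ℝ) * r1 +
      55 * (((3 * x + 8).choose (x + 4) : ℕ) : ℝ) * r2 +
      165 * (((3 * x + 8).choose (x + 3) : ℕ) : ℝ) * r3 +
      330 * (((3 * x + 8).choose (x + 2) : ℕ) : ℝ) * r4 +
      462 * (((3 * x + 8).choose (x + 1) : ℕ) : ℝ) * r5 +
      462 * (((3 * x + 8).choose x : ℕ) : ℝ) * r6 := by
  have e0 := crel (3 * x + 8) (x + 5)
  push_cast at e0
  have e1 := crel (3 * x + 8) (x + 4)
  push_cast at e1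
  have e2 := crel (3 * x + 8) (x + 3)
  push_cast at e2
  have e3 := crel (3 * x + 8) (x + 2)
  push_cast at e3
  have e4 := crel (3 * x + 8) (x + 1)
  push_cast at e4
  have e5 := crel (3 * x + 8) x
  push_cast at e5
  have d1 := trel (3 * x + 8) (3 * x + 9) (x + 6) rfl
  push_cast at d1
  have d2 := trel (3 * x + 9) (3 * x + 10) (x + 6) rfl
  push_cast at d2
  have d3 := trel (3 * x + 10) (3 * x + 11) (x + 6) rfl
  push_cast at d3
  have d4 := trel (3 * x + 11) (3 * x + 12) (x + 6) rfl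
  push_cast at d4
  have d5 := trel (3 * x + 12) (3 * x + 13) (x + 6) rfl
  push_cast at d5
  have d6 := trel (3 * x + 13) (3 * x + 14) (x + 6) rfl
  push_cast at d6
  have d7 := trel (3 * x + 14) (3 * x + 15) (x + 6) rfl
  push_cast at d7
  have d8 := trel (3 * x + 15) (3 * x + 16) (x + 6) rfl
  push_cast at d8
  generalize (((3 * x + 9).choose (x + 6) : ℕ) : ℝ) = q1 at *
  generalize (((3 * x + 10).choose (x + 6) : ℕ) : ℝ) = q2 at *
  generalize (((3 * x + 11).choose (x + 6) : ℕ) : ℝ) = q3 at *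
  generalize (((3 * x + 12).choose (x + 6) : ℕ) : ℝ) = q4 at *
  generalize (((3 * x + 13).choose (x + 6) : ℕ) : ℝ) = q5 at *
  generalize (((3 * x + 14).choose (x + 6) : ℕ) : ℝ) = q6 at *
  generalize (((3 * x + 15).choose (x + 6) : ℕ) : ℝ) = q7 at *
  generalize (((3 * x + 16).choose (x + 6) : ℕ) : ℝ) = T at *
  have hc0 : (0 : ℝ) ≤ (((3 * x + 8).choose (x + 6) : ℕ) : ℝ) := Nat.cast_nonneg _
  generalize (((3 * x + 8).choose (x + 6) : ℕ) : ℝ) = c0 at *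
  generalize (((3 * x + 8).choose (x + 5) : ℕ) : ℝ) = c1 at *
  generalize (((3 * x + 8).choose (x + 4) : ℕ) : ℝ) = c2 at *
  generalize (((3 * x + 8).choose (x + 3) : ℕ) : ℝ) = c3 at *
  generalize (((3 * x + 8).choose (x + 2) : ℕ) : ℝ) = c4 at *
  generalize (((3 * x + 8).choose (x + 1) : ℕ) : ℝ) = c5 at *
  generalize (((3 * x + 8).choose x : ℕ) : ℝ) = c6 at *
  have hx : (0 : ℝ) ≤ (x : ℝ) := Nat.cast_nonneg x
  generalize (x : ℝ) = y at *
  obtain ⟨G, hG, g0, g1, g2, g3, g4, g5, g6, gT⟩ := poly11 y c0 c1 c2 c3 c4 c5 c6 q1 q2 q3 q4 q5 q6 q7 T hx hc0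
    (by linear_combination e0)
    (by linear_combination e1)
    (by linear_combination e2)
    (by linear_combination e3)
    (by linear_combination e4)
    (by linear_combination e5)
    (by linear_combination d1)
    (by linear_combination d2)
    (by linear_combination d3)
    (by linear_combination d4)
    (by linear_combination d5)
    (by linear_combination d6)
    (by linear_combination d7)
    (by linear_combination d8)
  obtain ⟨y046, y226, y145, y235, y244, y334, s5, s6, htot⟩ := cond11 y c0 c1 c2 c3 c4 c5 c6 T G hx hG g0 g1 g2 g3 g4 g5 g6 gT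
  clear g0 g1 g2 g3 g4 g5 g6 gT
  have z046 := mul_nonneg y046 (sub_nonneg.mpr t046)
  have z226 := mul_nonneg y226 (sub_nonneg.mpr t226)
  have z145 := mul_nonneg y145 (sub_nonneg.mpr t145)
  have z235 := mul_nonneg y235 (sub_nonneg.mpr t235)
  have z244 := mul_nonneg y244 (sub_nonneg.mpr t244)
  have z334 := mul_nonneg y334 (sub_nonneg.mpr t334)
  have v5 := mul_nonneg s5 h5
  have v6 := mul_nonneg s6 h6
  linarith only [z046, z226, z145, z235, z244, z334, v5, v6, htot]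

end Pool.Agent.KR3
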