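import Pool.Agent.KR3.Crit

/-!
At most six positive doses.
-/

namespace Pool.Agent.KR3

open Finset

/-- Number of `j`-subsets of dose less than 1. -/
noncomputable def dd {m : ℕ} (x : Fin m → ℝ) (j : ℕ) : ℕ :=
  ((powersetCard j (univ : Finset (Fin m))).filter (fun W => ∑ i ∈ W, x i < 1)).card

theorem dd_add_lth {m : ℕ} (x : Fin m → ℝ) (j : ℕ) : dd x j + lth x j = m.choose j := by
  have h := Finset.card_filter_add_card_filter_not (s := powersetCard j (univ : Finset (Fin m)))
    (fun W => ∑ i ∈ W, x i < 1)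
  rw [Finset.card_powersetCard, Finset.card_univ, Fintype.card_fin] at h
  unfold dd lth
  simp only [not_lt] at h
  exact h

theorem dd_zero {m : ℕ} (x : Fin m → ℝ) : dd x 0 = 1 := by
  unfold dd
  rw [Finset.powersetCard_zero, Finset.filter_singleton]
  simp

theorem dd_one {m : ℕ} (x : Fin m → ℝ) :
    dd x 1 = ((univ : Finset (Fin m)).filter (fun i => x i < 1)).card := by
  unfold dd
  rw [Finset.powersetCard_one, Finset.filter_map, Finset.card_map]
  congr 1
  ext i
  simp

theorem big_le_two {m : ℕ} (hm : 4 ≤ m) (x : Fin m → ℝ) (hx : ∀ i, 0 < x i)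
    (hs : ∑ i, x i ≤ 3) : ((univ : Finset (Fin m)).filter (fun i => 1 ≤ x i)).card ≤ 2 := by
  by_contra hcon
  push Not at hcon
  set A := (univ : Finset (Fin m)).filter (fun i => 1 ≤ x i) with hA
  have h1 : (A.card : ℝ) ≤ ∑ i ∈ A, x i := by
    have := Finset.card_nsmul_le_sum A x 1 (fun i hi => (mem_filter.mp hi).2)
    simpa using this
  have h2 : ∑ i ∈ A, x i + ∑ i ∈ Aᶜ, x i = ∑ i, x i := Finset.sum_add_sum_compl A x
  have h3 : 0 ≤ ∑ i ∈ Aᶜ, x i := Finset.sum_nonneg (fun i _ => (hx i).le)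
  have h4 : (3 : ℝ) ≤ A.card := by exact_mod_cast hcon
  rcases Nat.lt_or_ge 3 A.card with h5 | h5
  · have : (4 : ℝ) ≤ A.card := by exact_mod_cast h5
    linarith
  · have h6 : 0 < Aᶜ.card := by
      rw [Finset.card_compl, Fintype.card_fin]; omega
    have h7 : 0 < ∑ i ∈ Aᶜ, x i := Finset.sum_pos (fun i _ => hx i) (Finset.card_pos.mp h6)
    linarith

theorem dd_one_ge {m : ℕ} (hm : 4 ≤ m) (x : Fin m → ℝ) (hx : ∀ i, 0 < x i)
    (hs : ∑ i, x i ≤ 3) : m ≤ dd x 1 + 2 := by
  have h := big_le_two hm x hx hs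
  have h2 := Finset.card_filter_add_card_filter_not (s := (univ : Finset (Fin m)))
    (fun i => x i < 1)
  simp only [not_lt] at h2
  rw [Finset.card_univ, Fintype.card_fin] at h2
  rw [dd_one]
  omega

theorem pair_mem {m : ℕ} (x : Fin m → ℝ) {a b : Fin m} (hab : a ≠ b) (h : x a + x b < 1) :
    ({a, b} : Finset (Fin m)) ∈ (powersetCard 2 (univ : Finset (Fin m))).filter
      (fun W => ∑ i ∈ W, x i < 1) := by
  rw [mem_filter, mem_powersetCard]
  refine ⟨⟨subset_univ _, Finset.card_pair hab⟩, ?_⟩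
  rw [Finset.sum_pair hab]
  exact h

theorem dd_two_ge {m : ℕ} (x : Fin m → ℝ) {a b c d : Fin m} (hab : a ≠ b) (hac : a ≠ c)
    (had : a ≠ d) (hbc : b ≠ c) (hbd : b ≠ d) (hcd : c ≠ d)
    (h : x a + x b + x c + x d < 2) : 3 ≤ dd x 2 := by
  have key : ∀ W1 W2 W3 : Finset (Fin m),
      W1 ∈ (powersetCard 2 (univ : Finset (Fin m))).filter (fun W => ∑ i ∈ W, x i < 1) →
      W2 ∈ (powersetCard 2 (univ : Finset (Fin m))).filter (fun W => ∑ i ∈ W, x i < 1) →
      W3 ∈ (powersetCard 2 (univ : Finset (Fin m))).filter (fun W => ∑ i ∈ W, x i < 1) →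
      W1 ≠ W2 → W1 ≠ W3 → W2 ≠ W3 → 3 ≤ dd x 2 := by
    intro W1 W2 W3 h1 h2 h3 h12 h13 h23
    have hc : ({W1, W2, W3} : Finset (Finset (Fin m))).card = 3 := by
      rw [Finset.card_eq_three]
      exact ⟨W1, W2, W3, h12, h13, h23, rfl⟩
    rw [← hc]
    unfold dd
    apply Finset.card_le_card
    intro W hW
    simp only [mem_insert, mem_singleton] at hW
    rcases hW with rfl | rfl | rfl
    · exact h1
    · exact h2
    · exact h3
  have hne : ∀ p q r s : Fin m, p ≠ r → p ≠ s → ({p, q} : Finset (Fin m)) ≠ {r, s} := by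
    intro p q r s h1 h2 heq
    have : p ∈ ({r, s} : Finset (Fin m)) := by rw [← heq]; simp
    simp only [mem_insert, mem_singleton] at this
    rcases this with h3 | h3
    · exact h1 h3
    · exact h2 h3
  have hne2 : ∀ p q r s : Fin m, q ≠ r → q ≠ s → ({p, q} : Finset (Fin m)) ≠ {r, s} := by
    intro p q r s h1 h2 heq
    have : q ∈ ({r, s} : Finset (Fin m)) := by rw [← heq]; simp
    simp only [mem_insert, mem_singleton] at this
    rcases this with h3 | h3
    · exact h1 h3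
    · exact h2 h3
  have e1 : x a + x b < 1 ∨ x c + x d < 1 := by
    by_contra hcon; push Not at hcon; linarith
  have e2 : x a + x c < 1 ∨ x b + x d < 1 := by
    by_contra hcon; push Not at hcon; linarith
  have e3 : x a + x d < 1 ∨ x b + x c < 1 := by
    by_contra hcon; push Not at hcon; linarith
  rcases e1 with e1 | e1 <;> rcases e2 with e2 | e2 <;> rcases e3 with e3 | e3
  · exact key _ _ _ (pair_mem x hab e1) (pair_mem x hac e2) (pair_mem x had e3)
      (hne2 _ _ _ _ hab.symm hbc) (hne2 _ _ _ _ hab.symm hbd) (hne2 _ _ _ _ hac.symm hcd)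
  · exact key _ _ _ (pair_mem x hab e1) (pair_mem x hac e2) (pair_mem x hbc e3)
      (hne2 _ _ _ _ hab.symm hbc) (hne _ _ _ _ hab hac) (hne _ _ _ _ hab hac)
  · exact key _ _ _ (pair_mem x hab e1) (pair_mem x hbd e2) (pair_mem x had e3)
      (hne _ _ _ _ hab had) (hne2 _ _ _ _ hab.symm hbd) (hne _ _ _ _ hab.symm hbd)
  · exact key _ _ _ (pair_mem x hab e1) (pair_mem x hbd e2) (pair_mem x hbc e3)
      (hne _ _ _ _ hab had) (hne _ _ _ _ hab hac) (hne2 _ _ _ _ hbd.symm hcd.symm)
  · exact key _ _ _ (pair_mem x hcd e1) (pair_mem x hac e2) (pair_mem x had e3)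
      (hne2 _ _ _ _ had.symm hcd.symm) (hne _ _ _ _ hac.symm hcd) (hne2 _ _ _ _ hac.symm hcd)
  · exact key _ _ _ (pair_mem x hcd e1) (pair_mem x hac e2) (pair_mem x hbc e3)
      (hne2 _ _ _ _ had.symm hcd.symm) (hne2 _ _ _ _ hbd.symm hcd.symm) (hne _ _ _ _ hab hac)
  · exact key _ _ _ (pair_mem x hcd e1) (pair_mem x hbd e2) (pair_mem x had e3)
      (hne _ _ _ _ hbc.symm hcd) (hne _ _ _ _ hac.symm hcd) (hne _ _ _ _ hab.symm hbd)
  · exact key _ _ _ (pair_mem x hcd e1) (pair_mem x hbd e2) (pair_mem x hbc e3)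
      (hne _ _ _ _ hbc.symm hcd) (hne2 _ _ _ _ hbd.symm hcd.symm)
      (hne2 _ _ _ _ hbd.symm hcd.symm)

theorem dd_two_six (x : Fin 6 → ℝ) (hx : ∀ i, 0 < x i) (hs : ∑ i, x i ≤ 3) {i : Fin 6}
    (hi : 1 ≤ x i) : 3 ≤ dd x 2 := by
  rw [Fin.sum_univ_six] at hs
  have h0 := hx 0
  have h1 := hx 1
  have h2 := hx 2
  have h3 := hx 3
  have h4 := hx 4
  have h5 := hx 5
  fin_cases i
  · exact dd_two_ge x (a := 1) (b := 2) (c := 3) (d := 4) (by decide) (by decide) (by decide)
      (by decide) (by decide) (by decide) (by simp at hi; linarith)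
  · exact dd_two_ge x (a := 0) (b := 2) (c := 3) (d := 4) (by decide) (by decide) (by decide)
      (by decide) (by decide) (by decide) (by simp at hi; linarith)
  · exact dd_two_ge x (a := 0) (b := 1) (c := 3) (d := 4) (by decide) (by decide) (by decide)
      (by decide) (by decide) (by decide) (by simp at hi; linarith)
  · exact dd_two_ge x (a := 0) (b := 1) (c := 2) (d := 4) (by decide) (by decide) (by decide)
      (by decide) (by decide) (by decide) (by simp at hi; linarith)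
  · exact dd_two_ge x (a := 0) (b := 1) (c := 2) (d := 3) (by decide) (by decide) (by decide)
      (by decide) (by decide) (by decide) (by simp at hi; linarith)
  · exact dd_two_ge x (a := 0) (b := 1) (c := 2) (d := 3) (by decide) (by decide) (by decide)
      (by decide) (by decide) (by decide) (by simp at hi; linarith)

/-- The number of sets of dose less than 1 with `z` zeros added. -/
noncomputable def DD {m : ℕ} (x : Fin m → ℝ) (z k : ℕ) : ℕ :=
  ∑ j ∈ range (k + 1), dd x j * z.choose (k - j)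

theorem DD_ge_one {m : ℕ} (x : Fin m → ℝ) (z k : ℕ) : z.choose k ≤ DD x z k := by
  unfold DD
  have h := Finset.single_le_sum (f := fun j => dd x j * z.choose (k - j))
    (fun j _ => Nat.zero_le _) (show 0 ∈ range (k + 1) by simp)
  simp only [dd_zero, Nat.sub_zero, one_mul] at h
  exact h

theorem DD_ge_two {m : ℕ} (x : Fin m → ℝ) (z k : ℕ) :
    z.choose (k + 1) + dd x 1 * z.choose k ≤ DD x z (k + 1) := by
  unfold DD
  have h := Finset.sum_le_sum_of_subset (f := fun j => dd x j * z.choose (k + 1 - j))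
    (show range 2 ⊆ range (k + 1 + 1) by
      intro i hi; rw [mem_range] at hi ⊢; omega)
  rw [Finset.sum_range_succ, Finset.sum_range_one] at h
  simp only [dd_zero, Nat.sub_zero, one_mul, Nat.add_sub_cancel] at h
  exact h

theorem DD_ge_three {m : ℕ} (x : Fin m → ℝ) (z k : ℕ) :
    z.choose (k + 2) + dd x 1 * z.choose (k + 1) + dd x 2 * z.choose k ≤ DD x z (k + 2) := by
  unfold DD
  have h := Finset.sum_le_sum_of_subset (f := fun j => dd x j * z.choose (k + 2 - j))
    (show range 3 ⊆ range (k + 2 + 1) by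
      intro i hi; rw [mem_range] at hi ⊢; omega)
  rw [Finset.sum_range_succ, Finset.sum_range_succ, Finset.sum_range_one] at h
  simp only [dd_zero, Nat.sub_zero, one_mul, Nat.add_sub_cancel] at h
  have e : k + 2 - 1 = k + 1 := by omega
  rw [e] at h
  exact h

theorem small_three {m : ℕ} (hm : m ≤ 3) (x : Fin m → ℝ) (l : ℕ) :
    (3 * l + 1).choose (l + 1) ≤ DD x (3 * l + 4 - m) (l + 1) :=
  le_trans (Nat.choose_le_choose _ (by omega)) (DD_ge_one x _ _)

theorem small_four (x : Fin 4 → ℝ) (hx : ∀ i, 0 < x i) (hs : ∑ i, x i ≤ 3) (l : ℕ) :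
    (3 * l + 1).choose (l + 1) ≤ DD x (3 * l + 4 - 4) (l + 1) := by
  have h1 := dd_one_ge (le_refl 4) x hx hs
  have h2 := DD_ge_two x (3 * l) l
  have e : 3 * l + 4 - 4 = 3 * l := by omega
  rw [e]
  have h3 : (3 * l + 1).choose (l + 1) = (3 * l).choose l + (3 * l).choose (l + 1) :=
    Nat.choose_succ_succ _ _
  rw [h3]
  have h4 : 1 * (3 * l).choose l ≤ dd x 1 * (3 * l).choose l := Nat.mul_le_mul_right _ (by omega)
  omega

theorem small_five (x : Fin 5 → ℝ) (hx : ∀ i, 0 < x i) (hs : ∑ i, x i ≤ 3) (p : ℕ) :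
    (3 * (p + 1) + 1).choose (p + 1 + 1) ≤ DD x (3 * (p + 1) + 4 - 5) (p + 1 + 1) := by
  have h1 := dd_one_ge (by norm_num : 4 ≤ 5) x hx hs
  have h2 := DD_ge_two x (3 * p + 2) (p + 1)
  have e : 3 * (p + 1) + 4 - 5 = 3 * p + 2 := by omega
  have e2 : 3 * (p + 1) + 1 = 3 * p + 2 + 1 + 1 := by ring
  rw [e, e2, Nat.choose_succ_succ, Nat.choose_succ_succ (3 * p + 2) p,
    Nat.choose_succ_succ (3 * p + 2) (p + 1)]
  have h3 : (3 * p + 2).choose p ≤ (3 * p + 2).choose (p + 1) :=
    Nat.choose_le_succ_of_lt_half_left (by omega)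
  have h4 : 3 * (3 * p + 2).choose (p + 1) ≤ dd x 1 * (3 * p + 2).choose (p + 1) :=
    Nat.mul_le_mul_right _ (by omega)
  simp only [Nat.succ_eq_add_one] at *
  omega

theorem pascal3 (z r : ℕ) : (z + 1 + 1 + 1).choose (r + 1 + 1 + 1) =
    z.choose r + 3 * z.choose (r + 1) + 3 * z.choose (r + 1 + 1) +
      z.choose (r + 1 + 1 + 1) := by
  rw [Nat.choose_succ_succ' (z + 1 + 1) (r + 1 + 1), Nat.choose_succ_succ' (z + 1) (r + 1),
    Nat.choose_succ_succ' (z + 1) (r + 1 + 1), Nat.choose_succ_succ' z r,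
    Nat.choose_succ_succ' z (r + 1), Nat.choose_succ_succ' z (r + 1 + 1)]
  ring

theorem small_six (x : Fin 6 → ℝ) (hx : ∀ i, 0 < x i) (hs : ∑ i, x i ≤ 3) (p : ℕ) :
    (3 * (p + 1) + 1).choose (p + 1 + 1) ≤ DD x (3 * (p + 1) + 4 - 6) (p + 1 + 1) := by
  have e : 3 * (p + 1) + 4 - 6 = 3 * p + 1 := by omega
  have e2 : 3 * (p + 1) + 1 = 3 * p + 1 + 1 + 1 + 1 := by ring
  rw [e, e2]
  by_cases hb : ∃ i, 1 ≤ x i
  · obtain ⟨i, hi⟩ := hb
    have h1 := dd_one_ge (by norm_num : 4 ≤ 6) x hx hs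
    have h2 := dd_two_six x hx hs hi
    have h3 := DD_ge_three x (3 * p + 1) p
    have h4 : 4 * (3 * p + 1).choose (p + 1) ≤ dd x 1 * (3 * p + 1).choose (p + 1) :=
      Nat.mul_le_mul_right _ (by omega)
    have h5 : 3 * (3 * p + 1).choose p ≤ dd x 2 * (3 * p + 1).choose p :=
      Nat.mul_le_mul_right _ h2
    rcases Nat.eq_zero_or_pos p with rfl | hp
    · norm_num at *
      have : Nat.choose 4 2 = 6 := by decide
      omega
    · obtain ⟨r, rfl⟩ : ∃ r, p = r + 1 := ⟨p - 1, by omega⟩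
      rw [pascal3]
      have h3' : (3 * (r + 1) + 1).choose (r + 1 + 1 + 1) +
          dd x 1 * (3 * (r + 1) + 1).choose (r + 1 + 1) +
          dd x 2 * (3 * (r + 1) + 1).choose (r + 1) ≤
          DD x (3 * (r + 1) + 1) (r + 1 + 1 + 1) := h3
      have h6 : (3 * (r + 1) + 1).choose r ≤ (3 * (r + 1) + 1).choose (r + 1) :=
        Nat.choose_le_succ_of_lt_half_left (by omega)
      have h7 : (3 * (r + 1) + 1).choose (r + 1) ≤ (3 * (r + 1) + 1).choose (r + 1 + 1) :=
        Nat.choose_le_succ_of_lt_half_left (by omega)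
      clear h3
      omega
  · push Not at hb
    have h1 : dd x 1 = 6 := by
      rw [dd_one, Finset.filter_true_of_mem (fun i _ => hb i)]
      simp
    have h3 := DD_ge_two x (3 * p + 1) (p + 1)
    rw [h1] at h3
    rcases Nat.eq_zero_or_pos p with rfl | hp
    · norm_num at *
      have : Nat.choose 4 2 = 6 := by decide
      omega
    · obtain ⟨r, rfl⟩ : ∃ r, p = r + 1 := ⟨p - 1, by omega⟩
      rw [pascal3]
      have g1 := Nat.choose_succ_right_eq (3 * (r + 1) + 1) (r + 1)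
      have g2 := Nat.choose_succ_right_eq (3 * (r + 1) + 1) r
      have g3 : 3 * (r + 1) + 1 - (r + 1) = 2 * r + 3 := by omega
      have g4 : 3 * (r + 1) + 1 - r = 2 * r + 4 := by omega
      rw [g3] at g1
      rw [g4] at g2
      set A := (3 * (r + 1) + 1).choose (r + 1 + 1)
      set B := (3 * (r + 1) + 1).choose (r + 1)
      set C := (3 * (r + 1) + 1).choose r
      set E := (3 * (r + 1) + 1).choose (r + 1 + 1 + 1)
      have k1 : 3 * (2 * r + 4) * (B * (2 * r + 3)) = 3 * (2 * r + 4) * (A * (r + 1 + 1)) := by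
        rw [g1]
      have k2 : (2 * r + 3) * (C * (2 * r + 4)) = (r + 1) * (A * (r + 1 + 1)) := by
        calc (2 * r + 3) * (C * (2 * r + 4)) = (2 * r + 3) * (B * (r + 1)) := by rw [g2]
          _ = (r + 1) * (B * (2 * r + 3)) := by ring
          _ = (r + 1) * (A * (r + 1 + 1)) := by rw [g1]
      have key : 3 * B + C ≤ 3 * A := by
        have hpos : 0 < (2 * r + 3) * (2 * r + 4) := by positivity
        apply Nat.le_of_mul_le_mul_left _ hpos
        calc (2 * r + 3) * (2 * r + 4) * (3 * B + C)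
            = 3 * (2 * r + 4) * (B * (2 * r + 3)) + (2 * r + 3) * (C * (2 * r + 4)) := by ring
          _ = 3 * (2 * r + 4) * (A * (r + 1 + 1)) + (r + 1) * (A * (r + 1 + 1)) := by
              rw [k1, k2]
          _ = A * ((r + 2) * (7 * r + 13)) := by ring
          _ ≤ A * (3 * ((2 * r + 3) * (2 * r + 4))) := by
              apply Nat.mul_le_mul_left
              nlinarith
          _ = (2 * r + 3) * (2 * r + 4) * (3 * A) := by ring
      omega

end Pool.Agent.KR3
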