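import Pool.Agent.KR3.Win

/-!
Two classes of elements and three blocks: averages over pairs of orders.
-/

namespace Pool.Agent.KR3

open Finset

theorem perm_sum {m : ℕ} (I : Finset (Fin m)) (g : Finset (Fin m) → ℝ) :
    (∑ σ : Equiv.Perm (Fin m), g (I.map σ.toEmbedding)) * (m.choose I.card : ℝ) =
    (m.factorial : ℝ) * ∑ J ∈ powersetCard I.card (univ : Finset (Fin m)), g J := by
  classical
  have h1 : ∑ J ∈ powersetCard I.card (univ : Finset (Fin m)),
      ∑ σ : Equiv.Perm (Fin m), g (J.map σ.toEmbedding) =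
      (m.choose I.card : ℝ) * ∑ σ : Equiv.Perm (Fin m), g (I.map σ.toEmbedding) := by
    rw [Finset.sum_congr rfl
      (g := fun _ => ∑ σ : Equiv.Perm (Fin m), g (I.map σ.toEmbedding))]
    · rw [Finset.sum_const, Finset.card_powersetCard, Finset.card_univ, Fintype.card_fin,
        nsmul_eq_mul]
    · intro J hJ
      rw [mem_powersetCard] at hJ
      obtain ⟨ρ, hρ⟩ := exists_perm_map I J hJ.2.symm
      subst hρ
      apply Fintype.sum_equiv (Equiv.mulRight ρ)
      intro σ
      congr 1
      rw [Finset.map_map]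
      rfl
  have h2 : ∑ J ∈ powersetCard I.card (univ : Finset (Fin m)),
      ∑ σ : Equiv.Perm (Fin m), g (J.map σ.toEmbedding) =
      (m.factorial : ℝ) * ∑ J ∈ powersetCard I.card (univ : Finset (Fin m)), g J := by
    rw [Finset.sum_comm]
    have h3 : ∀ σ : Equiv.Perm (Fin m),
        ∑ J ∈ powersetCard I.card (univ : Finset (Fin m)), g (J.map σ.toEmbedding) =
        ∑ J ∈ powersetCard I.card (univ : Finset (Fin m)), g J := by
      intro σ
      have h4 : powersetCard I.card (univ : Finset (Fin m)) =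
          (powersetCard I.card (univ : Finset (Fin m))).map
            (mapEmbedding σ.toEmbedding).toEmbedding := by
        rw [← Finset.powersetCard_map]
        congr 1
        ext y
        simp
      conv_rhs => rw [h4, Finset.sum_map]
      rfl
    rw [Finset.sum_congr rfl (fun σ _ => h3 σ), Finset.sum_const, Finset.card_univ,
      Fintype.card_perm, Fintype.card_fin, nsmul_eq_mul]
  rw [← h2, h1, mul_comm]

/-- The number of pairs `(S, T)`, `|S| = i`, `|T| = j`, of total dose less than 1. -/
noncomputable def EE {b p : ℕ} (u : Fin b → ℝ) (v : Fin p → ℝ) (i j : ℕ) : ℕ :=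
  ∑ S ∈ powersetCard i (univ : Finset (Fin b)),
    ((powersetCard j (univ : Finset (Fin p))).filter
      (fun T => ∑ a ∈ S, u a + ∑ c ∈ T, v c < 1)).card

theorem EE_le {b p : ℕ} (u : Fin b → ℝ) (v : Fin p → ℝ) (i j : ℕ) :
    EE u v i j ≤ b.choose i * p.choose j := by
  unfold EE
  calc ∑ S ∈ powersetCard i (univ : Finset (Fin b)),
      ((powersetCard j (univ : Finset (Fin p))).filter
        (fun T => ∑ a ∈ S, u a + ∑ c ∈ T, v c < 1)).card
      ≤ ∑ S ∈ powersetCard i (univ : Finset (Fin b)), p.choose j := by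
        apply Finset.sum_le_sum
        intro S _
        refine (Finset.card_filter_le _ _).trans ?_
        rw [Finset.card_powersetCard, Finset.card_univ, Fintype.card_fin]
    _ = b.choose i * p.choose j := by
        rw [Finset.sum_const, Finset.card_powersetCard, Finset.card_univ, Fintype.card_fin,
          smul_eq_mul]

/-- The indicator of dose less than 1 of the block formed by two windows. -/
noncomputable def ib {b p : ℕ} (u : Fin b → ℝ) (v : Fin p → ℝ) (I : Finset (Fin b))
    (J : Finset (Fin p)) : ℝ :=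
  if ∑ a ∈ I, u a + ∑ c ∈ J, v c < 1 then 1 else 0

theorem ib_nonneg {b p : ℕ} (u : Fin b → ℝ) (v : Fin p → ℝ) (I : Finset (Fin b))
    (J : Finset (Fin p)) : 0 ≤ ib u v I J := by
  unfold ib
  split_ifs <;> norm_num

theorem two_avg {b p : ℕ} (u : Fin b → ℝ) (v : Fin p → ℝ) (I : Finset (Fin b))
    (J : Finset (Fin p)) :
    (∑ σ : Equiv.Perm (Fin b), ∑ τ : Equiv.Perm (Fin p),
      ib u v (I.map σ.toEmbedding) (J.map τ.toEmbedding)) *
      ((b.choose I.card : ℝ) * (p.choose J.card : ℝ)) =
    (b.factorial : ℝ) * (p.factorial : ℝ) * (EE u v I.card J.card : ℝ) := by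
  have h1 : ∀ S : Finset (Fin b), (∑ τ : Equiv.Perm (Fin p),
      ib u v S (J.map τ.toEmbedding)) * (p.choose J.card : ℝ) =
      (p.factorial : ℝ) * (((powersetCard J.card (univ : Finset (Fin p))).filter
        (fun T => ∑ a ∈ S, u a + ∑ c ∈ T, v c < 1)).card : ℝ) := by
    intro S
    rw [perm_sum J (fun T => ib u v S T)]
    congr 1
    rw [Finset.card_filter]
    push_cast
    rfl
  have h2 := perm_sum I (fun S => (((powersetCard J.card (univ : Finset (Fin p))).filter
        (fun T => ∑ a ∈ S, u a + ∑ c ∈ T, v c < 1)).card : ℝ))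
  have h3 : (∑ σ : Equiv.Perm (Fin b), ∑ τ : Equiv.Perm (Fin p),
      ib u v (I.map σ.toEmbedding) (J.map τ.toEmbedding)) * (p.choose J.card : ℝ) =
      (p.factorial : ℝ) * ∑ σ : Equiv.Perm (Fin b),
        (((powersetCard J.card (univ : Finset (Fin p))).filter
        (fun T => ∑ a ∈ I.map σ.toEmbedding, u a + ∑ c ∈ T, v c < 1)).card : ℝ) := by
    rw [Finset.sum_mul, Finset.mul_sum]
    apply Finset.sum_congr rfl
    intro σ _
    exact h1 _
  have h4 : (EE u v I.card J.card : ℝ) = ∑ S ∈ powersetCard I.card (univ : Finset (Fin b)),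
      (((powersetCard J.card (univ : Finset (Fin p))).filter
        (fun T => ∑ a ∈ S, u a + ∑ c ∈ T, v c < 1)).card : ℝ) := by
    unfold EE
    push_cast
    rfl
  rw [h4]
  calc _ = ((∑ σ : Equiv.Perm (Fin b), ∑ τ : Equiv.Perm (Fin p),
      ib u v (I.map σ.toEmbedding) (J.map τ.toEmbedding)) * (p.choose J.card : ℝ)) *
        (b.choose I.card : ℝ) := by ring
    _ = (p.factorial : ℝ) * ((∑ σ : Equiv.Perm (Fin b),
        (((powersetCard J.card (univ : Finset (Fin p))).filter
        (fun T => ∑ a ∈ I.map σ.toEmbedding, u a + ∑ c ∈ T, v c < 1)).card : ℝ)) *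
        (b.choose I.card : ℝ)) := by rw [h3]; ring
    _ = _ := by rw [h2]; ring

/-- The fraction of pairs of total dose less than 1. -/
noncomputable def rr {b p : ℕ} (u : Fin b → ℝ) (v : Fin p → ℝ) (i j : ℕ) : ℝ :=
  (EE u v i j : ℝ) / ((b.choose i : ℝ) * (p.choose j : ℝ))

theorem rr_nonneg {b p : ℕ} (u : Fin b → ℝ) (v : Fin p → ℝ) (i j : ℕ) : 0 ≤ rr u v i j := by
  unfold rr
  positivity

theorem EE_eq {b p : ℕ} (u : Fin b → ℝ) (v : Fin p → ℝ) (i j : ℕ) :
    (EE u v i j : ℝ) = (b.choose i : ℝ) * (p.choose j : ℝ) * rr u v i j := by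
  unfold rr
  rcases eq_or_ne ((b.choose i : ℝ) * (p.choose j : ℝ)) 0 with h | h
  · rw [h]
    have h1 := EE_le u v i j
    have h2 : (EE u v i j : ℝ) ≤ (b.choose i : ℝ) * (p.choose j : ℝ) := by exact_mod_cast h1
    rw [h] at h2
    have h3 : (0 : ℝ) ≤ EE u v i j := by positivity
    simp
    have : (EE u v i j : ℝ) = 0 := le_antisymm h2 h3
    exact_mod_cast this
  · rw [mul_comm, div_mul_cancel₀ _ h]

theorem avg_rr {b p : ℕ} (u : Fin b → ℝ) (v : Fin p → ℝ) (I : Finset (Fin b))
    (J : Finset (Fin p)) :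
    (∑ σ : Equiv.Perm (Fin b), ∑ τ : Equiv.Perm (Fin p),
      ib u v (I.map σ.toEmbedding) (J.map τ.toEmbedding)) =
    (b.factorial : ℝ) * (p.factorial : ℝ) * rr u v I.card J.card := by
  have h1 := two_avg u v I J
  have hb : 0 < (b.choose I.card : ℝ) := by
    have h2 : I.card ≤ b := by
      have := Finset.card_le_univ I
      rwa [Fintype.card_fin] at this
    exact_mod_cast Nat.choose_pos h2
  have hp : 0 < (p.choose J.card : ℝ) := by
    have h2 : J.card ≤ p := by
      have := Finset.card_le_univ J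
      rwa [Fintype.card_fin] at this
    exact_mod_cast Nat.choose_pos h2
  unfold rr
  rw [mul_div_assoc', eq_div_iff (by positivity)]
  exact h1

/-- Three blocks and one remaining element of the first class. -/
theorem triple {b p k : ℕ} (u : Fin b → ℝ) (v : Fin p → ℝ) {θ : ℝ} (hu : ∀ a, θ ≤ u a)
    (ht : ∑ a, u a + ∑ c, v c - θ < 3) {i j l : ℕ} (hb : i + j + l + 1 = b) (hi : i ≤ k)
    (hj : j ≤ k) (hl : l ≤ k) (hp : b + p = 3 * k + 1) :
    1 ≤ rr u v i (k - i) + rr u v j (k - j) + rr u v l (k - l) := by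
  have key : ∀ (σ : Equiv.Perm (Fin b)) (τ : Equiv.Perm (Fin p)),
      1 ≤ ib u v ((win b 0 i).map σ.toEmbedding) ((win p 0 (k - i)).map τ.toEmbedding) +
        ib u v ((win b i (i + j)).map σ.toEmbedding)
          ((win p (k - i) (k - i + (k - j))).map τ.toEmbedding) +
        ib u v ((win b (i + j) (i + j + l)).map σ.toEmbedding)
          ((win p (k - i + (k - j)) p).map τ.toEmbedding) := by
    intro σ τ
    by_contra hcon
    push_neg at hcon
    have e1 := ib_nonneg u v ((win b 0 i).map σ.toEmbedding)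
      ((win p 0 (k - i)).map τ.toEmbedding)
    have e2 := ib_nonneg u v ((win b i (i + j)).map σ.toEmbedding)
      ((win p (k - i) (k - i + (k - j))).map τ.toEmbedding)
    have e3 := ib_nonneg u v ((win b (i + j) (i + j + l)).map σ.toEmbedding)
      ((win p (k - i + (k - j)) p).map τ.toEmbedding)
    have g : ∀ (I : Finset (Fin b)) (J : Finset (Fin p)), ib u v I J < 1 →
        1 ≤ ∑ a ∈ I, u a + ∑ c ∈ J, v c := by
      intro I J h
      by_contra h2
      push_neg at h2
      unfold ib at h
      rw [if_pos h2] at h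
      exact lt_irrefl _ h
    have f1 := g _ _ (by linarith : ib u v ((win b 0 i).map σ.toEmbedding)
      ((win p 0 (k - i)).map τ.toEmbedding) < 1)
    have f2 := g _ _ (by linarith : ib u v ((win b i (i + j)).map σ.toEmbedding)
      ((win p (k - i) (k - i + (k - j))).map τ.toEmbedding) < 1)
    have f3 := g _ _ (by linarith : ib u v ((win b (i + j) (i + j + l)).map σ.toEmbedding)
      ((win p (k - i + (k - j)) p).map τ.toEmbedding) < 1)
    rw [sum_win u σ (by omega), sum_win v τ (by omega)] at f1 f2 f3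
    have hlast : θ ≤ pre u σ b - pre u σ (i + j + l) := by
      rw [← sum_win u σ (by omega : i + j + l ≤ b)]
      have hc : ((win b (i + j + l) b).map σ.toEmbedding).card = 1 := by
        rw [Finset.card_map, card_win le_rfl]; omega
      obtain ⟨a, ha⟩ := Finset.card_eq_one.mp hc
      rw [ha, Finset.sum_singleton]
      exact hu a
    rw [pre_full] at hlast
    rw [pre_full] at f3
    rw [pre_zero, pre_zero] at f1
    linarith
  have hsum : (∑ _σ : Equiv.Perm (Fin b), ∑ _τ : Equiv.Perm (Fin p), (1 : ℝ)) ≤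
      ∑ σ : Equiv.Perm (Fin b), ∑ τ : Equiv.Perm (Fin p),
      (ib u v ((win b 0 i).map σ.toEmbedding) ((win p 0 (k - i)).map τ.toEmbedding) +
        ib u v ((win b i (i + j)).map σ.toEmbedding)
          ((win p (k - i) (k - i + (k - j))).map τ.toEmbedding) +
        ib u v ((win b (i + j) (i + j + l)).map σ.toEmbedding)
          ((win p (k - i + (k - j)) p).map τ.toEmbedding)) := by
    apply Finset.sum_le_sum
    intro σ _
    apply Finset.sum_le_sum
    intro τ _
    exact key σ τ
  simp only [Finset.sum_add_distrib] at hsum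
  rw [avg_rr, avg_rr, avg_rr, card_win (by omega), card_win (by omega), card_win (by omega),
    card_win (by omega), card_win (by omega), card_win (by omega)] at hsum
  simp only [Finset.sum_const, Finset.card_univ, Fintype.card_perm, Fintype.card_fin,
    nsmul_eq_mul, mul_one] at hsum
  have i1 : i - 0 = i := by omega
  have i2 : k - i - 0 = k - i := by omega
  have i3 : i + j - i = j := by omega
  have i4 : k - i + (k - j) - (k - i) = k - j := by omega
  have i5 : i + j + l - (i + j) = l := by omega
  have i6 : p - (k - i + (k - j)) = k - l := by omega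
  rw [i1, i2, i3, i4, i5, i6] at hsum
  have hb0 : (0 : ℝ) < (b.factorial : ℝ) := by exact_mod_cast Nat.factorial_pos b
  have hp0 : (0 : ℝ) < (p.factorial : ℝ) := by exact_mod_cast Nat.factorial_pos p
  have hbp : 0 < (b.factorial : ℝ) * (p.factorial : ℝ) := mul_pos hb0 hp0
  by_contra hcon
  push_neg at hcon
  have := mul_lt_mul_of_pos_left hcon hbp
  nlinarith

end Pool.Agent.KR3
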