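import Pool.Agent.KR3.NumC
import Pool.Agent.KR3.NumD
import Pool.Agent.KR3.NumE
import Pool.Agent.KR3.NumF

/-!
The linear programs over the types, for `4` to `11` elements in the first class.
-/

namespace Pool.Agent.KR3

open Finset

theorem fin4 (k p : ℕ) (hbp : 4 + p = 3 * k + 1) (hp : 0 < p) (r : ℕ → ℝ)
    (hr : ∀ j, 0 ≤ r j) (hr0 : ((p.choose k : ℕ) : ℝ) * r 0 = ((p.choose k : ℕ) : ℝ))
    (htr : ∀ i j l : ℕ, i + j + l + 1 = 4 → i ≤ k → j ≤ k → l ≤ k → 1 ≤ r i + r j + r l) :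
    (((3 * k - 2).choose k : ℕ) : ℝ) ≤ ∑ j ∈ range (k + 1),
      (((4 : ℕ).choose j : ℕ) : ℝ) * ((p.choose (k - j) : ℕ) : ℝ) * r j := by
  rcases Nat.lt_or_ge k 2 with hk | hk
  · omega
  · obtain ⟨x, rfl⟩ : ∃ x, k = x + 2 := ⟨k - 2, by omega⟩
    obtain rfl : p = 3 * x + 3 := by omega
    have hs : ∑ j ∈ range 2, (((4 : ℕ).choose j : ℕ) : ℝ) *
        (((3 * x + 3).choose (x + 2 - j) : ℕ) : ℝ) * r j ≤ ∑ j ∈ range (x + 2 + 1),
        (((4 : ℕ).choose j : ℕ) : ℝ) * (((3 * x + 3).choose (x + 2 - j) : ℕ) : ℝ) * r j := by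
      apply Finset.sum_le_sum_of_subset_of_nonneg
      · intro j hj; rw [mem_range] at hj ⊢; omega
      · intro j _ _; exact mul_nonneg (by positivity) (hr j)
    refine le_trans ?_ hs
    have key := num4 x (r 1)
      (hr 1)
      (htr 1 1 1 (by norm_num) (by omega) (by omega) (by omega))
    have c0 : (((4 : ℕ).choose 0 : ℕ) : ℝ) = 1 := by norm_num [Nat.choose]
    have c1 : (((4 : ℕ).choose 1 : ℕ) : ℝ) = 4 := by norm_num [Nat.choose]
    have i0 : x + 2 - 0 = x + 2 := by omega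
    have i1 : x + 2 - 1 = x + 1 := by omega
    have iT : 3 * (x + 2) - 2 = 3 * x + 4 := by omega
    rw [iT]
    simp only [Finset.sum_range_succ, Finset.sum_range_zero, zero_add]
    rw [c0, i0, c1, i1]
    linarith [hr0]

theorem fin5 (k p : ℕ) (hbp : 5 + p = 3 * k + 1) (hp : 0 < p) (r : ℕ → ℝ)
    (hr : ∀ j, 0 ≤ r j) (hr0 : ((p.choose k : ℕ) : ℝ) * r 0 = ((p.choose k : ℕ) : ℝ))
    (htr : ∀ i j l : ℕ, i + j + l + 1 = 5 → i ≤ k → j ≤ k → l ≤ k → 1 ≤ r i + r j + r l) :
    (((3 * k - 2).choose k : ℕ) : ℝ) ≤ ∑ j ∈ range (k + 1),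
      (((5 : ℕ).choose j : ℕ) : ℝ) * ((p.choose (k - j) : ℕ) : ℝ) * r j := by
  rcases Nat.lt_or_ge k 2 with hk | hk
  · omega
  · obtain ⟨x, rfl⟩ : ∃ x, k = x + 2 := ⟨k - 2, by omega⟩
    obtain rfl : p = 3 * x + 2 := by omega
    have hs : ∑ j ∈ range 3, (((5 : ℕ).choose j : ℕ) : ℝ) *
        (((3 * x + 2).choose (x + 2 - j) : ℕ) : ℝ) * r j ≤ ∑ j ∈ range (x + 2 + 1),
        (((5 : ℕ).choose j : ℕ) : ℝ) * (((3 * x + 2).choose (x + 2 - j) : ℕ) : ℝ) * r j := by
      apply Finset.sum_le_sum_of_subset_of_nonneg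
      · intro j hj; rw [mem_range] at hj ⊢; omega
      · intro j _ _; exact mul_nonneg (by positivity) (hr j)
    refine le_trans ?_ hs
    have key := num5 x (r 1) (r 2)
      (hr 1) (hr 2)
      (htr 1 1 2 (by norm_num) (by omega) (by omega) (by omega))
    have c0 : (((5 : ℕ).choose 0 : ℕ) : ℝ) = 1 := by norm_num [Nat.choose]
    have c1 : (((5 : ℕ).choose 1 : ℕ) : ℝ) = 5 := by norm_num [Nat.choose]
    have c2 : (((5 : ℕ).choose 2 : ℕ) : ℝ) = 10 := by norm_num [Nat.choose]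
    have i0 : x + 2 - 0 = x + 2 := by omega
    have i1 : x + 2 - 1 = x + 1 := by omega
    have i2 : x + 2 - 2 = x := by omega
    have iT : 3 * (x + 2) - 2 = 3 * x + 4 := by omega
    rw [iT]
    simp only [Finset.sum_range_succ, Finset.sum_range_zero, zero_add]
    rw [c0, i0, c1, i1, c2, i2]
    linarith [hr0]

theorem fin6 (k p : ℕ) (hbp : 6 + p = 3 * k + 1) (hp : 0 < p) (r : ℕ → ℝ)
    (hr : ∀ j, 0 ≤ r j) (hr0 : ((p.choose k : ℕ) : ℝ) * r 0 = ((p.choose k : ℕ) : ℝ))
    (htr : ∀ i j l : ℕ, i + j + l + 1 = 6 → i ≤ k → j ≤ k → l ≤ k → 1 ≤ r i + r j + r l) :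
    (((3 * k - 2).choose k : ℕ) : ℝ) ≤ ∑ j ∈ range (k + 1),
      (((6 : ℕ).choose j : ℕ) : ℝ) * ((p.choose (k - j) : ℕ) : ℝ) * r j := by
  rcases Nat.lt_or_ge k 3 with hk | hk
  · obtain rfl : k = 2 := by omega
    · obtain rfl : p = 1 := by omega
      have t0 := htr 1 2 2 (by norm_num) (by norm_num) (by norm_num) (by norm_num)
      have h0 := hr 0
      have h1 := hr 1
      have h2 := hr 2
      norm_num [Nat.choose] at hr0
      norm_num [Finset.sum_range_succ, Nat.choose]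
      linarith
  · obtain ⟨x, rfl⟩ : ∃ x, k = x + 3 := ⟨k - 3, by omega⟩
    obtain rfl : p = 3 * x + 4 := by omega
    have hs : ∑ j ∈ range 4, (((6 : ℕ).choose j : ℕ) : ℝ) *
        (((3 * x + 4).choose (x + 3 - j) : ℕ) : ℝ) * r j ≤ ∑ j ∈ range (x + 3 + 1),
        (((6 : ℕ).choose j : ℕ) : ℝ) * (((3 * x + 4).choose (x + 3 - j) : ℕ) : ℝ) * r j := by
      apply Finset.sum_le_sum_of_subset_of_nonneg
      · intro j hj; rw [mem_range] at hj ⊢; omega
      · intro j _ _; exact mul_nonneg (by positivity) (hr j)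
    refine le_trans ?_ hs
    have key := num6 x (r 1) (r 2) (r 3)
      (hr 1) (hr 2) (hr 3)
      (htr 1 1 3 (by norm_num) (by omega) (by omega) (by omega))
      (htr 1 2 2 (by norm_num) (by omega) (by omega) (by omega))
    have c0 : (((6 : ℕ).choose 0 : ℕ) : ℝ) = 1 := by norm_num [Nat.choose]
    have c1 : (((6 : ℕ).choose 1 : ℕ) : ℝ) = 6 := by norm_num [Nat.choose]
    have c2 : (((6 : ℕ).choose 2 : ℕ) : ℝ) = 15 := by norm_num [Nat.choose]
    have c3 : (((6 : ℕ).choose 3 : ℕ) : ℝ) = 20 := by norm_num [Nat.choose]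
    have i0 : x + 3 - 0 = x + 3 := by omega
    have i1 : x + 3 - 1 = x + 2 := by omega
    have i2 : x + 3 - 2 = x + 1 := by omega
    have i3 : x + 3 - 3 = x := by omega
    have iT : 3 * (x + 3) - 2 = 3 * x + 7 := by omega
    rw [iT]
    simp only [Finset.sum_range_succ, Finset.sum_range_zero, zero_add]
    rw [c0, i0, c1, i1, c2, i2, c3, i3]
    linarith [hr0]

theorem fin7 (k p : ℕ) (hbp : 7 + p = 3 * k + 1) (hp : 0 < p) (r : ℕ → ℝ)
    (hr : ∀ j, 0 ≤ r j) (hr0 : ((p.choose k : ℕ) : ℝ) * r 0 = ((p.choose k : ℕ) : ℝ))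
    (htr : ∀ i j l : ℕ, i + j + l + 1 = 7 → i ≤ k → j ≤ k → l ≤ k → 1 ≤ r i + r j + r l) :
    (((3 * k - 2).choose k : ℕ) : ℝ) ≤ ∑ j ∈ range (k + 1),
      (((7 : ℕ).choose j : ℕ) : ℝ) * ((p.choose (k - j) : ℕ) : ℝ) * r j := by
  rcases Nat.lt_or_ge k 4 with hk | hk
  · obtain rfl : k = 3 := by omega
    · obtain rfl : p = 3 := by omega
      have t0 := htr 0 3 3 (by norm_num) (by norm_num) (by norm_num) (by norm_num)
      have t1 := htr 1 2 3 (by norm_num) (by norm_num) (by norm_num) (by norm_num)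
      have t2 := htr 2 2 2 (by norm_num) (by norm_num) (by norm_num) (by norm_num)
      have h0 := hr 0
      have h1 := hr 1
      have h2 := hr 2
      have h3 := hr 3
      norm_num [Nat.choose] at hr0
      norm_num [Finset.sum_range_succ, Nat.choose]
      linarith
  · obtain ⟨x, rfl⟩ : ∃ x, k = x + 4 := ⟨k - 4, by omega⟩
    obtain rfl : p = 3 * x + 6 := by omega
    have hs : ∑ j ∈ range 4, (((7 : ℕ).choose j : ℕ) : ℝ) *
        (((3 * x + 6).choose (x + 4 - j) : ℕ) : ℝ) * r j ≤ ∑ j ∈ range (x + 4 + 1),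
        (((7 : ℕ).choose j : ℕ) : ℝ) * (((3 * x + 6).choose (x + 4 - j) : ℕ) : ℝ) * r j := by
      apply Finset.sum_le_sum_of_subset_of_nonneg
      · intro j hj; rw [mem_range] at hj ⊢; omega
      · intro j _ _; exact mul_nonneg (by positivity) (hr j)
    refine le_trans ?_ hs
    have key := num7 x (r 1) (r 2) (r 3)
      (hr 1) (hr 2) (hr 3)
      (htr 1 2 3 (by norm_num) (by omega) (by omega) (by omega))
      (htr 2 2 2 (by norm_num) (by omega) (by omega) (by omega))
    have c0 : (((7 : ℕ).choose 0 : ℕ) : ℝ) = 1 := by norm_num [Nat.choose]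
    have c1 : (((7 : ℕ).choose 1 : ℕ) : ℝ) = 7 := by norm_num [Nat.choose]
    have c2 : (((7 : ℕ).choose 2 : ℕ) : ℝ) = 21 := by norm_num [Nat.choose]
    have c3 : (((7 : ℕ).choose 3 : ℕ) : ℝ) = 35 := by norm_num [Nat.choose]
    have i0 : x + 4 - 0 = x + 4 := by omega
    have i1 : x + 4 - 1 = x + 3 := by omega
    have i2 : x + 4 - 2 = x + 2 := by omega
    have i3 : x + 4 - 3 = x + 1 := by omega
    have iT : 3 * (x + 4) - 2 = 3 * x + 10 := by omega
    rw [iT]
    simp only [Finset.sum_range_succ, Finset.sum_range_zero, zero_add]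
    rw [c0, i0, c1, i1, c2, i2, c3, i3]
    linarith [hr0]

theorem fin8 (k p : ℕ) (hbp : 8 + p = 3 * k + 1) (hp : 0 < p) (r : ℕ → ℝ)
    (hr : ∀ j, 0 ≤ r j) (hr0 : ((p.choose k : ℕ) : ℝ) * r 0 = ((p.choose k : ℕ) : ℝ))
    (htr : ∀ i j l : ℕ, i + j + l + 1 = 8 → i ≤ k → j ≤ k → l ≤ k → 1 ≤ r i + r j + r l) :
    (((3 * k - 2).choose k : ℕ) : ℝ) ≤ ∑ j ∈ range (k + 1),
      (((8 : ℕ).choose j : ℕ) : ℝ) * ((p.choose (k - j) : ℕ) : ℝ) * r j := by
  rcases Nat.lt_or_ge k 4 with hk | hk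
  · obtain rfl : k = 3 := by omega
    · obtain rfl : p = 2 := by omega
      have t0 := htr 1 3 3 (by norm_num) (by norm_num) (by norm_num) (by norm_num)
      have t1 := htr 2 2 3 (by norm_num) (by norm_num) (by norm_num) (by norm_num)
      have h0 := hr 0
      have h1 := hr 1
      have h2 := hr 2
      have h3 := hr 3
      norm_num [Nat.choose] at hr0
      norm_num [Finset.sum_range_succ, Nat.choose]
      linarith
  · obtain ⟨x, rfl⟩ : ∃ x, k = x + 4 := ⟨k - 4, by omega⟩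
    obtain rfl : p = 3 * x + 5 := by omega
    have hs : ∑ j ∈ range 5, (((8 : ℕ).choose j : ℕ) : ℝ) *
        (((3 * x + 5).choose (x + 4 - j) : ℕ) : ℝ) * r j ≤ ∑ j ∈ range (x + 4 + 1),
        (((8 : ℕ).choose j : ℕ) : ℝ) * (((3 * x + 5).choose (x + 4 - j) : ℕ) : ℝ) * r j := by
      apply Finset.sum_le_sum_of_subset_of_nonneg
      · intro j hj; rw [mem_range] at hj ⊢; omega
      · intro j _ _; exact mul_nonneg (by positivity) (hr j)
    refine le_trans ?_ hs
    have key := num8 x (r 1) (r 2) (r 3) (r 4)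
      (hr 1) (hr 2) (hr 3) (hr 4)
      (htr 1 2 4 (by norm_num) (by omega) (by omega) (by omega))
      (htr 1 3 3 (by norm_num) (by omega) (by omega) (by omega))
      (htr 2 2 3 (by norm_num) (by omega) (by omega) (by omega))
    have c0 : (((8 : ℕ).choose 0 : ℕ) : ℝ) = 1 := by norm_num [Nat.choose]
    have c1 : (((8 : ℕ).choose 1 : ℕ) : ℝ) = 8 := by norm_num [Nat.choose]
    have c2 : (((8 : ℕ).choose 2 : ℕ) : ℝ) = 28 := by norm_num [Nat.choose]
    have c3 : (((8 : ℕ).choose 3 : ℕ) : ℝ) = 56 := by norm_num [Nat.choose]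
    have c4 : (((8 : ℕ).choose 4 : ℕ) : ℝ) = 70 := by norm_num [Nat.choose]
    have i0 : x + 4 - 0 = x + 4 := by omega
    have i1 : x + 4 - 1 = x + 3 := by omega
    have i2 : x + 4 - 2 = x + 2 := by omega
    have i3 : x + 4 - 3 = x + 1 := by omega
    have i4 : x + 4 - 4 = x := by omega
    have iT : 3 * (x + 4) - 2 = 3 * x + 10 := by omega
    rw [iT]
    simp only [Finset.sum_range_succ, Finset.sum_range_zero, zero_add]
    rw [c0, i0, c1, i1, c2, i2, c3, i3, c4, i4]
    linarith [hr0]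

theorem fin9 (k p : ℕ) (hbp : 9 + p = 3 * k + 1) (hp : 0 < p) (r : ℕ → ℝ)
    (hr : ∀ j, 0 ≤ r j) (hr0 : ((p.choose k : ℕ) : ℝ) * r 0 = ((p.choose k : ℕ) : ℝ))
    (htr : ∀ i j l : ℕ, i + j + l + 1 = 9 → i ≤ k → j ≤ k → l ≤ k → 1 ≤ r i + r j + r l) :
    (((3 * k - 2).choose k : ℕ) : ℝ) ≤ ∑ j ∈ range (k + 1),
      (((9 : ℕ).choose j : ℕ) : ℝ) * ((p.choose (k - j) : ℕ) : ℝ) * r j := by
  rcases Nat.lt_or_ge k 5 with hk | hk
  · obtain rfl | rfl : k = 3 ∨ k = 4 := by omega
    · obtain rfl : p = 1 := by omega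
      have t0 := htr 2 3 3 (by norm_num) (by norm_num) (by norm_num) (by norm_num)
      have h0 := hr 0
      have h1 := hr 1
      have h2 := hr 2
      have h3 := hr 3
      norm_num [Nat.choose] at hr0
      norm_num [Finset.sum_range_succ, Nat.choose]
      linarith
    · obtain rfl : p = 4 := by omega
      have t0 := htr 0 4 4 (by norm_num) (by norm_num) (by norm_num) (by norm_num)
      have t1 := htr 1 3 4 (by norm_num) (by norm_num) (by norm_num) (by norm_num)
      have t2 := htr 2 2 4 (by norm_num) (by norm_num) (by norm_num) (by norm_num)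
      have t3 := htr 2 3 3 (by norm_num) (by norm_num) (by norm_num) (by norm_num)
      have h0 := hr 0
      have h1 := hr 1
      have h2 := hr 2
      have h3 := hr 3
      have h4 := hr 4
      norm_num [Nat.choose] at hr0
      norm_num [Finset.sum_range_succ, Nat.choose]
      linarith
  · obtain ⟨x, rfl⟩ : ∃ x, k = x + 5 := ⟨k - 5, by omega⟩
    obtain rfl : p = 3 * x + 7 := by omega
    have hs : ∑ j ∈ range 5, (((9 : ℕ).choose j : ℕ) : ℝ) *
        (((3 * x + 7).choose (x + 5 - j) : ℕ) : ℝ) * r j ≤ ∑ j ∈ range (x + 5 + 1),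
        (((9 : ℕ).choose j : ℕ) : ℝ) * (((3 * x + 7).choose (x + 5 - j) : ℕ) : ℝ) * r j := by
      apply Finset.sum_le_sum_of_subset_of_nonneg
      · intro j hj; rw [mem_range] at hj ⊢; omega
      · intro j _ _; exact mul_nonneg (by positivity) (hr j)
    refine le_trans ?_ hs
    have key := num9 x (r 1) (r 2) (r 3) (r 4)
      (hr 1) (hr 2) (hr 3) (hr 4)
      (htr 1 3 4 (by norm_num) (by omega) (by omega) (by omega))
      (htr 2 3 3 (by norm_num) (by omega) (by omega) (by omega))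
      (htr 2 2 4 (by norm_num) (by omega) (by omega) (by omega))
    have c0 : (((9 : ℕ).choose 0 : ℕ) : ℝ) = 1 := by norm_num [Nat.choose]
    have c1 : (((9 : ℕ).choose 1 : ℕ) : ℝ) = 9 := by norm_num [Nat.choose]
    have c2 : (((9 : ℕ).choose 2 : ℕ) : ℝ) = 36 := by norm_num [Nat.choose]
    have c3 : (((9 : ℕ).choose 3 : ℕ) : ℝ) = 84 := by norm_num [Nat.choose]
    have c4 : (((9 : ℕ).choose 4 : ℕ) : ℝ) = 126 := by norm_num [Nat.choose]
    have i0 : x + 5 - 0 = x + 5 := by omega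
    have i1 : x + 5 - 1 = x + 4 := by omega
    have i2 : x + 5 - 2 = x + 3 := by omega
    have i3 : x + 5 - 3 = x + 2 := by omega
    have i4 : x + 5 - 4 = x + 1 := by omega
    have iT : 3 * (x + 5) - 2 = 3 * x + 13 := by omega
    rw [iT]
    simp only [Finset.sum_range_succ, Finset.sum_range_zero, zero_add]
    rw [c0, i0, c1, i1, c2, i2, c3, i3, c4, i4]
    linarith [hr0]

theorem fin10 (k p : ℕ) (hbp : 10 + p = 3 * k + 1) (hp : 0 < p) (r : ℕ → ℝ)
    (hr : ∀ j, 0 ≤ r j) (hr0 : ((p.choose k : ℕ) : ℝ) * r 0 = ((p.choose k : ℕ) : ℝ))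
    (htr : ∀ i j l : ℕ, i + j + l + 1 = 10 → i ≤ k → j ≤ k → l ≤ k → 1 ≤ r i + r j + r l) :
    (((3 * k - 2).choose k : ℕ) : ℝ) ≤ ∑ j ∈ range (k + 1),
      (((10 : ℕ).choose j : ℕ) : ℝ) * ((p.choose (k - j) : ℕ) : ℝ) * r j := by
  rcases Nat.lt_or_ge k 6 with hk | hk
  · obtain rfl | rfl : k = 4 ∨ k = 5 := by omega
    · obtain rfl : p = 3 := by omega
      have t0 := htr 1 4 4 (by norm_num) (by norm_num) (by norm_num) (by norm_num)
      have t1 := htr 2 3 4 (by norm_num) (by norm_num) (by norm_num) (by norm_num)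
      have t2 := htr 3 3 3 (by norm_num) (by norm_num) (by norm_num) (by norm_num)
      have h0 := hr 0
      have h1 := hr 1
      have h2 := hr 2
      have h3 := hr 3
      have h4 := hr 4
      norm_num [Nat.choose] at hr0
      norm_num [Finset.sum_range_succ, Nat.choose]
      linarith
    · obtain rfl : p = 6 := by omega
      have t0 := htr 0 4 5 (by norm_num) (by norm_num) (by norm_num) (by norm_num)
      have t1 := htr 1 3 5 (by norm_num) (by norm_num) (by norm_num) (by norm_num)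
      have t2 := htr 1 4 4 (by norm_num) (by norm_num) (by norm_num) (by norm_num)
      have t3 := htr 2 2 5 (by norm_num) (by norm_num) (by norm_num) (by norm_num)
      have t4 := htr 2 3 4 (by norm_num) (by norm_num) (by norm_num) (by norm_num)
      have t5 := htr 3 3 3 (by norm_num) (by norm_num) (by norm_num) (by norm_num)
      have h0 := hr 0
      have h1 := hr 1
      have h2 := hr 2
      have h3 := hr 3
      have h4 := hr 4
      have h5 := hr 5
      norm_num [Nat.choose] at hr0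
      norm_num [Finset.sum_range_succ, Nat.choose]
      linarith
  · obtain ⟨x, rfl⟩ : ∃ x, k = x + 6 := ⟨k - 6, by omega⟩
    obtain rfl : p = 3 * x + 9 := by omega
    have hs : ∑ j ∈ range 6, (((10 : ℕ).choose j : ℕ) : ℝ) *
        (((3 * x + 9).choose (x + 6 - j) : ℕ) : ℝ) * r j ≤ ∑ j ∈ range (x + 6 + 1),
        (((10 : ℕ).choose j : ℕ) : ℝ) * (((3 * x + 9).choose (x + 6 - j) : ℕ) : ℝ) * r j := by
      apply Finset.sum_le_sum_of_subset_of_nonneg
      · intro j hj; rw [mem_range] at hj ⊢; omega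
      · intro j _ _; exact mul_nonneg (by positivity) (hr j)
    refine le_trans ?_ hs
    have key := num10 x (r 1) (r 2) (r 3) (r 4) (r 5)
      (hr 1) (hr 2) (hr 3) (hr 4) (hr 5)
      (htr 1 3 5 (by norm_num) (by omega) (by omega) (by omega))
      (htr 1 4 4 (by norm_num) (by omega) (by omega) (by omega))
      (htr 2 2 5 (by norm_num) (by omega) (by omega) (by omega))
      (htr 2 3 4 (by norm_num) (by omega) (by omega) (by omega))
      (htr 3 3 3 (by norm_num) (by omega) (by omega) (by omega))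
    have c0 : (((10 : ℕ).choose 0 : ℕ) : ℝ) = 1 := by norm_num [Nat.choose]
    have c1 : (((10 : ℕ).choose 1 : ℕ) : ℝ) = 10 := by norm_num [Nat.choose]
    have c2 : (((10 : ℕ).choose 2 : ℕ) : ℝ) = 45 := by norm_num [Nat.choose]
    have c3 : (((10 : ℕ).choose 3 : ℕ) : ℝ) = 120 := by norm_num [Nat.choose]
    have c4 : (((10 : ℕ).choose 4 : ℕ) : ℝ) = 210 := by norm_num [Nat.choose]
    have c5 : (((10 : ℕ).choose 5 : ℕ) : ℝ) = 252 := by norm_num [Nat.choose]
    have i0 : x + 6 - 0 = x + 6 := by omega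
    have i1 : x + 6 - 1 = x + 5 := by omega
    have i2 : x + 6 - 2 = x + 4 := by omega
    have i3 : x + 6 - 3 = x + 3 := by omega
    have i4 : x + 6 - 4 = x + 2 := by omega
    have i5 : x + 6 - 5 = x + 1 := by omega
    have iT : 3 * (x + 6) - 2 = 3 * x + 16 := by omega
    rw [iT]
    simp only [Finset.sum_range_succ, Finset.sum_range_zero, zero_add]
    rw [c0, i0, c1, i1, c2, i2, c3, i3, c4, i4, c5, i5]
    linarith [hr0]

theorem fin11 (k p : ℕ) (hbp : 11 + p = 3 * k + 1) (hp : 0 < p) (r : ℕ → ℝ)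
    (hr : ∀ j, 0 ≤ r j)
    (htr : ∀ i j l : ℕ, i + j + l + 1 = 11 → i ≤ k → j ≤ k → l ≤ k → 1 ≤ r i + r j + r l) :
    (((3 * k - 2).choose k : ℕ) : ℝ) ≤ ∑ j ∈ range (k + 1),
      (((11 : ℕ).choose j : ℕ) : ℝ) * ((p.choose (k - j) : ℕ) : ℝ) * r j := by
  rcases Nat.lt_or_ge k 6 with hk | hk
  · obtain rfl | rfl : k = 4 ∨ k = 5 := by omega
    · obtain rfl : p = 2 := by omega
      have t0 := htr 2 4 4 (by norm_num) (by norm_num) (by norm_num) (by norm_num)
      have t1 := htr 3 3 4 (by norm_num) (by norm_num) (by norm_num) (by norm_num)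
      have h0 := hr 0
      have h1 := hr 1
      have h2 := hr 2
      have h3 := hr 3
      have h4 := hr 4
      norm_num [Finset.sum_range_succ, Nat.choose]
      linarith
    · obtain rfl : p = 5 := by omega
      have t0 := htr 0 5 5 (by norm_num) (by norm_num) (by norm_num) (by norm_num)
      have t1 := htr 1 4 5 (by norm_num) (by norm_num) (by norm_num) (by norm_num)
      have t2 := htr 2 3 5 (by norm_num) (by norm_num) (by norm_num) (by norm_num)
      have t3 := htr 2 4 4 (by norm_num) (by norm_num) (by norm_num) (by norm_num)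
      have t4 := htr 3 3 4 (by norm_num) (by norm_num) (by norm_num) (by norm_num)
      have h0 := hr 0
      have h1 := hr 1
      have h2 := hr 2
      have h3 := hr 3
      have h4 := hr 4
      have h5 := hr 5
      norm_num [Finset.sum_range_succ, Nat.choose]
      linarith
  · obtain ⟨x, rfl⟩ : ∃ x, k = x + 6 := ⟨k - 6, by omega⟩
    obtain rfl : p = 3 * x + 8 := by omega
    have hs : ∑ j ∈ range 7, (((11 : ℕ).choose j : ℕ) : ℝ) *
        (((3 * x + 8).choose (x + 6 - j) : ℕ) : ℝ) * r j ≤ ∑ j ∈ range (x + 6 + 1),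
        (((11 : ℕ).choose j : ℕ) : ℝ) * (((3 * x + 8).choose (x + 6 - j) : ℕ) : ℝ) * r j := by
      apply Finset.sum_le_sum_of_subset_of_nonneg
      · intro j hj; rw [mem_range] at hj ⊢; omega
      · intro j _ _; exact mul_nonneg (by positivity) (hr j)
    refine le_trans ?_ hs
    have key := num11 x (r 0) (r 1) (r 2) (r 3) (r 4) (r 5) (r 6)
      (hr 0) (hr 1) (hr 2) (hr 3) (hr 4) (hr 5) (hr 6)
      (htr 0 4 6 (by norm_num) (by omega) (by omega) (by omega))
      (htr 2 2 6 (by norm_num) (by omega) (by omega) (by omega))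
      (htr 1 4 5 (by norm_num) (by omega) (by omega) (by omega))
      (htr 2 3 5 (by norm_num) (by omega) (by omega) (by omega))
      (htr 2 4 4 (by norm_num) (by omega) (by omega) (by omega))
      (htr 3 3 4 (by norm_num) (by omega) (by omega) (by omega))
    have c0 : (((11 : ℕ).choose 0 : ℕ) : ℝ) = 1 := by norm_num [Nat.choose]
    have c1 : (((11 : ℕ).choose 1 : ℕ) : ℝ) = 11 := by norm_num [Nat.choose]
    have c2 : (((11 : ℕ).choose 2 : ℕ) : ℝ) = 55 := by norm_num [Nat.choose]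
    have c3 : (((11 : ℕ).choose 3 : ℕ) : ℝ) = 165 := by norm_num [Nat.choose]
    have c4 : (((11 : ℕ).choose 4 : ℕ) : ℝ) = 330 := by norm_num [Nat.choose]
    have c5 : (((11 : ℕ).choose 5 : ℕ) : ℝ) = 462 := by norm_num [Nat.choose]
    have c6 : (((11 : ℕ).choose 6 : ℕ) : ℝ) = 462 := by norm_num [Nat.choose]
    have i0 : x + 6 - 0 = x + 6 := by omega
    have i1 : x + 6 - 1 = x + 5 := by omega
    have i2 : x + 6 - 2 = x + 4 := by omega
    have i3 : x + 6 - 3 = x + 3 := by omega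
    have i4 : x + 6 - 4 = x + 2 := by omega
    have i5 : x + 6 - 5 = x + 1 := by omega
    have i6 : x + 6 - 6 = x := by omega
    have iT : 3 * (x + 6) - 2 = 3 * x + 16 := by omega
    rw [iT]
    simp only [Finset.sum_range_succ, Finset.sum_range_zero, zero_add]
    rw [c0, i0, c1, i1, c2, i2, c3, i3, c4, i4, c5, i5, c6, i6]
    linarith

end Pool.Agent.KR3
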