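import Pool.Agent.KR3.Main
import Pool.Agent.KR3.Two
import Pool.Agent.KR3.Types

/-!
Total dose less than `3 + 1 / k`: at least `C(n - 3, k)` of the `k`-subsets have dose less than 1
when `3 k < n`.
-/

namespace Pool.Agent.KR3

open Finset

variable {ι : Type*} [DecidableEq ι]

theorem split_count2 (S Z : Finset ι) (hd : Disjoint S Z) (h : ι → ℝ) (k : ℕ) :
    NL (S ∪ Z) h k = ∑ j ∈ range (k + 1), ∑ A ∈ S.powersetCard j,
      ((Z.powersetCard (k - j)).filter (fun B => ∑ i ∈ A, h i + ∑ i ∈ B, h i < 1)).card := by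
  unfold NL
  rw [Finset.card_eq_sum_card_fiberwise (f := fun V => (V ∩ S).card) (t := range (k + 1))]
  · apply Finset.sum_congr rfl
    intro j hj
    rw [mem_range] at hj
    rw [← Finset.card_sigma]
    apply Finset.card_bij (fun V _ => ⟨V ∩ S, V ∩ Z⟩)
    · intro V hV
      simp only [mem_filter, mem_powersetCard] at hV
      obtain ⟨⟨⟨hVs, hVc⟩, hP⟩, hj2⟩ := hV
      have hVe : V = (V ∩ S) ∪ (V ∩ Z) := by
        rw [← Finset.inter_union_distrib_left]
        exact (Finset.inter_eq_left.mpr hVs).symm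
      have hdis : Disjoint (V ∩ S) (V ∩ Z) :=
        Disjoint.mono inter_subset_right inter_subset_right hd
      have hc : V.card = (V ∩ S).card + (V ∩ Z).card := by
        conv_lhs => rw [hVe]
        exact Finset.card_union_of_disjoint hdis
      simp only [mem_sigma, mem_filter, mem_powersetCard]
      refine ⟨⟨inter_subset_right, hj2⟩, ⟨inter_subset_right, by omega⟩, ?_⟩
      rw [← Finset.sum_union hdis, ← hVe]
      exact hP
    · intro V hV W hW heq
      simp only [mem_filter, mem_powersetCard] at hV hW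
      have h1 : V ∩ S = W ∩ S := congrArg Sigma.fst heq
      have h2 : V ∩ Z = W ∩ Z := by
        have := (Sigma.mk.inj_iff.mp heq).2
        exact eq_of_heq this
      have hVe : V = (V ∩ S) ∪ (V ∩ Z) := by
        rw [← Finset.inter_union_distrib_left]
        exact (Finset.inter_eq_left.mpr hV.1.1.1).symm
      have hWe : W = (W ∩ S) ∪ (W ∩ Z) := by
        rw [← Finset.inter_union_distrib_left]
        exact (Finset.inter_eq_left.mpr hW.1.1.1).symm
      rw [hVe, hWe, h1, h2]
    · rintro ⟨W, U⟩ hWU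
      simp only [mem_sigma, mem_filter, mem_powersetCard] at hWU
      obtain ⟨⟨hW1, hW2⟩, ⟨hU1, hU2⟩, hP⟩ := hWU
      have hdis : Disjoint W U := Disjoint.mono hW1 hU1 hd
      have i1 : (W ∪ U) ∩ S = W := by
        rw [Finset.union_inter_distrib_right, Finset.inter_eq_left.mpr hW1]
        have : U ∩ S = ∅ := by
          rw [← Finset.disjoint_iff_inter_eq_empty]
          exact Disjoint.mono_left hU1 hd.symm
        rw [this, Finset.union_empty]
      have i2 : (W ∪ U) ∩ Z = U := by
        rw [Finset.union_inter_distrib_right, Finset.inter_eq_left.mpr hU1]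
        have : W ∩ Z = ∅ := by
          rw [← Finset.disjoint_iff_inter_eq_empty]
          exact Disjoint.mono_left hW1 hd
        rw [this, Finset.empty_union]
      refine ⟨W ∪ U, ?_, ?_⟩
      · simp only [mem_filter, mem_powersetCard]
        refine ⟨⟨⟨union_subset_union hW1 hU1, ?_⟩, ?_⟩, ?_⟩
        · rw [Finset.card_union_of_disjoint hdis]; omega
        · rw [Finset.sum_union hdis]; exact hP
        · rw [i1]; exact hW2
      · simp only [i1, i2]
  · intro V hV
    have hV' : V ∈ ((S ∪ Z).powersetCard k).filter (fun V => ∑ i ∈ V, h i < 1) := hV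
    simp only [mem_filter, mem_powersetCard] at hV'
    have := Finset.card_le_card (Finset.inter_subset_left : V ∩ S ⊆ V)
    simp only [coe_range, Set.mem_Iio]
    omega

/-- An enumeration of a finite set. -/
theorem exists_enum (S : Finset ι) : ∃ φ : Fin S.card ↪ ι, univ.map φ = S := by
  let e : Fin S.card ≃ {i // i ∈ S} := S.equivFin.symm
  refine ⟨e.toEmbedding.trans (Function.Embedding.subtype _), ?_⟩
  ext i
  simp only [mem_map, mem_univ, true_and]
  constructor
  · rintro ⟨t, rfl⟩
    exact (e t).2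
  · intro hi
    refine ⟨e.symm ⟨i, hi⟩, ?_⟩
    show ((e (e.symm ⟨i, hi⟩)) : ι) = i
    rw [e.apply_symm_apply]

theorem EE_map {b p : ℕ} (S Z : Finset ι) (φ : Fin b ↪ ι) (ψ : Fin p ↪ ι) (hφ : univ.map φ = S)
    (hψ : univ.map ψ = Z) (h : ι → ℝ) (i j : ℕ) :
    ∑ A ∈ S.powersetCard i,
      ((Z.powersetCard j).filter (fun B => ∑ i ∈ A, h i + ∑ i ∈ B, h i < 1)).card =
    EE (fun a => h (φ a)) (fun c => h (ψ c)) i j := by
  subst hφ
  subst hψ
  unfold EE
  rw [Finset.powersetCard_map, Finset.sum_map]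
  apply Finset.sum_congr rfl
  intro A _
  rw [Finset.powersetCard_map, Finset.filter_map, Finset.card_map]
  congr 1
  apply Finset.filter_congr
  intro B _
  show ∑ i ∈ A.map φ, h i + ∑ i ∈ B.map ψ, h i < 1 ↔ _
  rw [Finset.sum_map, Finset.sum_map]

theorem types (s H : Finset ι) (hHs : H ⊆ s) (h : ι → ℝ) (k : ℕ) (hk : 0 < k)
    (hH : ∀ i ∈ H, 1 / (k : ℝ) ≤ h i) (hs : (k : ℝ) * ∑ i ∈ s, h i < 3 * k + 1)
    (hc : s.card = 3 * k + 1) :
    ∃ r : ℕ → ℝ, (∀ j, 0 ≤ r j) ∧
      (NL s h k : ℝ) = ∑ j ∈ range (k + 1), ((H.card.choose j : ℕ) : ℝ) *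
        (((s \ H).card.choose (k - j) : ℕ) : ℝ) * r j ∧
      (∀ i j l : ℕ, i + j + l + 1 = H.card → i ≤ k → j ≤ k → l ≤ k →
        1 ≤ r i + r j + r l) ∧
      ((∀ i ∈ s \ H, h i < 1 / (k : ℝ)) →
        (((s \ H).card.choose k : ℕ) : ℝ) * r 0 = (((s \ H).card.choose k : ℕ) : ℝ)) := by
  have hk0 : (0 : ℝ) < k := by exact_mod_cast hk
  obtain ⟨φ, hφ⟩ := exists_enum H
  obtain ⟨ψ, hψ⟩ := exists_enum (s \ H)
  have hd : Disjoint H (s \ H) := Finset.disjoint_sdiff
  have hu : H ∪ (s \ H) = s := Finset.union_sdiff_of_subset hHs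
  have hcard : H.card + (s \ H).card = 3 * k + 1 := by
    rw [← hc, ← hu, Finset.card_union_of_disjoint hd, hu]
  have hsum : ∑ a, h (φ a) + ∑ c, h (ψ c) = ∑ i ∈ s, h i := by
    have h1 := Finset.sum_map univ φ h
    have h2 := Finset.sum_map univ ψ h
    rw [hφ] at h1
    rw [hψ] at h2
    rw [← h1, ← h2, ← Finset.sum_union hd, hu]
  have hmem : ∀ a, φ a ∈ H := by
    intro a
    have h1 : φ a ∈ univ.map φ := mem_map_of_mem _ (mem_univ _)
    exact hφ.subset h1
  have hmem2 : ∀ c, ψ c ∈ s \ H := by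
    intro c
    have h1 : ψ c ∈ univ.map ψ := mem_map_of_mem _ (mem_univ _)
    exact hψ.subset h1
  refine ⟨fun j => rr (fun a => h (φ a)) (fun c => h (ψ c)) j (k - j),
    fun j => rr_nonneg _ _ _ _, ?_, ?_, ?_⟩
  · have h1 : NL s h k = ∑ j ∈ range (k + 1), EE (fun a => h (φ a)) (fun c => h (ψ c)) j
        (k - j) := by
      have h2 := split_count2 H (s \ H) hd h k
      rw [hu] at h2
      rw [h2]
      apply Finset.sum_congr rfl
      intro j _
      exact EE_map H (s \ H) φ ψ hφ hψ h j (k - j)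
    rw [h1]
    push_cast
    apply Finset.sum_congr rfl
    intro j _
    exact EE_eq _ _ _ _
  · intro i j l hb hi hj hl
    apply triple (fun a => h (φ a)) (fun c => h (ψ c)) (θ := 1 / (k : ℝ))
      (fun a => hH _ (hmem a)) _ hb hi hj hl hcard
    rw [hsum]
    have h1 : (k : ℝ) * (1 / (k : ℝ)) = 1 := by field_simp
    by_contra hcon
    push_neg at hcon
    have h2 := mul_le_mul_of_nonneg_left hcon hk0.le
    rw [mul_sub, h1] at h2
    linarith
  · intro hL
    have h1 : EE (fun a => h (φ a)) (fun c => h (ψ c)) 0 k = (s \ H).card.choose k := by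
      unfold EE
      rw [Finset.powersetCard_zero, Finset.sum_singleton]
      rw [Finset.filter_true_of_mem, Finset.card_powersetCard, Finset.card_univ,
        Fintype.card_fin]
      intro T hT
      rw [mem_powersetCard] at hT
      rw [Finset.sum_empty, zero_add]
      have hne : T.Nonempty := by
        rw [← Finset.card_pos, hT.2]; exact hk
      calc ∑ c ∈ T, h (ψ c) < ∑ c ∈ T, 1 / (k : ℝ) :=
            Finset.sum_lt_sum_of_nonempty hne (fun c _ => hL _ (hmem2 c))
        _ = 1 := by rw [Finset.sum_const, hT.2, nsmul_eq_mul]; field_simp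
    have h2 := EE_eq (fun a => h (φ a)) (fun c => h (ψ c)) 0 k
    rw [h1, Nat.choose_zero_right, Nat.cast_one, one_mul] at h2
    exact h2.symm

theorem crit_top (s : Finset ι) (h : ι → ℝ) (k : ℕ) (hk : 0 < k) (hn : ∀ i ∈ s, 0 ≤ h i)
    (hs : (k : ℝ) * ∑ i ∈ s, h i < 3 * k + 1) (hc : s.card = 3 * k + 1) :
    (3 * k - 2).choose k ≤ NL s h k := by
  have hk0 : (0 : ℝ) < k := by exact_mod_cast hk
  set B := s.filter (fun i => 1 / (k : ℝ) ≤ h i) with hB
  have hBs : B ⊆ s := Finset.filter_subset _ _
  have hBle : B.card ≤ 3 * k := by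
    have h1 : (B.card : ℝ) * (1 / (k : ℝ)) ≤ ∑ i ∈ B, h i := by
      have := Finset.card_nsmul_le_sum B h (1 / (k : ℝ)) (fun i hi => (mem_filter.mp hi).2)
      rwa [nsmul_eq_mul] at this
    have h2 : ∑ i ∈ B, h i ≤ ∑ i ∈ s, h i :=
      Finset.sum_le_sum_of_subset_of_nonneg hBs (fun i hi _ => hn i hi)
    have h3 : (B.card : ℝ) < 3 * k + 1 := by
      have h4 : (k : ℝ) * ((B.card : ℝ) * (1 / (k : ℝ))) = B.card := by field_simp
      have h5 := mul_le_mul_of_nonneg_left (h1.trans h2) hk0.le
      rw [h4] at h5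
      linarith
    have h6 : B.card < 3 * k + 1 := by exact_mod_cast h3
    omega
  have hlight : ∀ i ∈ s \ B, h i < 1 / (k : ℝ) := by
    intro i hi
    rw [mem_sdiff, hB, mem_filter] at hi
    by_contra hcon
    push_neg at hcon
    exact hi.2 ⟨hi.1, hcon⟩
  have hreal : (((3 * k - 2).choose k : ℕ) : ℝ) ≤ (NL s h k : ℝ) → (3 * k - 2).choose k ≤
      NL s h k := fun hh => by exact_mod_cast hh
  rcases Nat.lt_or_ge B.card 4 with hb | hb
  · -- at most three heavy elements
    have h1 : (s \ B).powersetCard k ⊆ (s.powersetCard k).filter (fun V => ∑ i ∈ V, h i < 1) := by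
      intro V hV
      rw [mem_powersetCard] at hV
      rw [mem_filter, mem_powersetCard]
      refine ⟨⟨hV.1.trans Finset.sdiff_subset, hV.2⟩, ?_⟩
      have hne : V.Nonempty := by rw [← Finset.card_pos, hV.2]; exact hk
      calc ∑ i ∈ V, h i < ∑ i ∈ V, 1 / (k : ℝ) :=
            Finset.sum_lt_sum_of_nonempty hne (fun i hi => hlight i (hV.1 hi))
        _ = 1 := by rw [Finset.sum_const, hV.2, nsmul_eq_mul]; field_simp
    have h2 := Finset.card_le_card h1
    rw [Finset.card_powersetCard, Finset.card_sdiff_of_subset hBs, hc] at h2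
    refine le_trans (Nat.choose_le_choose k ?_) h2
    omega
  · rcases Nat.lt_or_ge B.card 11 with hb2 | hb2
    · obtain ⟨r, hr, hsum, htr, hr0⟩ := types s B hBs h k hk
        (fun i hi => (mem_filter.mp hi).2) hs hc
      have hr0 := hr0 hlight
      have hcard : B.card + (s \ B).card = 3 * k + 1 := by
        rw [Finset.card_sdiff_of_subset hBs, hc]; omega
      have hp : 0 < (s \ B).card := by omega
      generalize (s \ B).card = p at *
      generalize B.card = b at *
      apply hreal
      rw [hsum]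
      obtain rfl | rfl | rfl | rfl | rfl | rfl | rfl : b = 4 ∨ b = 5 ∨ b = 6 ∨ b = 7 ∨ b = 8 ∨
        b = 9 ∨ b = 10 := by omega
      · exact fin4 k p hcard hp r hr hr0 htr
      · exact fin5 k p hcard hp r hr hr0 htr
      · exact fin6 k p hcard hp r hr hr0 htr
      · exact fin7 k p hcard hp r hr hr0 htr
      · exact fin8 k p hcard hp r hr hr0 htr
      · exact fin9 k p hcard hp r hr hr0 htr
      · exact fin10 k p hcard hp r hr hr0 htr
    · obtain ⟨H, hHB, hH11⟩ := Finset.exists_subset_card_eq hb2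
      have hHs : H ⊆ s := hHB.trans hBs
      obtain ⟨r, hr, hsum, htr, _⟩ := types s H hHs h k hk
        (fun i hi => (mem_filter.mp (hHB hi)).2) hs hc
      have hcard : H.card + (s \ H).card = 3 * k + 1 := by
        rw [Finset.card_sdiff_of_subset hHs, hc, hH11]; omega
      have hp : 0 < (s \ H).card := by omega
      rw [hH11] at hsum htr hcard
      apply hreal
      rw [hsum]
      exact fin11 k _ hcard hp r hr htr

theorem top_aux : ∀ (n : ℕ) (s : Finset ι) (h : ι → ℝ) (k : ℕ), s.card = n →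
    (∀ i ∈ s, 0 ≤ h i) → (k : ℝ) * ∑ i ∈ s, h i < 3 * k + 1 → 3 * k < n →
    (n - 3).choose k ≤ NL s h k := by
  intro n
  induction n with
  | zero => intro s h k _ _ _ hk; omega
  | succ n ih =>
    intro s h k hcard hn hs hk
    rcases Nat.eq_zero_or_pos k with rfl | hkpos
    · rw [NL_zero, Nat.choose_zero_right]
    have hk0 : (0 : ℝ) < k := by exact_mod_cast hkpos
    by_cases hcrit : n = 3 * k
    · have h1 := crit_top s h k hkpos hn hs (by omega)
      have e : n + 1 - 3 = 3 * k - 2 := by omega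
      rw [e]; exact h1
    · -- there is room: subtract the minimum and remove a zero
      have hne : s.Nonempty := by rw [← Finset.card_pos]; omega
      obtain ⟨e, hes, hmin⟩ := Finset.exists_min_image s h hne
      set c := h e with hc
      have hc0 : 0 ≤ c := hn e hes
      have hnc : (s.card : ℝ) * c ≤ ∑ i ∈ s, h i := by
        have := Finset.card_nsmul_le_sum s h c (fun i hi => hmin i hi)
        simpa using this
      have hkn : 3 * (k : ℝ) + 1 ≤ (s.card : ℝ) := by
        rw [hcard]; exact_mod_cast hk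
      have hkc : 0 < 1 - (k : ℝ) * c := by
        rcases hc0.lt_or_eq with hpos | hz
        · have h1 : (3 * (k : ℝ) + 1) * c ≤ (s.card : ℝ) * c :=
            mul_le_mul_of_nonneg_right hkn hc0
          have h2 : (k : ℝ) * ((3 * (k : ℝ) + 1) * c) < 3 * k + 1 :=
            lt_of_le_of_lt (mul_le_mul_of_nonneg_left (h1.trans hnc) hk0.le) hs
          by_contra hcon
          push_neg at hcon
          nlinarith
        · rw [← hz]; norm_num
      set D := 1 - (k : ℝ) * c with hD
      set h' : ι → ℝ := fun i => (h i - c) / D with hh'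
      have hn' : ∀ i ∈ s, 0 ≤ h' i := by
        intro i hi
        exact div_nonneg (by linarith [hmin i hi]) hkc.le
      have hs' : (k : ℝ) * ∑ i ∈ s, h' i < 3 * k + 1 := by
        have e1 : ∑ i ∈ s, h' i = (∑ i ∈ s, h i - (s.card : ℝ) * c) / D := by
          rw [hh', ← Finset.sum_div, Finset.sum_sub_distrib, Finset.sum_const, nsmul_eq_mul]
        rw [e1, mul_div_assoc', div_lt_iff₀ hkc, hD]
        have h1 : (3 * (k : ℝ) + 1) * c ≤ (s.card : ℝ) * c :=
          mul_le_mul_of_nonneg_right hkn hc0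
        have h2 := mul_le_mul_of_nonneg_left h1 hk0.le
        nlinarith
      have he0 : h' e = 0 := by simp [hh', hc]
      have hNL : NL s h k = NL s h' k := by
        unfold NL
        congr 1
        apply Finset.filter_congr
        intro V hV
        rw [mem_powersetCard] at hV
        have : ∑ i ∈ V, h' i = (∑ i ∈ V, h i - (k : ℝ) * c) / D := by
          rw [hh', ← Finset.sum_div, Finset.sum_sub_distrib, Finset.sum_const, nsmul_eq_mul,
            hV.2]
        rw [this, div_lt_one hkc, hD]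
        constructor
        · intro h1; linarith
        · intro h1; linarith
      rw [hNL]
      obtain ⟨l, rfl⟩ : ∃ l, k = l + 1 := ⟨k - 1, by omega⟩
      have hse : s = insert e (s.erase e) := (Finset.insert_erase hes).symm
      have hce : (s.erase e).card = n := by rw [Finset.card_erase_of_mem hes, hcard]; omega
      have hle : ∑ i ∈ s.erase e, h' i ≤ ∑ i ∈ s, h' i :=
        Finset.sum_le_sum_of_subset_of_nonneg (Finset.erase_subset e s) (fun i hi _ => hn' i hi)
      have hnn : 0 ≤ ∑ i ∈ s.erase e, h' i :=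
        Finset.sum_nonneg (fun i hi => hn' i (Finset.mem_of_mem_erase hi))
      have hsum1 : ((l + 1 : ℕ) : ℝ) * ∑ i ∈ s.erase e, h' i < 3 * ((l + 1 : ℕ) : ℝ) + 1 :=
        lt_of_le_of_lt (mul_le_mul_of_nonneg_left hle hk0.le) hs'
      have hsum2 : (l : ℝ) * ∑ i ∈ s.erase e, h' i < 3 * (l : ℝ) + 1 := by
        push_cast at hsum1
        by_contra hcon
        push_neg at hcon
        have h3 : ∑ i ∈ s.erase e, h' i < 3 + 1 := by
          by_contra hcon2
          push_neg at hcon2
          have hl0 : (0 : ℝ) ≤ l := Nat.cast_nonneg l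
          nlinarith
        have h4 : ∑ i ∈ s.erase e, h' i < 3 := by nlinarith
        have hl0 : (0 : ℝ) ≤ l := Nat.cast_nonneg l
        nlinarith
      have hn'' : ∀ i ∈ s.erase e, 0 ≤ h' i := fun i hi => hn' i (Finset.mem_of_mem_erase hi)
      rw [hse, NL_insert (s.erase e) h' (Finset.notMem_erase e s) he0 l]
      have i1 := ih (s.erase e) h' (l + 1) hce hn'' hsum1 (by omega)
      have i2 := ih (s.erase e) h' l hce hn'' hsum2 (by omega)
      have e1 : n + 1 - 3 = (n - 3) + 1 := by omega
      rw [e1, Nat.choose_succ_succ' (n - 3) l]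
      omega

end Pool.Agent.KR3
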