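import Pool.Agent.KR3.Top
import Pool.Agent.KR3.Fin

/-!
From finite sets to the form of the problem, total dose less than `3 + 1 / k`.
-/

namespace Pool.Agent.KR3

open Finset

theorem top_unit (n k : ℕ) (h : ℝ) (h3 : 3 ≤ h) (hk : h * k < 3 * k + 1) (x : Fin n → ℝ)
    (hx : ∀ i, 0 ≤ x i) (hs : ∑ i, x i = h) (hn : 3 * k < n) :
    Set.ncard {V : Finset (Fin n) | V.card = k ∧ (1 : ℝ) ≤ ∑ i ∈ V, x i} ≤
      Set.ncard {V : Finset (Fin n) | V.card = k ∧ (1 : ℝ) ≤ ∑ i ∈ V,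
        (if i.val < min n ⌊h * ((1 : ℕ) : ℝ)⌋₊ then (1 : ℝ) / ((1 : ℕ) : ℝ) else 0)} := by
  have h1 := ncard_add_NL k x
  rcases Nat.eq_zero_or_pos k with rfl | hkp
  · have h3 := NL_zero univ x
    rw [h3, Nat.choose_zero_right] at h1
    omega
  have hk1 : (1 : ℝ) ≤ k := by exact_mod_cast hkp
  have hmain := top_aux n univ x k (by rw [card_univ, Fintype.card_fin]) (fun i _ => hx i)
    (by rw [hs, mul_comm]; exact hk) hn
  have e : ⌊h * ((1 : ℕ) : ℝ)⌋₊ = 3 := by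
    rw [Nat.cast_one, mul_one, Nat.floor_eq_iff (by linarith)]
    constructor
    · exact_mod_cast h3
    · push_cast
      by_contra hcon
      push_neg at hcon
      nlinarith
  rw [e]
  have e2 : min n 3 = 3 := min_eq_right (by omega)
  rw [e2]
  have h2 := ncard_add_NL k
    (fun i : Fin n => if i.val < 3 then (1 : ℝ) / ((1 : ℕ) : ℝ) else 0)
  have h4 := NL_unit_le (n := n) (s := 3) (by omega) k
  omega

theorem top_k (n k : ℕ) (h : ℝ) (h3 : 3 ≤ h) (x : Fin n → ℝ) (hk : n ≤ 3 * k) (hk0 : 0 < k) :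
    Set.ncard {V : Finset (Fin n) | V.card = k ∧ (1 : ℝ) ≤ ∑ i ∈ V, x i} ≤
      Set.ncard {V : Finset (Fin n) | V.card = k ∧ (1 : ℝ) ≤ ∑ i ∈ V,
        (if i.val < min n ⌊h * (k : ℝ)⌋₊ then (1 : ℝ) / (k : ℝ) else 0)} := by
  apply Set.ncard_le_ncard _ (Set.toFinite _)
  rintro V ⟨hV, _⟩
  refine ⟨hV, ?_⟩
  have hk1 : (0 : ℝ) < k := by exact_mod_cast hk0
  have e : n ≤ ⌊h * (k : ℝ)⌋₊ := by
    apply Nat.le_floor
    have h1 : (n : ℝ) ≤ 3 * k := by exact_mod_cast hk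
    nlinarith
  rw [min_eq_left e]
  have h1 : ∀ i ∈ V, (if i.val < n then (1 : ℝ) / (k : ℝ) else 0) = 1 / (k : ℝ) := by
    intro i _
    rw [if_pos i.isLt]
  rw [Finset.sum_congr rfl h1, Finset.sum_const, hV, nsmul_eq_mul, mul_one_div,
    div_self hk1.ne']

end Pool.Agent.KR3
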