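import Pool.Agent.KR3.Avg

/-!
Three consecutive windows of a random order of positive numbers of total at most 3.
-/

namespace Pool.Agent.KR3

open Finset

/-- The window of positions `a ≤ t < b`. -/
def win (m a b : ℕ) : Finset (Fin m) := univ.filter (fun t => a ≤ t.val ∧ t.val < b)

theorem card_win {m a b : ℕ} (hb : b ≤ m) : (win m a b).card = b - a := by
  have h : (win m a b).map Fin.valEmbedding = Finset.Ico a b := by
    ext x
    simp only [win, mem_map, mem_filter, mem_univ, true_and, Fin.valEmbedding_apply, mem_Ico]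
    constructor
    · rintro ⟨t, ht, rfl⟩; exact ht
    · intro hx; exact ⟨⟨x, by omega⟩, hx, rfl⟩
  rw [← Finset.card_map Fin.valEmbedding, h, Nat.card_Ico]

/-- Prefix sums of the order `σ`. -/
noncomputable def pre {m : ℕ} (x : Fin m → ℝ) (σ : Equiv.Perm (Fin m)) (t : ℕ) : ℝ :=
  ∑ i ∈ win m 0 t, x (σ i)

theorem sum_win {m : ℕ} (x : Fin m → ℝ) (σ : Equiv.Perm (Fin m)) {a b : ℕ} (hab : a ≤ b) :
    ∑ y ∈ (win m a b).map σ.toEmbedding, x y = pre x σ b - pre x σ a := by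
  rw [Finset.sum_map]
  have hd : Disjoint (win m 0 a) (win m a b) := by
    rw [Finset.disjoint_left]
    intro t ht ht2
    simp only [win, mem_filter, mem_univ, true_and] at ht ht2
    omega
  have hu : win m 0 b = win m 0 a ∪ win m a b := by
    ext t
    simp only [win, mem_filter, mem_univ, true_and, mem_union]
    omega
  unfold pre
  rw [hu, Finset.sum_union hd]
  simp

theorem pre_zero {m : ℕ} (x : Fin m → ℝ) (σ : Equiv.Perm (Fin m)) : pre x σ 0 = 0 := by
  unfold pre win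
  apply Finset.sum_eq_zero
  intro i hi
  simp at hi

theorem pre_full {m : ℕ} (x : Fin m → ℝ) (σ : Equiv.Perm (Fin m)) : pre x σ m = ∑ i, x i := by
  unfold pre
  have : win m 0 m = univ := by
    ext t; simp [win]
  rw [this]
  exact Equiv.sum_comp σ x

theorem pre_lt {m : ℕ} (x : Fin m → ℝ) (hx : ∀ i, 0 < x i) (σ : Equiv.Perm (Fin m)) {s t : ℕ}
    (hst : s < t) (ht : t ≤ m) : pre x σ s < pre x σ t := by
  have h := sum_win x σ hst.le
  have hpos : 0 < ∑ y ∈ (win m s t).map σ.toEmbedding, x y := by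
    apply Finset.sum_pos
    · intro i _; exact hx i
    · rw [← Finset.card_pos, Finset.card_map, card_win ht]; omega
  rw [h] at hpos
  linarith

theorem pre_le {m : ℕ} (x : Fin m → ℝ) (hx : ∀ i, 0 < x i) (σ : Equiv.Perm (Fin m)) {s t : ℕ}
    (hst : s ≤ t) (ht : t ≤ m) : pre x σ s ≤ pre x σ t := by
  rcases hst.lt_or_eq with h | h
  · exact (pre_lt x hx σ h ht).le
  · rw [h]

theorem pre_inj {m : ℕ} (x : Fin m → ℝ) (hx : ∀ i, 0 < x i) (σ : Equiv.Perm (Fin m)) {s t : ℕ}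
    (hs : s ≤ m) (ht : t ≤ m) (h : pre x σ s = pre x σ t) : s = t := by
  rcases lt_trichotomy s t with h1 | h1 | h1
  · have := pre_lt x hx σ h1 ht; linarith
  · exact h1
  · have := pre_lt x hx σ h1 hs; linarith

/-- All three windows of lengths `j.1, j.2.1, j.2.2` have dose at least 1. -/
def TT {m : ℕ} (x : Fin m → ℝ) (σ : Equiv.Perm (Fin m)) (j : ℕ × ℕ × ℕ) : Prop :=
  1 ≤ pre x σ j.1 - pre x σ 0 ∧ 1 ≤ pre x σ (j.1 + j.2.1) - pre x σ j.1 ∧
    1 ≤ pre x σ (j.1 + j.2.1 + j.2.2) - pre x σ (j.1 + j.2.1)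

theorem TT_sum {m : ℕ} (x : Fin m → ℝ) (hx : ∀ i, 0 < x i) (hs : ∑ i, x i ≤ 3)
    (σ : Equiv.Perm (Fin m)) (j : ℕ × ℕ × ℕ) (hj : j.1 + j.2.1 + j.2.2 ≤ m) (h : TT x σ j) :
    pre x σ j.1 = 1 ∧ pre x σ (j.1 + j.2.1) = 2 ∧ j.1 + j.2.1 + j.2.2 = m := by
  obtain ⟨h1, h2, h3⟩ := h
  rw [pre_zero] at h1
  have h4 := pre_le x hx σ hj le_rfl
  rw [pre_full] at h4
  refine ⟨by linarith, by linarith, ?_⟩
  apply pre_inj x hx σ hj le_rfl
  rw [pre_full]
  have : pre x σ (j.1 + j.2.1 + j.2.2) ≤ ∑ i, x i := h4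
  linarith

theorem TT_unique {m : ℕ} (x : Fin m → ℝ) (hx : ∀ i, 0 < x i) (hs : ∑ i, x i ≤ 3)
    (σ : Equiv.Perm (Fin m)) (j j' : ℕ × ℕ × ℕ) (hj : j.1 + j.2.1 + j.2.2 ≤ m)
    (hj' : j'.1 + j'.2.1 + j'.2.2 ≤ m) (h : TT x σ j) (h' : TT x σ j') : j = j' := by
  obtain ⟨a1, a2, a3⟩ := TT_sum x hx hs σ j hj h
  obtain ⟨b1, b2, b3⟩ := TT_sum x hx hs σ j' hj' h'
  have c1 : j.1 = j'.1 := pre_inj x hx σ (by omega) (by omega) (by rw [a1, b1])
  have c2 : j.1 + j.2.1 = j'.1 + j'.2.1 :=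
    pre_inj x hx σ (by omega) (by omega) (by rw [a2, b2])
  have c3 : j.2.1 = j'.2.1 := by omega
  have c4 : j.2.2 = j'.2.2 := by omega
  exact Prod.ext c1 (Prod.ext c3 c4)

/-- Number of `j`-subsets of dose at least 1. -/
noncomputable def lth {m : ℕ} (x : Fin m → ℝ) (j : ℕ) : ℕ :=
  ((powersetCard j (univ : Finset (Fin m))).filter (fun W => 1 ≤ ∑ i ∈ W, x i)).card

open Classical in
/-- Indicator of a window. -/
noncomputable def ind {m : ℕ} (x : Fin m → ℝ) (σ : Equiv.Perm (Fin m)) (a b : ℕ) : ℝ :=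
  if 1 ≤ pre x σ b - pre x σ a then 1 else 0

theorem sum_ind {m : ℕ} (x : Fin m → ℝ) {a b : ℕ} (hab : a ≤ b) (hb : b ≤ m) :
    ∑ σ : Equiv.Perm (Fin m), ind x σ a b =
      (m.factorial : ℝ) * ((lth x (b - a) : ℝ) / (m.choose (b - a) : ℝ)) := by
  classical
  have h := perm_count (win m a b) (fun W => 1 ≤ ∑ i ∈ W, x i)
  rw [card_win hb] at h
  have h2 : ∑ σ : Equiv.Perm (Fin m), ind x σ a b =
      (((univ : Finset (Equiv.Perm (Fin m))).filter
        (fun σ => 1 ≤ ∑ i ∈ (win m a b).map σ.toEmbedding, x i)).card : ℝ) := by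
    rw [Finset.card_filter]
    push_cast
    apply Finset.sum_congr rfl
    intro σ _
    unfold ind
    rw [sum_win x σ hab]
  rw [h2]
  have hc : (0 : ℝ) < (m.choose (b - a) : ℝ) := by
    exact_mod_cast Nat.choose_pos (by omega)
  rw [mul_div_assoc', eq_div_iff hc.ne']
  unfold lth
  exact_mod_cast h

theorem ind_add {m : ℕ} (x : Fin m → ℝ) (σ : Equiv.Perm (Fin m)) (j : ℕ × ℕ × ℕ) :
    ind x σ 0 j.1 + ind x σ j.1 (j.1 + j.2.1) + ind x σ (j.1 + j.2.1) (j.1 + j.2.1 + j.2.2) ≤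
      2 + (open Classical in if TT x σ j then (1 : ℝ) else 0) := by
  classical
  unfold ind TT
  split_ifs <;> first | (exfalso; tauto) | norm_num

theorem three {m : ℕ} (x : Fin m → ℝ) (hx : ∀ i, 0 < x i) (hs : ∑ i, x i ≤ 3)
    (R : Finset (ℕ × ℕ × ℕ)) (hR : ∀ j ∈ R, j.1 + j.2.1 + j.2.2 ≤ m) (w : ℕ × ℕ × ℕ → ℝ)
    (hw : ∀ j ∈ R, 0 ≤ w j) (M : ℝ) (hM : 0 ≤ M)
    (hwM : ∀ j ∈ R, j.1 + j.2.1 + j.2.2 = m → w j ≤ M) :
    ∑ j ∈ R, w j * ((lth x j.1 : ℝ) / (m.choose j.1 : ℝ) +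
      (lth x j.2.1 : ℝ) / (m.choose j.2.1 : ℝ) + (lth x j.2.2 : ℝ) / (m.choose j.2.2 : ℝ)) ≤
      2 * ∑ j ∈ R, w j + M := by
  classical
  have hf : (0 : ℝ) < (m.factorial : ℝ) := by exact_mod_cast Nat.factorial_pos m
  have key : (m.factorial : ℝ) * ∑ j ∈ R, w j * ((lth x j.1 : ℝ) / (m.choose j.1 : ℝ) +
      (lth x j.2.1 : ℝ) / (m.choose j.2.1 : ℝ) + (lth x j.2.2 : ℝ) / (m.choose j.2.2 : ℝ)) ≤
      (m.factorial : ℝ) * (2 * ∑ j ∈ R, w j + M) := by
    calc (m.factorial : ℝ) * ∑ j ∈ R, w j * ((lth x j.1 : ℝ) / (m.choose j.1 : ℝ) +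
      (lth x j.2.1 : ℝ) / (m.choose j.2.1 : ℝ) + (lth x j.2.2 : ℝ) / (m.choose j.2.2 : ℝ))
        = ∑ j ∈ R, w j * ∑ σ : Equiv.Perm (Fin m), (ind x σ 0 j.1 + ind x σ j.1 (j.1 + j.2.1) +
            ind x σ (j.1 + j.2.1) (j.1 + j.2.1 + j.2.2)) := by
          rw [Finset.mul_sum]
          apply Finset.sum_congr rfl
          intro j hj
          have := hR j hj
          rw [Finset.sum_add_distrib, Finset.sum_add_distrib, sum_ind x (Nat.zero_le _) (by omega),
            sum_ind x (by omega) (by omega), sum_ind x (by omega) (by omega)]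
          have e1 : j.1 - 0 = j.1 := by omega
          have e2 : j.1 + j.2.1 - j.1 = j.2.1 := by omega
          have e3 : j.1 + j.2.1 + j.2.2 - (j.1 + j.2.1) = j.2.2 := by omega
          rw [e1, e2, e3]
          ring
      _ ≤ ∑ j ∈ R, w j * ∑ σ : Equiv.Perm (Fin m), (2 + (if TT x σ j then (1 : ℝ) else 0)) := by
          apply Finset.sum_le_sum
          intro j hj
          apply mul_le_mul_of_nonneg_left _ (hw j hj)
          apply Finset.sum_le_sum
          intro σ _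
          exact ind_add x σ j
      _ = (m.factorial : ℝ) * (2 * ∑ j ∈ R, w j) +
            ∑ σ : Equiv.Perm (Fin m), ∑ j ∈ R, w j * (if TT x σ j then (1 : ℝ) else 0) := by
          rw [Finset.sum_comm (s := (univ : Finset (Equiv.Perm (Fin m))))]
          rw [Finset.mul_sum, Finset.mul_sum, ← Finset.sum_add_distrib]
          apply Finset.sum_congr rfl
          intro j _
          rw [Finset.sum_add_distrib, Finset.sum_const, Finset.card_univ, Fintype.card_perm,
            Fintype.card_fin, nsmul_eq_mul, mul_add, Finset.mul_sum]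
          ring
      _ ≤ (m.factorial : ℝ) * (2 * ∑ j ∈ R, w j) + ∑ σ : Equiv.Perm (Fin m), M := by
          gcongr with σ _
          by_cases hex : ∃ j ∈ R, TT x σ j
          · obtain ⟨j0, hj0, hT⟩ := hex
            rw [Finset.sum_eq_single j0]
            · rw [if_pos hT, mul_one]
              exact hwM j0 hj0 (TT_sum x hx hs σ j0 (hR j0 hj0) hT).2.2
            · intro j hj hne
              rw [if_neg, mul_zero]
              intro hT'
              exact hne (TT_unique x hx hs σ j j0 (hR j hj) (hR j0 hj0) hT' hT)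
            · intro h; exact absurd hj0 h
          · push Not at hex
            rw [Finset.sum_eq_zero]
            · exact hM
            · intro j hj
              rw [if_neg (hex j hj), mul_zero]
      _ = (m.factorial : ℝ) * (2 * ∑ j ∈ R, w j + M) := by
          rw [Finset.sum_const, Finset.card_univ, Fintype.card_perm, Fintype.card_fin,
            nsmul_eq_mul]
          ring
  exact le_of_mul_le_mul_left key hf

end Pool.Agent.KR3
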